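import Pool.Agent.Lib.MP_e7db20_al.Tree

/-! Type-preserving automorphisms of the tree with restricted local actions. -/

namespace Pool.Agent.Lib.MP_e7db20_al

open W Topology

/-- An equivariant family of subgroups of the point stabilizers. -/
structure Loc (X H : Type) [Group H] [MulAction H X] where
  /-- the subgroups -/
  L : X → Subgroup H
  fix : ∀ {x l}, l ∈ L x → l • x = x
  conj : ∀ {x l} (h : H), l ∈ L x → h * l * h⁻¹ ∈ L (h • x)
  move : ∀ {x y}, x ≠ y → ∃ l ∈ L x, l • y ≠ y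

variable {X H : Type}

instance : TopologicalSpace (W X) := ⊥
instance : DiscreteTopology (W X) := ⟨rfl⟩

/-- The type of a vertex. -/
def W.par (v : W X) : Prop := Even (d o v)

theorem W.par_s (v : W X) (x : X) : (v.s x).par ↔ ¬ v.par := by
  have := d_s' o v x
  simp only [W.par, Nat.even_iff]
  omega

variable [Group H] [MulAction H X] (D : Loc X H)

/-- The defining conditions on a map and its local actions. -/
def Loc.Cond (p : (W X → W X) × (W X → H)) : Prop :=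
  (∀ v x, p.1 (v.s x) = (p.1 v).s (p.2 v • x)) ∧ (∀ v x, (p.2 v)⁻¹ * p.2 (v.s x) ∈ D.L x) ∧
    ∀ v, (p.1 v).par ↔ v.par

/-- The group. -/
@[ext] structure Loc.G where
  /-- the map and its local actions -/
  p : (W X → W X) × (W X → H)
  c : D.Cond p

namespace Loc

variable {D}

theorem Cond.d_eq {p} (h : D.Cond p) (v w : W X) : d (p.1 v) (p.1 w) = d v w :=
  d_map (σ := fun v x => p.2 v • x) (fun _ => MulAction.injective _) h.1 w _ v rfl

theorem Cond.bij {p} (h : D.Cond p) : Function.Bijective p.1 := by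
  refine ⟨fun v w e => eq_of_d (by rw [← h.d_eq, e, d_self]), fun w => ?_⟩
  induction w using ind (p.1 o) with
  | h0 => exact ⟨o, rfl⟩
  | hs w x ih =>
    obtain ⟨v, rfl⟩ := ih
    exact ⟨v.s ((p.2 v)⁻¹ • x), by rw [h.1, smul_inv_smul]⟩

instance : One D.G := ⟨⟨(id, 1), fun _ _ => by simp, fun _ _ => by simp, fun _ => Iff.rfl⟩⟩

instance : Mul D.G := ⟨fun g k => ⟨(g.1.1 ∘ k.1.1, fun v => g.1.2 (k.1.1 v) * k.1.2 v),
  fun v x => by simp only [Function.comp, k.2.1, g.2.1, mul_smul],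
  fun v x => by
    have h1 := D.conj (k.1.2 v)⁻¹ (g.2.2.1 (k.1.1 v) (k.1.2 v • x))
    rw [inv_smul_smul, ← k.2.1] at h1
    have := mul_mem h1 (k.2.2.1 v x)
    simpa only [mul_inv_rev, inv_inv, mul_assoc, mul_inv_cancel_left] using this,
  fun v => (g.2.2.2 _).trans (k.2.2.2 v)⟩⟩

noncomputable instance : Inv D.G := ⟨fun g =>
  ⟨((Equiv.ofBijective _ g.2.bij).symm, fun v => (g.1.2 ((Equiv.ofBijective _ g.2.bij).symm v))⁻¹),
  fun v x => by
    rw [Equiv.symm_apply_eq, Equiv.ofBijective_apply, g.2.1, smul_inv_smul,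
      Equiv.ofBijective_apply_symm_apply _ g.2.bij],
  fun v x => by
    obtain ⟨v, rfl⟩ := g.2.bij.2 v
    obtain ⟨x, rfl⟩ := MulAction.surjective (g.1.2 v) x
    have := D.conj (g.1.2 v) (inv_mem (g.2.2.1 v x))
    simp only [← g.2.1, Equiv.ofBijective_symm_apply_apply]
    simpa only [mul_inv_rev, inv_inv, mul_assoc, mul_inv_cancel, mul_one] using this,
  fun v => by
    obtain ⟨v, rfl⟩ := g.2.bij.2 v
    simp only [Equiv.ofBijective_symm_apply_apply]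
    exact (g.2.2.2 v).symm⟩⟩

noncomputable instance : Group D.G := Group.ofLeftAxioms
  (fun _ _ _ => G.ext (Prod.ext rfl (funext fun _ => mul_assoc _ _ _)))
  (fun _ => G.ext (Prod.ext rfl (funext fun _ => one_mul _)))
  (fun g => G.ext (Prod.ext (funext fun v => Equiv.ofBijective_symm_apply_apply _ g.2.bij v)
    (funext fun v => by
      change (g.1.2 ((Equiv.ofBijective _ g.2.bij).symm (g.1.1 v)))⁻¹ * g.1.2 v = 1
      rw [Equiv.ofBijective_symm_apply_apply, inv_mul_cancel])))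

instance : MulAction D.G (W X) where
  smul g v := g.1.1 v
  one_smul _ := rfl
  mul_smul _ _ _ := rfl

/-- The local action. -/
def σ (g : D.G) (v : W X) : H := g.1.2 v

theorem smul_s (g : D.G) (v : W X) (x : X) : g • v.s x = (g • v).s (σ g v • x) := g.2.1 v x
theorem σ_s (g : D.G) (v : W X) (x : X) : (σ g v)⁻¹ * σ g (v.s x) ∈ D.L x := g.2.2.1 v x
theorem par_smul (g : D.G) (v : W X) : (g • v).par ↔ v.par := g.2.2.2 v
@[simp] theorem σ_one (v : W X) : σ (1 : D.G) v = 1 := rfl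
theorem σ_mul (g k : D.G) (v : W X) : σ (g * k) v = σ g (k • v) * σ k v := rfl
theorem σ_inv (g : D.G) (v : W X) : σ g⁻¹ (g • v) = (σ g v)⁻¹ :=
  eq_inv_of_mul_eq_one_left (by rw [← σ_mul, inv_mul_cancel, σ_one])
theorem d_smul (g : D.G) (v w : W X) : d (g • v) (g • w) = d v w := g.2.d_eq v w

theorem σ_s_smul (g : D.G) (v : W X) (x : X) : σ g (v.s x) • x = σ g v • x := by
  have := D.fix (σ_s g v x)
  rwa [mul_smul, inv_smul_eq_iff] at this

theorem smul_mem_h (g : D.G) {v w : W X} {x : X} :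
    g • w ∈ (g • v).h (σ g v • x) ↔ w ∈ v.h x := by
  rw [mem_h, mem_h, ← smul_s, d_smul, d_smul]

theorem ext [FaithfulSMul H X] {g k : D.G} (h : ∀ v : W X, g • v = k • v) : g = k :=
  G.ext (Prod.ext (funext h) (funext fun v => eq_of_smul_eq_smul fun x : X =>
    s_inj (v := g • v) (((smul_s g v x).symm.trans (h _)).trans (by rw [smul_s, h]; rfl))))

theorem exists_aut (τ : W X → H) (hτ : ∀ v x, (τ v)⁻¹ * τ (v.s x) ∈ D.L x) {a b : W X}
    (hp : b.par ↔ a.par) : ∃ g : D.G, g • a = b ∧ ∀ v, σ g v = τ v := by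
  obtain ⟨f, h0, hf⟩ := exists_label (fun v u x u' => u' = W.s u (τ v • x))
    (fun v u x u' e => by
      have := D.fix (hτ v x)
      rw [mul_smul, inv_smul_eq_iff] at this
      rw [this, e, s_s]) (fun _ _ _ => ⟨_, rfl⟩) a b
  refine ⟨⟨(f, τ), hf, hτ, fun v => ?_⟩, h0, fun _ => rfl⟩
  induction v using ind a with
  | h0 => exact (congrArg W.par h0).to_iff.trans hp
  | hs v x ih =>
    change (f (v.s x)).par ↔ _
    rw [hf, par_s, par_s]
    exact ih.not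

theorem exists_const (h : H) {a b : W X} (hp : b.par ↔ a.par) :
    ∃ g : D.G, g • a = b ∧ ∀ v, σ g v = h :=
  exists_aut (fun _ => h) (fun _ _ => by simp) hp

/-- `g` fixes `v` and all its neighbours. -/
def Triv (g : D.G) (v : W X) : Prop := g • v = v ∧ σ g v = 1

theorem Triv.one (v : W X) : Triv (1 : D.G) v := ⟨rfl, rfl⟩

theorem Triv.mul {g k : D.G} {v : W X} (h : Triv g v) (h' : Triv k v) : Triv (g * k) v :=
  ⟨by rw [mul_smul, h'.1, h.1], by rw [σ_mul, h'.1, h.2, h'.2, one_mul]⟩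

theorem Triv.inv {g : D.G} {v : W X} (h : Triv g v) : Triv g⁻¹ v :=
  ⟨by rw [inv_smul_eq_iff, h.1], by have := σ_inv g v; rwa [h.1, h.2, inv_one] at this⟩

theorem Triv.conj {g t : D.G} {v : W X} (h : Triv g (t⁻¹ • v)) : Triv (t * g * t⁻¹) v :=
  ⟨by rw [mul_smul, mul_smul, h.1, smul_inv_smul], by
    rw [σ_mul, σ_mul, h.1, h.2, mul_one, ← σ_mul, mul_inv_cancel, σ_one]⟩

variable (D) in
/-- The rigid stabilizer of a half-tree. -/
def rist (v : W X) (x : X) : Subgroup D.G where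
  carrier := {g | ∀ w ∉ v.h x, Triv g w}
  one_mem' := fun w _ => Triv.one w
  mul_mem' := fun h h' w hw => (h w hw).mul (h' w hw)
  inv_mem' := fun h w hw => (h w hw).inv

theorem exists_rist (v : W X) {x : X} {l : H} (hl : l ∈ D.L x) :
    ∃ g ∈ D.rist (v.s x) x, g • v = v ∧ σ g v = l := by
  classical
  obtain ⟨g, h1, h2⟩ := exists_aut (D := D) (fun w => if w ∈ v.h x then 1 else l)
    (fun w y => by
      by_cases h : w ∈ v.h x <;> by_cases h' : w.s y ∈ v.h x <;> simp only [h, h', reduceIte]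
      · simp
      · simpa [(exit h h').2] using hl
      · simpa [(exit h' (y := y) (by simpa using h)).2] using hl
      · simp) (a := v) Iff.rfl
  have h3 : σ g v = l := by simp [h2]
  refine ⟨g, fun w hw => ?_, h1, h3⟩
  rw [mem_h_s, not_not] at hw
  refine ⟨h_ind (p := fun w => g • w = w) ?_ (fun u y hu _ e => ?_) hw, by simp [h2, hw]⟩
  · rw [smul_s, h1, h3, D.fix hl]
  · rw [smul_s, e, h2]; simp [hu]

theorem glue (Γ : W X → D.G)
    (h : ∀ v x, Γ v = Γ (v.s x) ∨ (Triv (Γ v) (v.s x) ∧ Triv (Γ (v.s x)) v)) :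
    ∃ k : D.G, ∀ v, k • v = Γ v • v ∧ σ k v = σ (Γ v) v := by
  refine ⟨⟨(fun v => Γ v • v, fun v => σ (Γ v) v), fun v x => ?_, fun v x => ?_,
    fun v => par_smul _ v⟩, fun _ => ⟨rfl, rfl⟩⟩
  · change Γ (v.s x) • v.s x = (Γ v • v).s (σ (Γ v) v • x)
    rcases h v x with e | ⟨h1, h2⟩
    · exact e ▸ smul_s _ v x
    · rw [← smul_s, h1.1, smul_s, h2.1, h2.2, one_smul]
  · change (σ (Γ v) v)⁻¹ * σ (Γ (v.s x)) (v.s x) ∈ _
    rcases h v x with e | ⟨h1, h2⟩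
    · exact e ▸ σ_s _ v x
    · have h3 := σ_s (Γ v) v x
      have h4 := σ_s (Γ (v.s x)) v x
      rw [h1.2, mul_one] at h3
      rw [h2.2, inv_one, one_mul] at h4
      exact mul_mem h3 h4

theorem cut {g : D.G} {a : W X} (h : Triv g a) (z : X) :
    ∃ k ∈ D.rist a z, k⁻¹ * g ∈ D.rist (a.s z) z := by
  classical
  obtain ⟨k, hk⟩ := glue (fun w => if w ∈ a.h z then g else 1) (fun w y => by
    by_cases h1 : w ∈ a.h z <;> by_cases h2 : w.s y ∈ a.h z <;> simp only [h1, h2, reduceIte]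
    · simp
    · obtain ⟨rfl, rfl⟩ := exit h1 h2
      exact Or.inr ⟨by rwa [s_s], Triv.one _⟩
    · obtain ⟨e, rfl⟩ := exit h2 (y := y) (by simpa using h1)
      obtain rfl : w = a := by simpa using congrArg (W.s · y) e
      exact Or.inr ⟨Triv.one _, h⟩
    · simp)
  refine ⟨k, fun w hw => by simpa [hw, Triv] using hk w, fun w hw => ?_⟩
  rw [mem_h_s, not_not] at hw
  have := hk w
  simp only [hw, reduceIte] at this
  exact ⟨by rw [mul_smul, ← this.1, inv_smul_smul], by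
    rw [σ_mul, ← this.1, σ_inv, this.2, inv_mul_cancel]⟩

theorem exists_loc {M : Subgroup D.G} {v : W X} {S : Set X}
    (hS : ∀ z ∈ S, D.rist (v.s z) z ≤ M) {r : H} (hr : r ∈ ⨆ z ∈ S, D.L z) :
    ∃ m ∈ M, m • v = v ∧ σ m v = r := by
  rw [iSup_subtype'] at hr
  induction hr using Subgroup.iSup_induction' with
  | hp z l hl =>
    obtain ⟨g, h1, h2⟩ := exists_rist v hl
    exact ⟨g, hS z.1 z.2 h1, h2⟩
  | h1 => exact ⟨1, one_mem _, rfl, rfl⟩
  | hmul r r' _ _ ih ih' =>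
    obtain ⟨m, h1, h2, h3⟩ := ih
    obtain ⟨m', h1', h2', h3'⟩ := ih'
    exact ⟨m * m', mul_mem h1 h1', by rw [mul_smul, h2', h2], by rw [σ_mul, h2', h3, h3']⟩

theorem mem_of_loc {M : Subgroup D.G} {v : W X} {S : Set X}
    (hS : ∀ z ∈ S, D.rist (v.s z) z ≤ M) {z : X} (hz : z ∈ S) (hz' : D.rist v z ≤ M)
    {g : D.G} (hg : g • v = v) (hr : σ g v ∈ ⨆ z ∈ S, D.L z) : g ∈ M := by
  obtain ⟨m, h1, h2, h3⟩ := exists_loc hS hr
  obtain ⟨k, hk, hk'⟩ := cut (g := m⁻¹ * g) (a := v) ⟨by rw [mul_smul, hg, inv_smul_eq_iff, h2],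
    by rw [σ_mul, hg, ← h3, ← mul_eq_one_iff_eq_inv.2 (σ_inv m v), h2]⟩ z
  simpa using mul_mem h1 (mul_mem (hz' hk) (hS z hz hk'))

theorem tele [FaithfulSMul H X] {Y : Set (W X)} {t g : D.G} (hg : ∀ w ∉ Y, Triv g w)
    (ht : ∀ i, ∀ u ∈ Y, t ^ (i + 1) • u ∉ Y) : ∃ k : D.G, k = g * (t * k * t⁻¹) ∧
      ∀ w, (∀ i, ∀ u ∈ Y, t ^ i • u ≠ w) → Triv k w := by
  classical
  have uniq : ∀ {u : W X} {i j : ℕ}, (t ^ i)⁻¹ • u ∈ Y → (t ^ j)⁻¹ • u ∈ Y → i = j := by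
    intro u i j hi hj
    by_contra hne
    wlog hij : i < j generalizing i j
    · exact this hj hi (Ne.symm hne) (by omega)
    obtain ⟨m, rfl⟩ := Nat.exists_eq_add_of_lt hij
    refine ht m _ hj ?_
    rwa [add_assoc, pow_add t i, mul_inv_rev, mul_smul, smul_inv_smul]
  let Γ : W X → D.G := fun u =>
    if h : ∃ i : ℕ, (t ^ i)⁻¹ • u ∈ Y then t ^ h.choose * g * (t ^ h.choose)⁻¹ else 1
  have h1 : ∀ {u : W X} {i : ℕ}, (t ^ i)⁻¹ • u ∈ Y → Γ u = t ^ i * g * (t ^ i)⁻¹ :=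
    fun {u i} hi => by
      have h : ∃ i : ℕ, (t ^ i)⁻¹ • u ∈ Y := ⟨i, hi⟩
      simp only [Γ, dif_pos h, uniq h.choose_spec hi]
  have h2 : ∀ u w, Γ u = Γ w ∨ Triv (Γ u) w := fun u w => by
    by_cases h : ∃ i : ℕ, (t ^ i)⁻¹ • u ∈ Y
    · obtain ⟨i, hi⟩ := h
      by_cases h' : (t ^ i)⁻¹ • w ∈ Y
      · exact Or.inl ((h1 hi).trans (h1 h').symm)
      · exact Or.inr (h1 hi ▸ (hg _ h').conj)
    · exact Or.inr (by simp only [Γ, dif_neg h]; exact Triv.one w)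
  obtain ⟨k, hk⟩ := glue Γ fun v x => by
    rcases h2 v (v.s x) with e | e
    · exact Or.inl e
    · exact (h2 (v.s x) v).imp Eq.symm fun e' => ⟨e, e'⟩
  have h3 : ∀ w, (¬ ∃ i : ℕ, (t ^ i)⁻¹ • w ∈ Y) → Triv k w := fun w h => by
    simpa only [Γ, dif_neg h, Triv, one_smul, σ_one] using hk w
  refine ⟨k, ext fun u => ?_, fun w hw => h3 w fun ⟨i, hi⟩ => hw i _ hi (smul_inv_smul _ _)⟩
  have h4 : ∀ i : ℕ, (t ^ i)⁻¹ • t⁻¹ • u = (t ^ (i + 1))⁻¹ • u := fun i => by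
    rw [pow_succ', mul_inv_rev, mul_smul]
  simp only [mul_smul]
  by_cases h : ∃ i : ℕ, (t ^ i)⁻¹ • t⁻¹ • u ∈ Y
  · obtain ⟨i, hi⟩ := h
    have hy : g • (t ^ i)⁻¹ • t⁻¹ • u ∈ Y := by
      by_contra hh
      exact hh (by rw [MulAction.injective g (hg _ hh).1]; exact hi)
    have e : t • k • t⁻¹ • u = t ^ (i + 1) • g • (t ^ i)⁻¹ • t⁻¹ • u := by
      rw [(hk _).1, h1 hi, pow_succ']; simp only [mul_smul]
    rw [e, (hg _ (ht i _ hy)).1, (hk _).1, h1 (h4 i ▸ hi), h4]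
    simp only [mul_smul]
  · rw [(h3 _ h).1, smul_inv_smul]
    by_cases h0 : u ∈ Y
    · rw [(hk _).1, h1 (i := 0) (by simpa using h0)]; simp
    · rw [(hg _ h0).1, (h3 u ?_).1]
      rintro ⟨_ | i, hi⟩
      · exact h0 (by simpa using hi)
      · exact h ⟨i, h4 i ▸ hi⟩

theorem tits [FaithfulSMul H X] (E : W X → X → Prop) {P N : Subgroup D.G}
    (rev : ∀ v x, E v x → E (v.s x) x)
    (three : ∀ v x, E v x → ∀ y y', ∃ z, E v z ∧ z ≠ y ∧ z ≠ y')
    (mv : ∀ v x w y, E v x → E w y → ∃ p ∈ P, ∀ u ∈ v.h x, p • u ∈ w.h y)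
    (tr : ∀ v x, E v x → ∀ g, Triv g v → g ∈ P)
    (hN : ∀ p ∈ P, ∀ n ∈ N, p * n * p⁻¹ ∈ N) {n : D.G} (hn : n ∈ N) {a : W X} {x₀ : X}
    (ha : E a x₀) (hna : n • a ≠ a) {w : W X} {x : X} (hw : E w x) : D.rist w x ≤ N := by
  obtain ⟨y, hy⟩ := exists_h hna
  obtain ⟨y', hy'⟩ := exists_h (v := a) (w := n⁻¹ • a) fun e => hna (inv_smul_eq_iff.1 e).symm
  obtain ⟨z, hz, hzy, hzy'⟩ := three a x₀ ha y y'
  have hA : ∀ u ∈ a.h z, n • u ∉ a.h z := fun u hu hh => by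
    refine hzy (h_unique hh (nest hy (fun h1 => ?_) ((smul_mem_h n).2 hu)))
    refine hzy' (h_unique ((smul_mem_h n).1 ?_) hy')
    rwa [smul_inv_smul]
  have flip : ∀ y, E w y → ∃ n ∈ N, ∀ u ∉ w.h y, n • u ∈ w.h y := fun y hy => by
    obtain ⟨p, hp, h⟩ := mv _ _ _ _ (rev a z hz) hy
    refine ⟨_, hN p hp n hn, fun u hu => ?_⟩
    rw [mul_smul, mul_smul]
    refine h _ (mem_h_s.2 (hA _ ?_))
    by_contra hh
    exact hu (by simpa using h _ (mem_h_s.2 hh))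
  obtain ⟨z₁, hz₁, h1, -⟩ := three w x hw x x
  obtain ⟨z₂, hz₂, h2, h3⟩ := three w x hw x z₁
  obtain ⟨n₁, hn₁, k1⟩ := flip z₁ hz₁
  obtain ⟨n₂, hn₂, k2⟩ := flip z₂ hz₂
  have hs : ∀ u ∉ w.h z₁, (n₂ * n₁) • u ∈ w.h z₂ := fun u hu => by
    rw [mul_smul]
    exact k2 _ fun hh => h3 (h_unique hh (k1 u hu))
  have hi : ∀ i, ∀ u ∈ w.h x, (n₂ * n₁) ^ (i + 1) • u ∈ w.h z₂ := fun i u hu => by
    induction i with
    | zero => simpa using hs u fun hh => h1 (h_unique hh hu)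
    | succ i ih => rw [pow_succ', mul_smul]; exact hs _ fun hh => h3 (h_unique ih hh)
  intro g hg
  obtain ⟨k, e, hk⟩ := tele hg (t := n₂ * n₁) fun i u hu hh => h2 (h_unique (hi i u hu) hh)
  have hkP : k ∈ P := tr w x hw k (hk w fun i u hu e => by
    rcases i with _ | i
    · exact self_not_mem w x (by simpa only [pow_zero, one_smul] using e ▸ hu)
    · exact self_not_mem w z₂ (by simpa only [e] using hi i u hu))
  have : g = k * (n₂ * n₁) * k⁻¹ * (n₂ * n₁)⁻¹ := by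
    rw [← mul_inv_eq_iff_eq_mul] at e
    rw [← e]; group
  rw [this]
  exact mul_mem (hN k hkP _ (mul_mem hn₂ hn₁)) (inv_mem (mul_mem hn₂ hn₁))

end Loc

end Pool.Agent.Lib.MP_e7db20_al
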