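import Pool.Agent.Lib.MP_e7db20_al.EndsDefs

/-! Existence of Cayley–Abels graphs, and a criterion for one-endedness. -/

namespace Pool.Agent.Lib.MP_e7db20_al

open MulAction Topology Pointwise

variable {G : Type} [Group G] [TopologicalSpace G] [IsTopologicalGroup G]

theorem finite_orbit {V : Type} [MulAction G V] {v : V}
    (hv : IsOpen (stabilizer G v : Set G)) {C : Set G} (hC : IsCompact C) :
    ((fun g : G => g • v) '' C).Finite := by
  let _ : TopologicalSpace V := ⊥
  have : DiscreteTopology V := ⟨rfl⟩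
  refine (hC.image (continuous_discrete_rng.2 fun w => isOpen_iff_mem_nhds.2 fun g hg => ?_)).finite_of_discrete
  have h1 : IsOpen ((fun k => g⁻¹ * k) ⁻¹' (stabilizer G v : Set G)) :=
    hv.preimage (by fun_prop)
  refine Filter.mem_of_superset (h1.mem_nhds (by simp)) fun k hk => ?_
  have h2 : (g⁻¹ * k) • v = v := hk
  rw [mul_smul, inv_smul_eq_iff] at h2
  exact h2.trans hg

theorem isCompact_trans {V : Type} [MulAction G V] {v : V}
    (hv : IsCompact (stabilizer G v : Set G)) (w : V) : IsCompact {g : G | g • v = w} := by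
  by_cases h : ∃ a : G, a • v = w
  · obtain ⟨a, rfl⟩ := h
    have : {g : G | g • v = a • v} = (fun k => a * k) '' (stabilizer G v : Set G) := by
      ext g
      constructor
      · intro hg
        refine ⟨a⁻¹ * g, ?_, by simp⟩
        change (a⁻¹ * g) • v = v
        rw [mul_smul, inv_smul_eq_iff]
        exact hg
      · rintro ⟨k, hk, rfl⟩
        have hk' : k • v = v := hk
        change (a * k) • v = a • v
        rw [mul_smul, hk']
    exact this ▸ hv.image (by fun_prop)
  · have : {g : G | g • v = w} = ∅ := Set.eq_empty_of_forall_notMem fun g hg => h ⟨g, hg⟩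
    exact this ▸ isCompact_empty

theorem exists_cayleyAbels (hG : CompGen G) (U : Subgroup G) (hc : IsCompact (U : Set G))
    (ho : IsOpen (U : Set G)) :
    ∃ (V : Type) (_ : MulAction G V) (X : SimpleGraph V), CayleyAbels G X := by
  obtain ⟨T, hT, hcl⟩ := hG
  have hst : ∀ a : G, (stabilizer G (a : G ⧸ U) : Set G) = (fun g => a⁻¹ * g * a) ⁻¹' U := by
    intro a
    ext g
    change (((g * a : G) : G ⧸ U) = a) ↔ a⁻¹ * g * a ∈ U
    rw [eq_comm, QuotientGroup.eq, mul_assoc]
  have hs : ∀ v : G ⧸ U, IsCompact (stabilizer G v : Set G) ∧ IsOpen (stabilizer G v : Set G) := by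
    intro v
    obtain ⟨a, rfl⟩ := QuotientGroup.mk_surjective v
    rw [hst]
    exact ⟨((Homeomorph.mulLeft a⁻¹).trans (Homeomorph.mulRight a)).isCompact_preimage.2 hc,
      ho.preimage (by fun_prop)⟩
  let r : G ⧸ U → G ⧸ U → Prop := fun x y => ∃ a : G, ∃ t ∈ T, x = a ∧ y = (a * t : G)
  have hr : ∀ a : G, ∀ t ∈ T, (SimpleGraph.fromRel r).Reachable (a : G ⧸ U) (a * t : G) := by
    intro a t ht
    by_cases e : (a : G ⧸ U) = (a * t : G)
    · exact e ▸ SimpleGraph.Reachable.refl _
    · exact SimpleGraph.Adj.reachable ⟨e, Or.inl ⟨a, t, ht, rfl, rfl⟩⟩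
  refine ⟨G ⧸ U, inferInstance, SimpleGraph.fromRel r, ⟨fun x y => ?_⟩, fun x => ?_,
    fun g x y h => ?_, inferInstance, hs⟩
  · obtain ⟨a, rfl⟩ := QuotientGroup.mk_surjective x
    obtain ⟨b, rfl⟩ := QuotientGroup.mk_surjective y
    have key : ∀ g ∈ Subgroup.closure T, ∀ a : G,
        (SimpleGraph.fromRel r).Reachable (a : G ⧸ U) (a * g : G) := by
      intro g hg
      induction hg using Subgroup.closure_induction with
      | mem t ht => exact fun a => hr a t ht
      | one => exact fun a => by rw [mul_one]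
      | mul g k _ _ h1 h2 => exact fun a => mul_assoc a g k ▸ (h1 a).trans (h2 (a * g))
      | inv g _ h => exact fun a => by simpa using (h (a * g⁻¹)).symm
    simpa using key (a⁻¹ * b) (hcl ▸ Subgroup.mem_top _) a
  · obtain ⟨a, rfl⟩ := QuotientGroup.mk_surjective x
    have h1 : IsCompact ({a} * (U : Set G) * (T ∪ T⁻¹)) :=
      (isCompact_singleton.mul hc).mul (hT.union hT.inv)
    refine (finite_orbit (hs ((1 : G) : G ⧸ U)).2 h1).subset ?_
    rintro y ⟨-, ⟨b, t, ht, e, rfl⟩ | ⟨b, t, ht, rfl, e⟩⟩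
    · refine ⟨b * t, ⟨b, ⟨a, rfl, a⁻¹ * b, QuotientGroup.eq.1 e, by simp⟩, t, Or.inl ht, rfl⟩, ?_⟩
      simp
    · refine ⟨b, ⟨b * t, ⟨a, rfl, a⁻¹ * (b * t), QuotientGroup.eq.1 e, by simp⟩, t⁻¹,
        Or.inr (by simpa using ht), by simp⟩, ?_⟩
      simp
  · refine ⟨fun e => h.1 (MulAction.injective g e), h.2.imp ?_ ?_⟩ <;>
    · rintro ⟨a, t, ht, rfl, rfl⟩
      exact ⟨g * a, t, ht, rfl, by rw [mul_assoc]; rfl⟩

/-- Two vertices lie in the same component of the complement of `K`. -/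
def Cn {V : Type} (X : SimpleGraph V) (K : Set V) (v w : V) : Prop :=
  ∃ (hv : v ∉ K) (hw : w ∉ K), X.componentComplMk hv = X.componentComplMk hw

theorem Cn.symm {V : Type} {X : SimpleGraph V} {K : Set V} {v w : V} (h : Cn X K v w) :
    Cn X K w v := let ⟨a, b, e⟩ := h; ⟨b, a, e.symm⟩

theorem Cn.trans {V : Type} {X : SimpleGraph V} {K : Set V} {u v w : V} (h : Cn X K u v)
    (h' : Cn X K v w) : Cn X K u w :=
  let ⟨a, _, e⟩ := h; let ⟨_, b, e'⟩ := h'; ⟨a, b, e.trans e'⟩

theorem existsUnique_end {V : Type} {X : SimpleGraph V} (hc : X.Connected)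
    (hl : ∀ v, (X.neighborSet v).Finite) [Infinite V]
    (h : ∀ K : Finset V, ∃ F : Set V, F.Finite ∧ ∃ w, ∀ v ∉ F, Cn X K v w) :
    ∃! e, e ∈ X.end := by
  have : X.LocallyFinite := fun v => (hl v).fintype
  have : Fact X.Preconnected := ⟨hc.1⟩
  obtain ⟨e, he⟩ := X.nonempty_ends_of_infinite
  refine ⟨e, he, fun e' he' => funext fun K => ?_⟩
  obtain ⟨F, hF, w, hw⟩ := h K.unop
  obtain ⟨v, ⟨h1, e1⟩, h2⟩ := (X.end_componentCompl_infinite ⟨e, he⟩ K).exists_notMem_finite hF
  obtain ⟨v', ⟨h1', e1'⟩, h2'⟩ :=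
    (X.end_componentCompl_infinite ⟨e', he'⟩ K).exists_notMem_finite hF
  obtain ⟨_, _, e2⟩ := (hw v' h2').trans (hw v h2).symm
  exact e1'.symm.trans (e2.trans e1)

theorem CayleyAbels.infinite {V : Type} [MulAction G V] {X : SimpleGraph V}
    (h : CayleyAbels G X) (hG : ¬ IsCompact (Set.univ : Set G)) : Infinite V := by
  by_contra hf
  rw [not_infinite_iff_finite] at hf
  obtain ⟨v⟩ := h.1.nonempty
  refine hG ?_
  have : (Set.univ : Set G) = ⋃ w : V, {g : G | g • v = w} := by
    ext g; simp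
  exact this ▸ isCompact_iUnion fun w => isCompact_trans (h.2.2.2.2 v).1 w

/-- Off a compact set of group elements, bounded steps do not leave the component. -/
theorem CayleyAbels.exists_compact {V : Type} [MulAction G V] {X : SimpleGraph V}
    (h : CayleyAbels G X) (v : V) {T : Set G} (hT : IsCompact T) (K : Finset V) :
    ∃ C : Set G, IsCompact C ∧ ∀ g ∉ C, ∀ t ∈ T, Cn X K (g • v) ((g * t) • v) := by
  classical
  have hF := finite_orbit (h.2.2.2.2 v).2 hT
  let p : ∀ w, X.Walk v w := fun w => (h.1.preconnected v w).some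
  refine ⟨⋃ w ∈ (fun g : G => g • v) '' T, ⋃ b ∈ (p w).support.toFinset, ⋃ k ∈ K,
    {g : G | g • b = k}, hF.isCompact_biUnion fun w _ => Finset.isCompact_biUnion _ fun b _ =>
      Finset.isCompact_biUnion _ fun k _ => isCompact_trans (h.2.2.2.2 b).1 k, fun g hg t ht => ?_⟩
  have h1 : ∀ b ∈ (p (t • v)).support, g • b ∉ (K : Set V) := fun b hb hk => hg <|
    Set.mem_biUnion (x := t • v) ⟨t, ht, rfl⟩ (Set.mem_biUnion (x := b)
      (show b ∈ ((p (t • v)).support.toFinset : Set V) by simpa using hb)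
      (Set.mem_biUnion hk rfl))
  rw [mul_smul]
  generalize p (t • v) = q at h1
  generalize t • v = w at q h1
  clear hF hg p
  induction q with
  | nil => exact ⟨h1 _ (by simp), h1 _ (by simp), rfl⟩
  | @cons a b c hab q ih =>
    have ha := h1 a (by simp)
    have hb := h1 b (by simp)
    exact Cn.trans ⟨ha, hb, X.componentComplMk_eq_of_adj ha hb (h.2.2.1 g a b hab)⟩
      (ih fun x hx => h1 x (by simp [hx]))

end Pool.Agent.Lib.MP_e7db20_al
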