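import Pool.Agent.Lib.MP_e7db20_al.Ports
import Pool.Agent.Lib.MP_e7db20_al.Ends

/-!
A primitive group `B` with a regular subgroup `A` is spread over the right-angled building whose
chambers are the elements of a graph product of copies of `A`.
-/

namespace Pool.Agent.Lib.MP_e7db20_al

set_option linter.unusedSectionVars false

/-! Graph products of copies of a group, and the projections onto the panels. -/

section

open Monoid

/-- A reflexive symmetric relation: equality or adjacency in a graph. -/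
structure Cm (I : Type) where
  /-- the relation -/
  st : I → I → Prop
  rf : ∀ i, st i i
  sy : ∀ {i j}, st i j → st j i

variable {I : Type} (Γ : Cm I) (A : Type) [Group A]

/-- The commutation relators. -/
def Cm.rels : Set (CoprodI fun _ : I => A) := {x | ∃ i j a b, i ≠ j ∧ Γ.st i j ∧
  x = CoprodI.of (i := i) a * CoprodI.of (i := j) b * (CoprodI.of (i := i) a)⁻¹ *
    (CoprodI.of (i := j) b)⁻¹}

/-- The graph product. -/
def GP : Type := (CoprodI fun _ : I => A) ⧸ Subgroup.normalClosure (Γ.rels A)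

namespace GP

noncomputable instance : Group (GP Γ A) := QuotientGroup.Quotient.group _

variable {A}

/-- The factors. -/
noncomputable def ι (i : I) : A →* GP Γ A := 
  (QuotientGroup.mk' _).comp (CoprodI.of (M := fun _ : I => A) (i := i))

variable {Γ}

theorem comm {i j : I} (h : i ≠ j) (h' : Γ.st i j) (a b : A) :
    ι Γ i a * ι Γ j b = ι Γ j b * ι Γ i a := by
  rw [← mul_inv_eq_one, mul_inv_rev, ← mul_assoc]
  exact (QuotientGroup.eq_one_iff _).2 (Subgroup.subset_normalClosure ⟨i, j, a, b, h, h', rfl⟩)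

theorem indl {p : GP Γ A → Prop} (h1 : p 1) (hs : ∀ w i a, p w → p (ι Γ i a * w)) (w) : p w := by
  obtain ⟨w, rfl⟩ := QuotientGroup.mk_surjective w
  induction w using CoprodI.induction_left with
  | one => exact h1
  | mul a x ih => exact hs _ _ a ih

theorem ind {p : GP Γ A → Prop} (h1 : p 1) (hs : ∀ w i a, p w → p (w * ι Γ i a)) (w) : p w := by
  have := indl (p := fun w => p w⁻¹) (by simpa) (fun w i a h => by
    simpa using hs _ i a⁻¹ h) w⁻¹
  simpa using this

theorem exists_lift {M : Type} [Group M] (f : I → A →* M)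
    (hf : ∀ i j, i ≠ j → Γ.st i j → ∀ a b, f i a * f j b = f j b * f i a) :
    ∃ F : GP Γ A →* M, ∀ i a, F (ι Γ i a) = f i a :=
  ⟨QuotientGroup.lift _ (CoprodI.lift f) (Subgroup.normalClosure_le_normal (N := MonoidHom.ker _) (by
    rintro _ ⟨i, j, a, b, h, h', rfl⟩
    simp [hf i j h h' a b])), fun i a => CoprodI.lift_of f a⟩

instance [Countable I] [Countable A] : Countable (GP Γ A) := by
  refine Function.Surjective.countable (f := fun l : List (I × A) =>
    (l.map fun p => ι Γ p.1 p.2).prod) fun w => ?_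
  induction w using indl with
  | h1 => exact ⟨[], rfl⟩
  | hs w i a ih =>
    obtain ⟨l, rfl⟩ := ih
    exact ⟨(i, a) :: l, by simp⟩

variable (Γ A) in
/-- The subgroup generated by the factors in the star of `i`. -/
noncomputable def St (i : I) : Subgroup (GP Γ A) := Subgroup.closure {w | ∃ j a, Γ.st i j ∧ ι Γ j a = w}

theorem ι_mem {i j : I} (h : Γ.st i j) (a : A) : ι Γ j a ∈ St Γ A i :=
  Subgroup.subset_closure ⟨j, a, h, rfl⟩

theorem St_ind {i : I} {p : GP Γ A → Prop} (h1 : p 1)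
    (hs : ∀ w j a, w ∈ St Γ A i → Γ.st i j → p w → p (w * ι Γ j a)) {w} (hw : w ∈ St Γ A i) :
    p w := by
  induction hw using Subgroup.closure_induction_right with
  | one => exact h1
  | mul_right x hx y hy ih =>
    obtain ⟨j, a, h, rfl⟩ := hy
    exact hs x j a hx h ih
  | mul_inv_cancel x hx y hy ih =>
    obtain ⟨j, a, h, rfl⟩ := hy
    exact map_inv (ι Γ j) a ▸ hs x j _ hx h ih

open Classical in
theorem exists_p (i : I) : ∃ p : GP Γ A → A, p 1 = 1 ∧ ∀ w j a,
    p (w * ι Γ j a) = if j = i ∧ w ∈ St Γ A i then p w * a else p w := by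
  let f : I → A → GP Γ A × A → GP Γ A × A := fun j a u =>
    (ι Γ j a * u.1, if j = i ∧ u.1 ∈ St Γ A i then a * u.2 else u.2)
  have h0 : ∀ j a u, Γ.st i j → (ι Γ j a * u ∈ St Γ A i ↔ u ∈ St Γ A i) := fun j a u h =>
    mul_mem_cancel_left (ι_mem h a)
  have h1 : ∀ j a b u, f j (a * b) u = f j a (f j b u) := fun j a b u => by
    by_cases h : j = i
    · subst h
      simp only [f, h0 _ _ _ (Γ.rf j), map_mul, mul_assoc]
      split_ifs <;> rfl
    · simp [f, h, mul_assoc]
  have h2 : ∀ j u, f j 1 u = u := fun j u => by simp [f]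
  obtain ⟨F, hF⟩ := exists_lift (Γ := Γ) (fun j => MonoidHom.mk' (fun a =>
    (⟨f j a, f j a⁻¹, fun u => by rw [← h1, inv_mul_cancel, h2],
      fun u => by rw [← h1, mul_inv_cancel, h2]⟩ : Equiv.Perm _))
    fun a b => Equiv.ext (h1 j a b)) (fun j k hjk h a b => Equiv.ext fun u => by
      change f j a (f k b u) = f k b (f j a u)
      refine Prod.ext (by simp only [f, ← mul_assoc, comm hjk h]) ?_
      by_cases hj : j = i
      · subst hj
        simp [f, hjk.symm, h0 _ _ _ h]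
      by_cases hk : k = i
      · subst hk
        simp [f, hjk, h0 _ _ _ (Γ.sy h)]
      · simp [f, hj, hk])
  have h3 : ∀ w, (F w (1, 1)).1 = w := fun w => by
    induction w using indl with
    | h1 => simp
    | hs w j a ih => rw [map_mul, hF]; exact congrArg (ι Γ j a * ·) ih
  refine ⟨fun w => (F w⁻¹ (1, 1)).2⁻¹, by simp, fun w j a => ?_⟩
  simp only [mul_inv_rev, ← map_inv, map_mul, hF]
  change (f j a⁻¹ _).2⁻¹ = _
  simp only [f, h3, inv_mem_iff]
  split_ifs <;> simp

/-- The projection onto the panel of type `i` through the identity. -/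
noncomputable def p (i : I) : GP Γ A → A := (exists_p i).choose

@[simp] theorem p_one (i : I) : p i (1 : GP Γ A) = 1 := (exists_p i).choose_spec.1

theorem p_pos {i : I} {w : GP Γ A} (h : w ∈ St Γ A i) (a : A) : p i (w * ι Γ i a) = p i w * a :=
  ((exists_p i).choose_spec.2 w i a).trans (if_pos ⟨rfl, h⟩)

theorem p_neg {i j : I} {w : GP Γ A} (h : ¬ (j = i ∧ w ∈ St Γ A i)) (a : A) :
    p i (w * ι Γ j a) = p i w :=
  ((exists_p i).choose_spec.2 w j a).trans (if_neg h)

@[simp] theorem p_ι (i : I) (a : A) : p i (ι Γ i a) = a := by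
  simpa using p_pos (Γ := Γ) (one_mem _) a

theorem p_ι_ne {i j : I} (h : j ≠ i) (a : A) : p i (ι Γ j a) = 1 := by
  simpa using p_neg (Γ := Γ) (w := 1) (fun h' => h h'.1) a

theorem ι_inj {i : I} {a b : A} (h : ι Γ i a = ι Γ i b) : a = b := by
  simpa using congrArg (p i) h

theorem ι_eq {i j : I} {a b : A} (ha : a ≠ 1) (h : ι Γ i a = ι Γ j b) : i = j := by
  by_contra e
  exact ha (by simpa [p_ι_ne (Ne.symm e)] using congrArg (p i) h)

theorem p_mul {i : I} {s : GP Γ A} (hs : s ∈ St Γ A i) (w) : p i (s * w) = p i s * p i w := by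
  induction w using ind with
  | h1 => simp
  | hs w j a ih =>
    rw [← mul_assoc]
    by_cases h : j = i ∧ w ∈ St Γ A i
    · obtain ⟨rfl, h⟩ := h
      rw [p_pos h, p_pos (mul_mem hs h), ih, mul_assoc]
    · rw [p_neg h, p_neg (by rwa [mul_mem_cancel_left hs]), ih]

@[simp] theorem p_ι_mul (i : I) (a : A) (w : GP Γ A) : p i (ι Γ i a * w) = a * p i w := by
  rw [p_mul (ι_mem (Γ.rf i) a), p_ι]

theorem conj_St {i : I} {u : GP Γ A} (hu : u ∈ St Γ A i) (y : A) :
    u * ι Γ i y = ι Γ i (p i u * y * (p i u)⁻¹) * u := by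
  revert y
  refine St_ind (p := fun u => ∀ y, u * ι Γ i y = ι Γ i (p i u * y * (p i u)⁻¹) * u) (by simp)
    (fun w j a hw h ih y => ?_) hu
  by_cases e : j = i
  · subst e
    rw [p_pos hw, mul_assoc, ← map_mul, ih, ih, ← mul_assoc _ _ w, ← map_mul]
    congr 2
    group
  · rw [p_neg (fun h => e h.1), mul_assoc, comm e (Γ.sy h), ← mul_assoc, ih, mul_assoc]

theorem p_St {i j : I} (h : ¬ Γ.st i j) {u : GP Γ A} (hu : u ∈ St Γ A i) : p j u = 1 :=
  St_ind (p := fun u => p j u = 1) (by simp)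
    (fun w k a _ hk ih => by rw [p_neg (i := j) (j := k) (fun e => h (e.1 ▸ hk)), ih]) hu

theorem nest {i j : I} (h : ¬ Γ.st i j) {w : GP Γ A} (hw : p i w ≠ 1) : p j w = 1 := by
  induction w using ind with
  | h1 => simp
  | hs w k a ih =>
    by_cases e : k = i ∧ w ∈ St Γ A i
    · exact p_St h (mul_mem e.2 (ι_mem (e.1 ▸ Γ.rf i) a))
    · rw [p_neg e] at hw
      rw [p_neg (fun e' => hw (p_St (fun h' => h (Γ.sy h')) e'.2)), ih hw]

theorem exists_p_ne {w : GP Γ A} (hw : w ≠ 1) : ∃ i, p i w ≠ 1 := by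
  classical
  let ev : List (I × A) → GP Γ A := fun l => (l.map fun p => ι Γ p.1 p.2).prod
  have key : ∀ (i : I) (l : List (I × A)) (u : GP Γ A),
      (∃ l' : List (I × A), l'.length < l.length ∧ ∃ x, u * ev l = ι Γ i x * (u * ev l')) ∨
        p i (u * ev l) = p i u := by
    intro i l
    induction l with
    | nil => exact fun u => Or.inr (by simp [ev])
    | cons s l ih =>
      intro u
      have e : u * ev (s :: l) = u * ι Γ s.1 s.2 * ev l := by simp [ev, mul_assoc]
      by_cases h : s.1 = i ∧ u ∈ St Γ A i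
      · exact Or.inl ⟨l, by simp, _, by rw [e, h.1, conj_St h.2, mul_assoc]⟩
      · rcases ih (u * ι Γ s.1 s.2) with ⟨l', h1, x, h2⟩ | h1
        · exact Or.inl ⟨s :: l', by simpa, x, by rw [e, h2]; simp [ev, mul_assoc]⟩
        · exact Or.inr (by rw [e, h1, p_neg h])
  have hex : ∃ n, ∃ l : List (I × A), l.length = n ∧ ev l = w := by
    clear hw
    induction w using indl with
    | h1 => exact ⟨_, [], rfl, rfl⟩
    | hs w i a ih =>
      obtain ⟨_, l, -, rfl⟩ := ih
      exact ⟨_, (i, a) :: l, rfl, by simp [ev]⟩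
  obtain ⟨_ | ⟨⟨i, a⟩, l⟩, h1, h2⟩ := Nat.find_spec hex
  · exact absurd h2.symm hw
  have h3 : w = ι Γ i a * ev l := by simp [← h2, ev]
  simp only [List.length_cons] at h1
  refine ⟨i, fun h => ?_⟩
  rcases key i l (ι Γ i a) with ⟨l', h4, x, h5⟩ | h4
  · exact Nat.find_min hex (m := l'.length + 1) (by omega)
      ⟨(i, x * a) :: l', rfl, by rw [h3, h5]; simp [ev, mul_assoc]⟩
  · rw [← h3, h, p_ι] at h4
    exact Nat.find_min hex (m := l.length) (by omega) ⟨l, rfl, by simp [h3, ← h4]⟩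

open Classical in
theorem exists_r (i : I) : ∃ r : GP Γ A →* A, (∀ a, r (ι Γ i a) = a) ∧
    ∀ j a, j ≠ i → r (ι Γ j a) = 1 := by
  obtain ⟨r, hr⟩ := exists_lift (Γ := Γ) (fun j => if j = i then MonoidHom.id A else 1)
    fun j k hjk _ a b => by
      by_cases h : j = i
      · simp [h, h ▸ hjk.symm]
      · simp [h]
  exact ⟨r, fun a => by simp [hr], fun j a h => by simp [hr, h]⟩

variable (Γ) in
/-- Automorphisms of the graph. -/
def Au : Subgroup (Equiv.Perm I) where
  carrier := {l | ∀ i j, Γ.st (l i) (l j) ↔ Γ.st i j}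
  one_mem' := fun _ _ => Iff.rfl
  mul_mem' := fun h h' _ _ => (h _ _).trans (h' _ _)
  inv_mem' := fun {l} h i j => by simpa using (h (l⁻¹ i) (l⁻¹ j)).symm

theorem exists_α {l : Equiv.Perm I} (hl : l ∈ Au Γ) :
    ∃ α : GP Γ A →* GP Γ A, ∀ i a, α (ι Γ i a) = ι Γ (l i) a :=
  exists_lift (fun i => ι Γ (l i)) fun i j h h' a b => comm (l.injective.ne h) ((hl i j).2 h') a b

end GP

end

/-! The automorphisms of the building with prescribed local actions. -/

section

open GP Topology MulAction Equiv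

variable {I : Type} (Γ : Cm I) (A B : Type) [Group A] [Group B] [MulAction B A]

/-- The defining conditions on a map of the chambers and its local actions. -/
def Cnd (q : (GP Γ A → GP Γ A) × (GP Γ A → Perm I) × (GP Γ A → I → B)) : Prop :=
  Function.Injective q.1 ∧
    (∀ w i a, q.1 (w * ι Γ i a) = q.1 w * ι Γ (q.2.1 w i) (q.2.2 w i • a)) ∧
    (∀ w, q.2.1 w ∈ Au Γ) ∧ (∀ w i a j, Γ.st i j → q.2.1 (w * ι Γ i a) j = q.2.1 w j) ∧
    ∀ w i, q.2.2 w i • (1 : A) = 1

/-- The ambient group of automorphisms of the building. -/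
@[ext] structure BG where
  /-- the map and its local actions -/
  q : (GP Γ A → GP Γ A) × (GP Γ A → Perm I) × (GP Γ A → I → B)
  c : Cnd Γ A B q

namespace BG

variable {Γ A B}

theorem bij (g : BG Γ A B) : Function.Bijective g.1.1 := by
  refine ⟨g.2.1, fun w => ?_⟩
  suffices ∀ u, ∃ v, g.1.1 v = g.1.1 1 * u by simpa using this ((g.1.1 1)⁻¹ * w)
  intro u
  induction u using GP.ind with
  | h1 => exact ⟨1, (mul_one _).symm⟩
  | hs u i a ih =>
    obtain ⟨v, hv⟩ := ih
    exact ⟨v * ι Γ ((g.1.2.1 v)⁻¹ i) ((g.1.2.2 v ((g.1.2.1 v)⁻¹ i))⁻¹ • a), by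
      rw [g.2.2.1, hv, smul_inv_smul, mul_assoc]; simp⟩

instance : One (BG Γ A B) := ⟨⟨(id, 1, 1), Function.injective_id, fun _ _ _ => by simp,
  fun _ => one_mem _, fun _ _ _ _ _ => rfl, fun _ _ => one_smul _ _⟩⟩

noncomputable instance : Mul (BG Γ A B) := ⟨fun g k => ⟨(g.1.1 ∘ k.1.1,
    fun w => g.1.2.1 (k.1.1 w) * k.1.2.1 w,
    fun w i => g.1.2.2 (k.1.1 w) (k.1.2.1 w i) * k.1.2.2 w i), g.2.1.comp k.2.1,
  fun w i a => by simp only [Function.comp, k.2.2.1, g.2.2.1, mul_smul, Perm.mul_apply],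
  fun w => mul_mem (g.2.2.2.1 _) (k.2.2.2.1 w),
  fun w i a j h => by
    simp only [Perm.mul_apply, k.2.2.1, k.2.2.2.2.1 w i a j h]
    exact g.2.2.2.2.1 _ _ _ _ ((k.2.2.2.1 w i j).2 h),
  fun w i => by simp only [mul_smul, k.2.2.2.2.2, g.2.2.2.2.2]⟩⟩

noncomputable instance : Inv (BG Γ A B) := ⟨fun g => ⟨((ofBijective _ g.bij).symm,
    fun w => (g.1.2.1 ((ofBijective _ g.bij).symm w))⁻¹,
    fun w i => (g.1.2.2 ((ofBijective _ g.bij).symm w)
      ((g.1.2.1 ((ofBijective _ g.bij).symm w))⁻¹ i))⁻¹), Equiv.injective _,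
  fun w i a => by
    rw [symm_apply_eq, ofBijective_apply, g.2.2.1, smul_inv_smul,
      ofBijective_apply_symm_apply _ g.bij]
    simp,
  fun w => inv_mem (g.2.2.2.1 _),
  fun w i a j h => by
    obtain ⟨w, rfl⟩ := g.bij.2 w
    obtain ⟨i, rfl⟩ := (g.1.2.1 w).surjective i
    obtain ⟨j, rfl⟩ := (g.1.2.1 w).surjective j
    obtain ⟨a, rfl⟩ := MulAction.surjective (g.1.2.2 w i) a
    simp only [← g.2.2.1, ofBijective_symm_apply_apply, Perm.inv_eq_iff_eq]
    rw [g.2.2.2.2.1 w i a _ (by simpa using (g.2.2.2.1 w i j).1 h)]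
    simp,
  fun w i => inv_smul_eq_iff.2 (g.2.2.2.2.2 _ _).symm⟩⟩

noncomputable instance : Group (BG Γ A B) := Group.ofLeftAxioms
  (fun _ _ _ => BG.ext (Prod.ext rfl (Prod.ext (funext fun _ => mul_assoc _ _ _)
    (funext fun _ => funext fun _ => mul_assoc _ _ _))))
  (fun _ => BG.ext (Prod.ext rfl (Prod.ext (funext fun _ => one_mul _)
    (funext fun _ => funext fun _ => one_mul _))))
  (fun g => BG.ext (Prod.ext (funext fun v => ofBijective_symm_apply_apply _ g.bij v)
    (Prod.ext (funext fun v => by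
      change (g.1.2.1 ((ofBijective _ g.bij).symm (g.1.1 v)))⁻¹ * g.1.2.1 v = 1
      rw [ofBijective_symm_apply_apply, inv_mul_cancel]) (funext fun v => funext fun i => by
      change (g.1.2.2 ((ofBijective _ g.bij).symm (g.1.1 v))
        ((g.1.2.1 ((ofBijective _ g.bij).symm (g.1.1 v)))⁻¹ (g.1.2.1 v i)))⁻¹ * g.1.2.2 v i = 1
      simp [ofBijective_symm_apply_apply]))))

noncomputable instance : MulAction (BG Γ A B) (GP Γ A) where
  smul g v := g.1.1 v
  one_smul _ := rfl
  mul_smul _ _ _ := rfl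

/-- The local permutation of the types. -/
def σ (g : BG Γ A B) (w : GP Γ A) : Perm I := g.1.2.1 w

/-- The local action on a panel. -/
def ρ (g : BG Γ A B) (w : GP Γ A) (i : I) : B := g.1.2.2 w i

theorem smul_ι (g : BG Γ A B) (w : GP Γ A) (i : I) (a : A) :
    g • (w * ι Γ i a) = g • w * ι Γ (σ g w i) (ρ g w i • a) := g.2.2.1 w i a

theorem σ_st (g : BG Γ A B) (w : GP Γ A) (i j : I) : Γ.st (σ g w i) (σ g w j) ↔ Γ.st i j :=
  g.2.2.2.1 w i j

theorem σ_ι (g : BG Γ A B) (w : GP Γ A) {i j : I} (h : Γ.st i j) (a : A) :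
    σ g (w * ι Γ i a) j = σ g w j := g.2.2.2.2.1 w i a j h

@[simp] theorem ρ_one (g : BG Γ A B) (w : GP Γ A) (i : I) : ρ g w i • (1 : A) = 1 :=
  g.2.2.2.2.2 w i

theorem ρ_eq_one {g : BG Γ A B} {w : GP Γ A} {i : I} {a : A} : ρ g w i • a = 1 ↔ a = 1 := by
  rw [← ρ_one g w i, smul_left_cancel_iff, ρ_one]

theorem σ_mul (g k : BG Γ A B) (w : GP Γ A) : σ (g * k) w = σ g (k • w) * σ k w := rfl

theorem ρ_mul (g k : BG Γ A B) (w : GP Γ A) (i : I) :
    ρ (g * k) w i = ρ g (k • w) (σ k w i) * ρ k w i := rfl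

theorem σ_inv (g : BG Γ A B) (w : GP Γ A) : σ g⁻¹ (g • w) = (σ g w)⁻¹ :=
  eq_inv_of_mul_eq_one_left (by rw [← σ_mul, inv_mul_cancel]; rfl)

theorem ext' [FaithfulSMul B A] [Nontrivial A] {g k : BG Γ A B}
    (h : ∀ w : GP Γ A, g • w = k • w) : g = k := by
  have h1 : ∀ w i a, ι Γ (σ g w i) (ρ g w i • a) = ι Γ (σ k w i) (ρ k w i • a) := fun w i a =>
    mul_left_cancel (a := g • w) (by rw [← smul_ι, h, smul_ι, h])
  obtain ⟨a, ha⟩ := exists_ne (1 : A)
  have h2 : ∀ w i, σ g w i = σ k w i := fun w i => ι_eq (mt ρ_eq_one.1 ha) (h1 w i a)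
  exact BG.ext (Prod.ext (funext h) (Prod.ext (funext fun w => Equiv.ext (h2 w))
    (funext fun w => funext fun i => eq_of_smul_eq_smul fun a : A =>
      ι_inj ((h2 w i ▸ h1 w i a :)))))

theorem ρ_same (g : BG Γ A B) (w : GP Γ A) (i : I) (x a : A) :
    ρ g w i • (x * a) = ρ g w i • x * ρ g (w * ι Γ i x) i • a := by
  apply ι_inj (Γ := Γ) (i := σ g w i)
  apply mul_left_cancel (a := g • w)
  rw [← smul_ι, map_mul, map_mul, ← mul_assoc, smul_ι, σ_ι g w (Γ.rf i), smul_ι, mul_assoc]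

theorem ρ_adj (g : BG Γ A B) (w : GP Γ A) {i j : I} (e : j ≠ i) (h : Γ.st i j) (x a : A) :
    ρ g (w * ι Γ j x) i • a = ρ g w i • a := by
  obtain ⟨r, h1, h2⟩ := exists_r (Γ := Γ) (A := A) (σ g w i)
  have := congrArg (fun u => r ((g • w)⁻¹ * g • (w * u))) (comm e (Γ.sy h) x a)
  simpa only [← mul_assoc, smul_ι, inv_mul_cancel, one_mul, σ_ι g w h, σ_ι g w (Γ.sy h), map_mul,
    σ_ι g w (Γ.rf _), h1, h2 _ _ ((σ g w).injective.ne e), mul_one] using this

theorem St_smul (g : BG Γ A B) (c : GP Γ A) {i : I} {u : GP Γ A} (hu : u ∈ St Γ A i) :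
    (g • c)⁻¹ * g • (c * u) ∈ St Γ A (σ g c i) ∧ σ g (c * u) i = σ g c i ∧
      ∀ a, ρ g c i • (p i u * a) = ρ g c i • p i u * ρ g (c * u) i • a := by
  refine St_ind (p := fun u => (g • c)⁻¹ * g • (c * u) ∈ St Γ A (σ g c i) ∧
    σ g (c * u) i = σ g c i ∧ ∀ a, ρ g c i • (p i u * a) = ρ g c i • p i u * ρ g (c * u) i • a)
    (by simp) (fun w j x hw h ⟨h1, h2, h3⟩ => ?_) hu
  rw [← mul_assoc, smul_ι, ← mul_assoc, σ_ι g _ (Γ.sy h)]
  refine ⟨mul_mem h1 (ι_mem (h2 ▸ (σ_st g _ i j).2 h) _), h2, fun a => ?_⟩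
  by_cases e : j = i
  · subst e
    rw [p_pos hw, mul_assoc, h3, h3, ρ_same, ← mul_assoc]
  · rw [p_neg (fun h => e h.1), ρ_adj g _ e h, h3]

theorem p_smul (g : BG Γ A B) (c : GP Γ A) (i : I) (u : GP Γ A) :
    p (σ g c i) ((g • c)⁻¹ * g • (c * u)) = ρ g c i • p i u := by
  induction u using GP.ind with
  | h1 => simp
  | hs u j a ih =>
    rw [← mul_assoc, smul_ι, ← mul_assoc]
    by_cases h : j = i ∧ u ∈ St Γ A i
    · obtain ⟨rfl, h⟩ := h
      obtain ⟨h1, h2, h3⟩ := St_smul g c h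
      rw [h2, p_pos h1, p_pos h, ih, h3]
    · rw [p_neg h, p_neg (fun h' => h ?_), ih]
      obtain ⟨h1, h2, -⟩ := St_smul g⁻¹ (g • c) h'.2
      simp only [mul_inv_cancel_left, inv_smul_smul, σ_inv, Perm.coe_inv, symm_apply_apply,
        inv_mul_cancel_left] at h1 h2
      exact ⟨by rw [← h2, ← h'.1, symm_apply_apply], h1⟩

/-- Left translations. -/
noncomputable def T : GP Γ A →* BG Γ A B := MonoidHom.mk' (fun c => ⟨((c * ·), 1, 1),
    mul_right_injective c, fun _ _ _ => by simp [mul_assoc], fun _ => one_mem _,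
    fun _ _ _ _ _ => rfl, fun _ _ => one_smul _ _⟩) fun _ _ =>
  BG.ext (Prod.ext (funext fun _ => mul_assoc _ _ _) (Prod.ext (funext fun _ => (one_mul _).symm)
    (funext fun _ => funext fun _ => (one_mul _).symm)))

@[simp] theorem T_smul (c w : GP Γ A) : (T c : BG Γ A B) • w = c * w := rfl

theorem exists_twist {i : I} {l : Perm I} (hl : l ∈ Au Γ) (hf : ∀ j, Γ.st i j → l j = j) :
    ∃ t : BG Γ A B, t • (1 : GP Γ A) = 1 ∧ σ t 1 = l ∧ (∀ w j, ρ t w j = 1) ∧
      ∀ w, p i w ≠ 1 → t • w = w ∧ σ t w = 1 := by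
  classical
  obtain ⟨α, hα⟩ := exists_α (A := A) hl
  obtain ⟨α', hα'⟩ := exists_α (A := A) (inv_mem hl)
  have h0 : ∀ w, α' (α w) = w := fun w => by
    induction w using GP.ind with
    | h1 => simp
    | hs w j a ih => simp [ih, hα, hα']
  let a : BG Γ A B := ⟨(α, fun _ => l, 1), Function.LeftInverse.injective h0,
    fun _ _ _ => by simp [hα], fun _ => hl, fun _ _ _ _ _ => rfl, fun _ _ => one_smul _ _⟩
  have h1 : ∀ w, p i (α w) = p i w := fun w => by
    have := p_smul a 1 i w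
    change p (l i) ((α 1)⁻¹ * α (1 * w)) = (1 : B) • _ at this
    simpa [hf i (Γ.rf i)] using this
  have h2 : ∀ w ∈ St Γ A i, α w = w := fun w hw => St_ind (p := fun w => α w = w) (map_one α)
    (fun w j a _ h ih => by rw [map_mul, ih, hα, hf j h]) hw
  refine ⟨⟨(fun w => if p i w = 1 then α w else w, fun w => if p i w = 1 then l else 1, 1),
    fun v w e => ?_, fun w j a => ?_, fun w => ?_, fun w j a k h => ?_, fun _ _ => one_smul _ _⟩,
    ?_, if_pos (p_one i), fun _ _ => rfl, fun w h => ⟨if_neg h, if_neg h⟩⟩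
  · by_cases hv : p i v = 1 <;> by_cases hw : p i w = 1 <;> simp only [hv, hw, reduceIte] at e
    · exact Function.LeftInverse.injective h0 e
    · exact absurd (by rw [← e, h1, hv]) hw
    · exact absurd (by rw [e, h1, hw]) hv
    · exact e
  · by_cases h : j = i ∧ w ∈ St Γ A i
    · obtain ⟨rfl, h⟩ := h
      simp only [h2 _ h, h2 _ (mul_mem h (ι_mem (Γ.rf j) a)), ite_self]
      split_ifs <;> simp [hf j (Γ.rf j)]
    · simp only [p_neg h]
      split_ifs <;> simp [hα]
  · dsimp only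
    split_ifs
    exacts [hl, one_mem _]
  · by_cases h' : j = i ∧ w ∈ St Γ A i
    · dsimp only
      split_ifs <;> simp [hf k (h'.1 ▸ h)]
    · simp only [p_neg h']
  · exact (if_pos (p_one i)).trans (map_one α)

variable (e : A →* B) (he : ∀ a x : A, e a • x = a * x)

open Classical in
/-- The lift of an element of `B` acting on the panel of type `i`. -/
noncomputable def β₀ (i : I) (b : B) : BG Γ A B :=
  ⟨(fun w => ι Γ i (b • p i w * (p i w)⁻¹) * w, 1, fun w j =>
      if j = i ∧ w ∈ St Γ A i then (e (b • p i w))⁻¹ * b * e (p i w) else 1),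
    fun v w h => by
      have := congrArg (p i) h
      simp only [p_ι_mul, inv_mul_cancel_right, smul_left_cancel_iff] at this
      simpa only [this, mul_right_inj] using h,
    fun w j a => by
      by_cases h : j = i ∧ w ∈ St Γ A i
      · obtain ⟨rfl, h⟩ := h
        simp only [p_pos h]
        simp only [h, and_self, reduceIte, Pi.one_apply, Perm.one_apply, mul_smul,
          ← map_inv, he, mul_assoc, conj_St h]
        simp only [← mul_assoc, ← map_mul]
        congr 2
        group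
      · simp only [p_neg h, if_neg h, mul_assoc, one_smul, Pi.one_apply, Perm.one_apply],
    fun _ => one_mem _, fun _ _ _ _ _ => rfl, fun w j => by
      dsimp only
      split_ifs
      · simp only [mul_smul, ← map_inv, he, mul_one, inv_mul_cancel]
      · exact one_smul _ _⟩

theorem β₀_smul (i : I) (b : B) (w : GP Γ A) :
    β₀ (Γ := Γ) e he i b • w = ι Γ i (b • p i w * (p i w)⁻¹) * w := rfl

variable [FaithfulSMul B A] [Nontrivial A]

variable (Γ) in
/-- The lift of `B` acting on the panel of type `i`. -/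
noncomputable def β (i : I) : B →* BG Γ A B := MonoidHom.mk' (β₀ e he i) fun b b' => ext' fun w => by
  simp only [mul_smul, β₀_smul, p_ι_mul, inv_mul_cancel_right, ← mul_assoc, ← map_mul]

theorem β_smul (i : I) (b : B) (w : GP Γ A) :
    β Γ e he i b • w = ι Γ i (b • p i w * (p i w)⁻¹) * w := rfl

theorem β_e (i : I) (a : A) : β Γ e he i (e a) = T (ι Γ i a) := ext' fun w => by
  simp [β_smul, he]

end BG

end

/-! Failure of well-foundedness lifts along proper surjections. -/

section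

open Topology

section

variable {C B : Type} [Group C] [TopologicalSpace C] [Group B] [TopologicalSpace B]

/-- A proper surjective homomorphism. -/
def Pr (ψ : C →* B) : Prop := IsProperMap ψ ∧ Function.Surjective ψ

theorem pr_cod {f : C →* B} (hf : IsProperMap f) {D : Subgroup B} (hD : f.range = D) :
    Pr (f.codRestrict D fun c => hD.le ⟨c, rfl⟩) :=
  ⟨isProperMap_of_comp_of_inj (g := Subtype.val) (hf.continuous.subtype_mk _)
    continuous_subtype_val hf Subtype.val_injective, fun d =>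
      let ⟨c, hc⟩ := hD.ge d.2; ⟨c, Subtype.ext hc⟩⟩

theorem pr_restrict {f : C →* B} (hf : IsProperMap f) {N : Subgroup C} (hN : IsClosed (N : Set C))
    {D : Subgroup B} (hD : N.map f = D) : ∃ χ : N →* D, Pr χ ∧ ∀ n, (χ n : B) = f n :=
  ⟨_, pr_cod (f := f.comp N.subtype) (hf.restrict hN)
    (by rw [MonoidHom.range_comp, Subgroup.range_subtype, hD]), fun _ => rfl⟩

theorem mem_map_sInf {f : C →* B} (hf : IsProperMap f) {F : Set (Subgroup C)} (h0 : ⊤ ∈ F)
    (h1 : ∀ M ∈ F, ∀ N ∈ F, M ⊓ N ∈ F) (h2 : ∀ N ∈ F, IsClosed (N : Set C)) {y : B}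
    (hy : ∀ N ∈ F, y ∈ N.map f) : y ∈ (sInf F).map f := by
  have : Nonempty F := ⟨⟨_, h0⟩⟩
  have hc := hf.isCompact_preimage (isCompact_singleton (x := y))
  obtain ⟨x, hx, hx'⟩ : (f ⁻¹' {y} ∩ ⋂ N : F, (N.1 : Set C)).Nonempty := by
    by_contra h
    obtain ⟨N, hN⟩ := hc.elim_directed_family_closed (fun N : F => (N.1 : Set C))
      (fun N => h2 _ N.2) (Set.not_nonempty_iff_eq_empty.1 h)
      fun M N => ⟨⟨_, h1 _ M.2 _ N.2⟩, Set.inter_subset_left, Set.inter_subset_right⟩
    obtain ⟨x, h3, h4⟩ := hy _ N.2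
    exact (hN.le ⟨h4, h3⟩ :)
  exact ⟨x, Subgroup.mem_sInf.2 fun N hN => Set.mem_iInter.1 hx' ⟨N, hN⟩, hx⟩

theorem Pr.compGen {ψ : C →* B} (h : Pr ψ) (hB : CompGen B) : CompGen C := by
  obtain ⟨T, hT, e⟩ := hB
  refine ⟨ψ ⁻¹' insert 1 T, h.1.isCompact_preimage (hT.insert 1), ?_⟩
  rw [← Subgroup.comap_map_eq_self (f := ψ) (H := Subgroup.closure (ψ ⁻¹' insert 1 T))
    (fun x hx => Subgroup.subset_closure (Or.inl hx)), MonoidHom.map_closure,
    Set.image_preimage_eq _ h.2, Subgroup.closure_insert_one, e, Subgroup.comap_top]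

variable [IsTopologicalGroup C]

theorem Pr.isOpenMap {ψ : C →* B} (h : Pr ψ) : IsOpenMap ψ :=
  (MonoidHom.isOpenQuotientMap_of_isQuotientMap
    (h.1.isClosedMap.isQuotientMap h.1.continuous h.2)).isOpenMap

theorem isClosed_Res : IsClosed (Res C : Set C) := by
  rw [Res, Subgroup.coe_sInf]
  exact isClosed_biInter fun N hN => N.isClosed_of_isOpen hN.2

theorem Pr.res {ψ : C →* B} (h : Pr ψ) : ∃ χ : Res C →* Res B, Pr χ := by
  refine (pr_restrict h.1 isClosed_Res (le_antisymm ?_ fun y hy => ?_)).imp fun _ h => h.1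
  · exact le_sInf fun M hM => Subgroup.map_le_iff_le_comap.2
      (sInf_le ⟨hM.1.comap ψ, hM.2.preimage h.1.continuous⟩)
  · exact mem_map_sInf h.1 (F := {N | N.Normal ∧ IsOpen (N : Set C)}) ⟨inferInstance, isOpen_univ⟩
      (fun M hM N hN => ⟨by have := hM.1; have := hN.1; infer_instance, hM.2.inter hN.2⟩)
      (fun N hN => N.isClosed_of_isOpen hN.2)
      fun N hN => Subgroup.mem_sInf.1 hy _ ⟨hN.1.map _ h.2, h.isOpenMap _ hN.2⟩

omit [IsTopologicalGroup C] in
theorem Pr.quot {ψ : C →* B} (h : Pr ψ) (N : Subgroup C) [N.Normal] [(N.map ψ).Normal] :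
    Pr (QuotientGroup.map N (N.map ψ) ψ (Subgroup.le_comap_map ψ N)) := by
  have key : ∀ (x : C) (y : B), QuotientGroup.map N (N.map ψ) ψ (Subgroup.le_comap_map ψ N) x = y →
      ∃ z : C, ψ z = y ∧ (z : C ⧸ N) = x := fun x y e => by
    obtain ⟨n, hn, e⟩ := QuotientGroup.eq.1 e
    exact ⟨x * n, by simp [e], QuotientGroup.mk_mul_of_mem x hn⟩
  refine ⟨isProperMap_iff_isClosedMap_and_compact_fibers.2 ⟨?_, fun T hT => ?_, fun y => ?_⟩,
    fun y => ?_⟩
  · exact (QuotientGroup.isQuotientMap_mk N).continuous_iff.2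
      (QuotientGroup.continuous_mk.comp h.1.continuous)
  · rw [← (QuotientGroup.isQuotientMap_mk _).isClosed_preimage]
    convert h.1.isClosedMap _ (hT.preimage QuotientGroup.continuous_mk)
    ext y
    constructor
    · rintro ⟨x, hx, e⟩
      obtain ⟨x, rfl⟩ := QuotientGroup.mk_surjective x
      obtain ⟨z, h1, h2⟩ := key x y e
      exact ⟨z, by rwa [Set.mem_preimage, h2], h1⟩
    · rintro ⟨x, hx, rfl⟩
      exact ⟨x, hx, rfl⟩
  · obtain ⟨y, rfl⟩ := QuotientGroup.mk_surjective y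
    convert (h.1.isCompact_preimage (isCompact_singleton (x := y))).image
      (QuotientGroup.continuous_mk (N := N))
    ext x
    obtain ⟨x, rfl⟩ := QuotientGroup.mk_surjective x
    exact ⟨key x y, by rintro ⟨z, rfl, e⟩; exact e ▸ rfl⟩
  · obtain ⟨y, rfl⟩ := QuotientGroup.mk_surjective y
    obtain ⟨x, rfl⟩ := h.2 y
    exact ⟨x, rfl⟩

end

theorem Pr.rank (n : ℕ) : ∀ {C B : Type} [Group C] [TopologicalSpace C] [IsTopologicalGroup C]
    [Group B] [TopologicalSpace B] [IsTopologicalGroup B] {ψ : C →* B},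
    Pr ψ → RankLE n C → RankLE n B := by
  induction n with
  | zero => exact fun _ h => h
  | succ n ih =>
    intro C B _ _ _ _ _ _ ψ h hr
    rcases hr with hr | hr | hr
    · exact Or.inl h.2.subsingleton
    · obtain ⟨χ, hχ⟩ := h.res
      exact Or.inr (Or.inl ⟨hr.1.of_surj ψ h.1.continuous h.2, ih hχ hr.2⟩)
    · refine Or.inr (Or.inr ⟨fun h' => hr.1 (h.compGen h'), fun O hO hc => ?_⟩)
      have ho : IsOpen (O.comap ψ : Set C) := hO.preimage h.1.continuous
      obtain ⟨χ, hχ, -⟩ := pr_restrict h.1 (Subgroup.isClosed_of_isOpen _ ho)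
        (Subgroup.map_comap_eq_self_of_surjective h.2 O)
      obtain ⟨χ', hχ'⟩ := hχ.res
      exact ih hχ' (hr.2 _ ho (hχ.compGen hc))

theorem InS.not_compact {Q : Type} [Group Q] [TopologicalSpace Q] (h : InS Q) :
    ¬ CompactSpace Q := fun _ => by
  obtain ⟨⟨_, _, _, _⟩, h2, -, h3⟩ := h
  rcases subsingleton_or_nontrivial Q with _ | _
  · exact h2 inferInstance
  obtain ⟨x, hx⟩ := exists_ne (1 : Q)
  obtain ⟨M, hM⟩ := ProfiniteGrp.exist_openNormalSubgroup_sub_open_nhds_of_one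
    (isOpen_compl_singleton (x := x)) hx.symm
  rcases h3 M.toSubgroup inferInstance M.toOpenSubgroup.isClosed with e | e
  · exact h2 (discreteTopology_of_isOpen_singleton_one
      (Subgroup.coe_bot (G := Q) ▸ e ▸ (M.isOpen' : IsOpen (M.toSubgroup : Set Q))))
  · exact hM (e ▸ Subgroup.mem_top x : x ∈ M.toSubgroup) rfl

variable {B : Type} [Group B] [TopologicalSpace B] [IsTopologicalGroup B] (S : Sys B)
  {K P Z : Subgroup B}

theorem Sys.not_comm (h : S.Good K P Z) : ¬ ∀ p ∈ P, ∀ q ∈ P, p * q * p⁻¹ * q⁻¹ ∈ Z := fun hc => by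
  obtain ⟨J, -, ho, hz, hp, -⟩ := S.chain h
  rcases S.tits h (J 0 ⊓ P) (fun p hp n hn => ⟨by
    simpa using (J 0).mul_mem (hz 0 ⟨hc p hp n hn.2, S.le h (P.mul_mem (P.mul_mem
      (P.mul_mem hp hn.2) (P.inv_mem hp)) (P.inv_mem hn.2))⟩) hn.1,
      P.mul_mem (P.mul_mem hp hn.2) (P.inv_mem hp)⟩) with e | e
  · exact S.nopen h (Subgroup.isOpen_mono e ((ho 0).inter (S.isOpen h)))
  · exact hp 0 (e.trans inf_le_left)

theorem Sys.le_of_rank (h : S.Good K P Z) (N : Subgroup K) [hN : N.Normal] {n : ℕ}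
    (hr : RankLE n (K ⧸ N)) : P ≤ N.map K.subtype := by
  refine (S.le_map h (S.le h) N hN).resolve_left fun h1 => ?_
  have hφ := nice_mk N h1
  obtain ⟨χ, hχ⟩ := hφ.restrict (S.le h) (S.isOpen h) _ (S.res_eq h hφ)
  have hcg := (S.cg h).of_surj _ hφ.1 hφ.2.2.1
  rcases n with _ | n
  · exact hr
  rcases hr with hr | hr | hr
  · exact S.not_le h fun p hp => hφ.2.2.2 ⟨p, S.le h hp⟩ (Subsingleton.elim _ _)
  · exact S.not_rank n h hχ hr.2
  · exact hr.1 hcg

variable {C : Type} [Group C] [TopologicalSpace C] [IsTopologicalGroup C]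

omit [IsTopologicalGroup C] in
theorem isClosed_ResOmega : IsClosed (ResOmega C : Set C) := by
  rw [ResOmega, Subgroup.coe_sInf]
  exact isClosed_biInter fun N hN => hN.2.1

theorem Sys.map_resOmega [SecondCountableTopology C] (h : S.Good K P Z) {f : C →* B}
    (hf : IsProperMap f) (hK : f.range = K) : (ResOmega C).map f = P := by
  have hψ := pr_cod hf hK
  set ψ := f.codRestrict K fun c => hK.le ⟨c, rfl⟩
  have hm : ∀ N : Subgroup C, (N.map ψ).map K.subtype = N.map f := fun N => by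
    rw [Subgroup.map_map]; rfl
  apply le_antisymm
  · have ho : IsOpen (P.comap f : Set C) := (S.isOpen h).preimage hf.continuous
    have hn : (P.comap f).Normal := ⟨fun p hp k => by
      simpa using S.conj h (f k) (hK.le ⟨k, rfl⟩) (f p) hp⟩
    have hd : DiscreteTopology (C ⧸ P.comap f) := QuotientGroup.discreteTopology ho
    refine Subgroup.map_le_iff_le_comap.2 (sInf_le ⟨hn, Subgroup.isClosed_of_isOpen _ ho, ?_, 2,
      Or.inr (Or.inl ⟨?_, ?_⟩)⟩)
    · exact Elementary.discrete _ ⟨inferInstance, inferInstance, inferInstance, inferInstance⟩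
        inferInstance hd
    · exact (hψ.compGen (S.cg h)).of_surj (QuotientGroup.mk' _) QuotientGroup.continuous_mk
        (QuotientGroup.mk'_surjective _)
    · left
      have : Res (C ⧸ P.comap f) = ⊥ :=
        le_bot_iff.1 (sInf_le ⟨inferInstance, isOpen_discrete _⟩)
      rw [this]
      infer_instance
  intro y hy
  refine Subgroup.map_mono (sInf_le_sInf ?_) (mem_map_sInf hf
    (F := {N | N.Normal ∧ IsClosed (N : Set C) ∧ P ≤ N.map f})
    ⟨inferInstance, isClosed_univ, by rw [← MonoidHom.range_eq_map, hK]; exact S.le h⟩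
    (fun M hM N hN => ?_) (fun N hN => hN.2.1) fun N hN => hN.2.2 hy)
  · rintro N ⟨hN, h1, -, n, hr⟩
    have := hN.map ψ hψ.2
    exact ⟨hN, h1, hm N ▸ S.le_of_rank h _ ((hψ.quot N).rank n hr)⟩
  · have := hM.1
    have := hN.1
    refine ⟨inferInstance, hM.2.1.inter hN.2.1, hm _ ▸ (S.le_map h (S.le h) _
      (Subgroup.Normal.map inferInstance ψ hψ.2)).resolve_left fun e => S.not_comm h ?_⟩
    intro p hp q hq
    obtain ⟨m, h1, rfl⟩ := hM.2.2 hp
    obtain ⟨n, h2, rfl⟩ := hN.2.2 hq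
    refine (hm _ ▸ e :) ⟨m * n * m⁻¹ * n⁻¹, ⟨?_, N.mul_mem (hN.1.conj_mem n h2 m) (N.inv_mem h2)⟩,
      by simp⟩
    simpa [mul_assoc] using M.mul_mem h1 (hM.1.conj_mem _ (M.inv_mem h1) n)

omit [IsTopologicalGroup C] in
theorem Sys.no_quot (h : S.Good K P Z) {χ : C →* P} (hχ : Pr χ) (N : Subgroup C) [hN : N.Normal] :
    ¬ InS (C ⧸ N) := fun hS => by
  have := hN.map χ hχ.2
  rcases S.le_map h le_rfl _ this with h1 | h1
  · exact S.not_compGen h (nice_mk _ h1)
      (hS.2.2.1.of_surj _ (hχ.quot N).1.continuous (hχ.quot N).2)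
  · refine hS.not_compact ⟨?_⟩
    convert (hχ.1.isCompact_preimage (isCompact_singleton (x := 1))).image
      (QuotientGroup.continuous_mk (N := N))
    refine (Set.eq_univ_of_forall fun x => ?_).symm
    obtain ⟨x, rfl⟩ := QuotientGroup.mk_surjective x
    obtain ⟨_, ⟨n, hn, rfl⟩, e⟩ := h1 (χ x).2
    exact ⟨x * n⁻¹, by simp [show χ n = χ x from Subtype.ext e],
      QuotientGroup.mk_mul_of_mem x (inv_mem hn)⟩

theorem Sys.ll_lift [SecondCountableTopology C] (h : S.Good K P Z) {K' H : Subgroup C}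
    {f : K' →* B} (hf : IsProperMap f) (hK : f.range = K) (hH : H ≤ K')
    (hP : ∀ x : K', x.1 ∈ H → f x ∈ P) : Ll H K' := by
  have : SecondCountableTopology K' :=
    TopologicalSpace.Subtype.secondCountableTopology (K' : Set C)
  have he := S.map_resOmega h hf hK
  refine ⟨fun hc => S.ncomp h ?_, hH, ?_, fun N hN _ hS _ => ?_⟩
  · have := isCompact_iff_compactSpace.1 hc
    exact hK ▸ isCompact_range hf.continuous
  · have : (ResOmega K').Normal := ⟨fun n hn g => Subgroup.mem_sInf.2 fun N hN =>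
      hN.1.conj_mem n (Subgroup.mem_sInf.1 hn N hN) g⟩
    refine ((hf.isCompact_preimage (isCompact_singleton (x := 1))).image
      (QuotientGroup.continuous_mk (N := ResOmega K'))).closure_of_subset ?_
    rintro _ ⟨x, hx, rfl⟩
    obtain ⟨n, hn, e⟩ := he.ge (hP x hx)
    exact ⟨x * n⁻¹, by simp [e], QuotientGroup.mk_mul_of_mem x (inv_mem hn)⟩
  · obtain ⟨χ, hχ, -⟩ := pr_restrict hf isClosed_ResOmega he
    exact absurd hS (S.no_quot h hχ N)

include S in
theorem Sys.not_wf_lift [SecondCountableTopology C] {O : Subgroup C} (hO : IsOpen (O : Set C))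
    {φ : O →* B} (hφ : Pr φ) : ¬ SWellFounded C := by
  intro hw
  let L : Subgroup B → Subgroup C := fun K => (K.comap φ).map O.subtype
  have hL : ∀ K, L K ≤ O := fun K => Subgroup.map_subtype_le _
  have hm : ∀ K (x : O), x.1 ∈ L K ↔ φ x ∈ K := fun K x =>
    Subgroup.mem_map_iff_mem Subtype.val_injective
  have ho : ∀ {K P Z}, S.Good K P Z → IsOpen (L K : Set C) := fun h =>
    hO.isOpenMap_subtype_val _ ((S.isOpenK h).preimage hφ.1.continuous)
  have hp : ∀ {K P Z}, S.Good K P Z → IsProperMap (φ.comp (Subgroup.inclusion (hL K))) := fun h =>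
    hφ.1.comp (IsClosedEmbedding.inclusion (hL _)
      ((Subgroup.isClosed_of_isOpen _ (ho h)).preimage continuous_subtype_val)).isProperMap
  have hr : ∀ K, (φ.comp (Subgroup.inclusion (hL K))).range = K := fun K => by
    ext y
    constructor
    · rintro ⟨x, rfl⟩
      exact (hm K _).1 x.2
    · intro hy
      obtain ⟨x, rfl⟩ := hφ.2 y
      exact ⟨⟨x, (hm K x).2 hy⟩, rfl⟩
  obtain ⟨K₀, P₀, Z₀, h₀⟩ := S.ex
  obtain ⟨_, ⟨K, P, Z, h, rfl⟩, hmin⟩ := hw {M | ∃ K P Z, S.Good K P Z ∧ M = L K}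
    ⟨_, K₀, P₀, Z₀, h₀, rfl⟩ (by
      rintro _ ⟨K, P, Z, h, rfl⟩
      exact ⟨ho h, (pr_cod (hp h) (hr K)).compGen (S.cg h)⟩)
  obtain ⟨K', P', Z', h', hK', -⟩ := S.desc h
  have e := hmin _ ⟨K', P', Z', h', rfl⟩ (S.ll_lift h (hp h) (hr K)
    (Subgroup.map_mono (Subgroup.comap_mono (hK'.trans (S.le h))))
    fun x hx => hK' ((hm K' _).1 hx))
  obtain rfl : P = K := le_antisymm (S.le h) fun y hy => by
    obtain ⟨x, rfl⟩ := hφ.2 y
    exact hK' ((hm K' x).1 (e ▸ (hm K x).2 hy))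
  exact S.not_compGen h (φ := MonoidHom.id _) ⟨continuous_id, IsOpenMap.id,
    Function.surjective_id, fun a ha => by simp [show a = 1 from ha]⟩ (S.cg h)

end

/-! One-endedness of graph products, and the topology of the ambient group. -/

section

open GP Topology MulAction Equiv Filter

variable {I : Type} {Γ : Cm I} {A : Type} [Group A]

theorem GP.one_end [Infinite A]
    (hI : ∀ i j, Relation.ReflTransGen (fun i j => i ≠ j ∧ Γ.st i j) i j) {i₀ j₀ : I}
    (h0 : i₀ ≠ j₀) {F : Set (GP Γ A)} (hF : F.Finite) {R : GP Γ A → GP Γ A → Prop}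
    (symm : ∀ {u v}, R u v → R v u) (trans : ∀ {u v w}, R u v → R v w → R u w)
    (h : ∀ w i, (∀ a, w * ι Γ i a ∉ F) → ∀ a, R w (w * ι Γ i a)) :
    ∃ F' : Set (GP Γ A), F'.Finite ∧ ∃ w₀, ∀ w ∉ F', R w w₀ := by
  have h1 : ∀ (w : GP Γ A) {i j}, i ≠ j → {a | ∃ x, w * ι Γ i a * ι Γ j x ∈ F}.Finite :=
    fun w i j hij => by
      obtain ⟨r, r1, r2⟩ := exists_r (Γ := Γ) (A := A) i
      refine (hF.image fun f => (r w)⁻¹ * r f).subset ?_
      rintro a ⟨x, hx⟩
      exact ⟨_, hx, by simp [r1, r2 j x hij.symm]⟩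
  have h2 : {w : GP Γ A | (∃ a, w * ι Γ i₀ a ∈ F) ∧ ∃ a, w * ι Γ j₀ a ∈ F}.Finite := by
    refine (hF.biUnion fun f _ => (h1 f h0).image fun a => f * ι Γ i₀ a).subset ?_
    rintro w ⟨⟨a, ha⟩, x, hx⟩
    exact Set.mem_biUnion ha ⟨a⁻¹, ⟨x, by simpa using hx⟩, by simp⟩
  have h3 : ∀ w ∉ {w : GP Γ A | (∃ a, w * ι Γ i₀ a ∈ F) ∧ ∃ a, w * ι Γ j₀ a ∈ F},
      ∃ i, ∀ a, R w (w * ι Γ i a) := fun w hw => by
    rcases not_and_or.1 hw with e | e
    exacts [⟨_, h w _ (not_exists.1 e)⟩, ⟨_, h w _ (not_exists.1 e)⟩]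
  have : Infinite (GP Γ A) := Infinite.of_injective (ι Γ i₀) fun _ _ => ι_inj
  obtain ⟨w₀, hw₀⟩ := h2.exists_notMem
  let P : GP Γ A → I → Prop := fun w i => {a | ¬ R (w * ι Γ i a) w₀}.Finite
  have step : ∀ w i, P w i → ∀ j, P w j := fun w i hi j => by
    induction hI i j with
    | refl => exact hi
    | @tail j k _ hjk ih =>
      obtain ⟨a, ha⟩ := (ih.union (h1 w hjk.1)).exists_notMem
      simp only [Set.mem_union, Set.mem_ofPred_eq, not_or, not_not, not_exists] at ha
      refine (h1 w hjk.1.symm).subset fun x hx => by_contra fun hx' => hx ?_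
      have := h _ _ (not_exists.1 hx') a
      rw [mul_assoc, ← comm hjk.1 hjk.2, ← mul_assoc] at this
      exact trans this (trans (symm (h _ _ ha.2 x)) ha.1)
  have all : ∀ u i, P (w₀ * u) i := fun u => by
    induction u using GP.ind with
    | h1 =>
      obtain ⟨i, hi⟩ := h3 w₀ hw₀
      exact step _ i (Set.finite_empty.subset fun a ha => ha (by simpa using symm (hi a)))
    | hs u i a ih =>
      refine step _ i (((ih i).preimage (mul_right_injective a).injOn).subset fun x hx => ?_)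
      simpa [mul_assoc] using hx
  refine ⟨_, h2, w₀, fun w hw => ?_⟩
  obtain ⟨i, hi⟩ := h3 w hw
  obtain ⟨a, ha⟩ := (all (w₀⁻¹ * w) i).exists_notMem
  exact trans (hi a) (by simpa using ha)

instance : TopologicalSpace (GP Γ A) := ⊥
instance : DiscreteTopology (GP Γ A) := ⟨rfl⟩

namespace BG

variable {B : Type} [Group B] [MulAction B A] [TopologicalSpace B] [TopologicalSpace (Perm I)]
  [DiscreteTopology (Perm I)] [TopologicalSpace I] [DiscreteTopology I]

instance : TopologicalSpace (BG Γ A B) := .induced BG.q inferInstance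

theorem cont_q : Continuous (BG.q : BG Γ A B → _) := continuous_induced_dom

theorem cont_smul (v : GP Γ A) : Continuous fun g : BG Γ A B => g • v :=
  (continuous_apply v).comp (continuous_fst.comp cont_q)

theorem cont_σ (v : GP Γ A) : Continuous fun g : BG Γ A B => σ g v :=
  (continuous_apply v).comp (continuous_fst.comp (continuous_snd.comp cont_q))

theorem cont_ρ (v : GP Γ A) (i : I) : Continuous fun g : BG Γ A B => ρ g v i :=
  (continuous_apply i).comp
    ((continuous_apply v).comp (continuous_snd.comp (continuous_snd.comp cont_q)))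

instance : ContinuousSMul (BG Γ A B) (GP Γ A) := ⟨continuous_prod_of_discrete_right.2 cont_smul⟩

theorem cont_σ' : Continuous fun p : BG Γ A B × GP Γ A => σ p.1 p.2 :=
  continuous_prod_of_discrete_right.2 cont_σ

theorem cont_ρ' : Continuous fun p : BG Γ A B × GP Γ A × I => ρ p.1 p.2.1 p.2.2 :=
  continuous_prod_of_discrete_right.2 fun p => cont_ρ p.1 p.2

theorem cont_inv (v : GP Γ A) : Continuous fun g : BG Γ A B => g⁻¹ • v :=
  continuous_discrete_rng.2 fun w => by
    have : (fun g : BG Γ A B => g⁻¹ • v) ⁻¹' {w} = (fun g : BG Γ A B => g • w) ⁻¹' {v} :=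
      Set.ext fun g => inv_smul_eq_iff.trans eq_comm
    exact this ▸ (isOpen_discrete _).preimage (cont_smul w)

theorem cont_of {Y : Type} [TopologicalSpace Y] {f : Y → BG Γ A B}
    (h1 : ∀ v : GP Γ A, Continuous fun y => f y • v) (h2 : ∀ v, Continuous fun y => σ (f y) v)
    (h3 : ∀ v i, Continuous fun y => ρ (f y) v i) : Continuous f :=
  continuous_induced_rng.2 ((continuous_pi h1).prodMk
    ((continuous_pi h2).prodMk (continuous_pi fun v => continuous_pi (h3 v))))

instance [IsTopologicalGroup B] : IsTopologicalGroup (BG Γ A B) where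
  continuous_mul := cont_of (fun v => by
      simp only [mul_smul]
      exact continuous_fst.smul ((cont_smul v).comp continuous_snd)) (fun v => by
    simp only [σ_mul]
    exact (continuous_of_discreteTopology (f := fun t : Perm I × Perm I => t.1 * t.2)).comp
      ((cont_σ'.comp (continuous_fst.prodMk ((cont_smul v).comp continuous_snd))).prodMk
        ((cont_σ v).comp continuous_snd))) fun v i => by
    simp only [ρ_mul]
    exact (cont_ρ'.comp (continuous_fst.prodMk (((cont_smul v).comp continuous_snd).prodMk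
      ((continuous_of_discreteTopology (f := fun t : Perm I => t i)).comp
        ((cont_σ v).comp continuous_snd))))).mul ((cont_ρ v i).comp continuous_snd)
  continuous_inv := cont_of cont_inv (fun v =>
    (continuous_of_discreteTopology (f := fun t : Perm I => t⁻¹)).comp
      (cont_σ'.comp (continuous_id.prodMk (cont_inv v)))) fun v i =>
    (cont_ρ'.comp (continuous_id.prodMk ((cont_inv v).prodMk
      ((continuous_of_discreteTopology (f := fun t : Perm I => t⁻¹ i)).comp
        (cont_σ'.comp (continuous_id.prodMk (cont_inv v))))))).inv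

variable [TopologicalSpace A] [DiscreteTopology A] [ContinuousSMul B A]

theorem isEmb : IsClosedEmbedding (BG.q : BG Γ A B → _) := by
  refine ⟨⟨⟨rfl⟩, fun _ _ => BG.ext⟩, ?_⟩
  have : Set.range (BG.q : BG Γ A B → _) = {q | Cnd Γ A B q} :=
    Set.ext fun p => ⟨fun ⟨g, e⟩ => e ▸ g.2, fun h => ⟨⟨p, h⟩, rfl⟩⟩
  simp only [this, Cnd, Function.Injective, Set.ofPred_and, Set.ofPred_forall]
  refine (isClosed_iInter fun v => isClosed_iInter fun w => ?_).inter
    ((isClosed_iInter fun w => isClosed_iInter fun i => isClosed_iInter fun a => ?_).inter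
    ((isClosed_iInter fun w => ?_).inter ((isClosed_iInter fun w => isClosed_iInter fun i =>
    isClosed_iInter fun a => isClosed_iInter fun j => isClosed_iInter fun _ => ?_).inter
    (isClosed_iInter fun w => isClosed_iInter fun i => ?_))))
  · exact (isClosed_discrete {t : GP Γ A × GP Γ A | t.1 = t.2 → v = w}).preimage
      (f := fun q : (GP Γ A → GP Γ A) × _ => (q.1 v, q.1 w)) (by fun_prop)
  · exact (isClosed_discrete {t : GP Γ A × GP Γ A × Perm I × A |
        t.1 = t.2.1 * ι Γ (t.2.2.1 i) t.2.2.2}).preimage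
      (f := fun q : (GP Γ A → GP Γ A) × (GP Γ A → Perm I) × (GP Γ A → I → B) =>
        (q.1 (w * ι Γ i a), q.1 w, q.2.1 w, q.2.2 w i • a)) (by fun_prop)
  · exact (isClosed_discrete (Au Γ : Set (Perm I))).preimage
      (f := fun q : _ × (GP Γ A → Perm I) × _ => q.2.1 w) (by fun_prop)
  · exact (isClosed_discrete {t : Perm I × Perm I | t.1 j = t.2 j}).preimage
      (f := fun q : _ × (GP Γ A → Perm I) × _ => (q.2.1 (w * ι Γ i a), q.2.1 w)) (by fun_prop)
  · exact (isClosed_discrete {(1 : A)}).preimage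
      (f := fun q : _ × _ × (GP Γ A → I → B) => q.2.2 w i • (1 : A)) (by fun_prop)

theorem isCompact_stab [Finite I] (hU : IsCompact (stabilizer B (1 : A) : Set B)) :
    IsCompact (stabilizer (BG Γ A B) (1 : GP Γ A) : Set (BG Γ A B)) := by
  have key : ∀ w : GP Γ A, ((fun g : BG Γ A B => g • w) '' {g | g • (1 : GP Γ A) = 1}).Finite := by
    intro w
    induction w using GP.ind with
    | h1 => exact (Set.finite_singleton 1).subset (by rintro _ ⟨g, hg, rfl⟩; exact hg)
    | hs w i a ih =>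
      refine ((ih.prod ((Set.finite_univ (α := I)).prod (hU.image
        (f := fun b => b • a) (by fun_prop)).finite_of_discrete)).image
        fun t => t.1 * ι Γ t.2.1 t.2.2).subset ?_
      rintro _ ⟨g, hg, rfl⟩
      exact ⟨(g • w, σ g w i, ρ g w i • a), ⟨⟨g, hg, rfl⟩, trivial, _, ρ_one g w i, rfl⟩,
        (smul_ι g w i a).symm⟩
  refine (isEmb.isCompact_preimage ((isCompact_univ_pi fun v => (key v).isCompact).prod
    (isCompact_univ.prod (isCompact_univ_pi fun _ => isCompact_univ_pi fun _ => hU)))).of_isClosed_subset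
    ((isClosed_discrete {1}).preimage (cont_smul 1)) fun g hg =>
      ⟨fun v _ => ⟨g, hg, rfl⟩, trivial, fun v _ i _ => ρ_one g v i⟩

variable [FaithfulSMul B A] [Nontrivial A] (e : A →* B) (he : ∀ a x : A, e a • x = a * x)

theorem cont_β [IsTopologicalGroup B] (i : I) : Continuous (β Γ e he i) := by
  classical
  refine cont_of (fun v => (continuous_of_discreteTopology
    (f := fun x : A => ι Γ i (x * (p i v)⁻¹) * v)).comp (f := fun b : B => b • p i v) (by fun_prop))
    (fun _ => continuous_const) fun v j => ?_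
  change Continuous fun b : B =>
    if j = i ∧ v ∈ St Γ A i then (e (b • p i v))⁻¹ * b * e (p i v) else 1
  have : Continuous e := continuous_of_discreteTopology
  split_ifs <;> fun_prop

end BG

end

/-! Primitivity, simplicity, one-endedness. -/

section

open GP Topology MulAction Equiv Filter

namespace BG

variable {I : Type} {Γ : Cm I} {A : Type} [Group A] {B : Type} [Group B] [MulAction B A]
  [TopologicalSpace B] [TopologicalSpace (Perm I)] [DiscreteTopology (Perm I)] [TopologicalSpace I]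
  [DiscreteTopology I] [TopologicalSpace A] [DiscreteTopology A] [ContinuousSMul B A]
  [FaithfulSMul B A] [Infinite A] [IsTopologicalGroup B] (e : A →* B)
  (he : ∀ a x : A, e a • x = a * x)

theorem exists_fix (hd : ¬ DiscreteTopology B) (x : A) :
    ∃ v : B, v ≠ 1 ∧ v • (1 : A) = 1 ∧ v • x = x := by
  by_contra! h
  refine hd (discreteTopology_of_isOpen_singleton_one ?_)
  convert (isOpen_discrete {((1 : A), x)}).preimage
    (f := fun b : B => (b • (1 : A), b • x)) (by fun_prop)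
  ext b
  refine ⟨fun hb => by simp [show b = 1 from hb], fun hb => by_contra fun h' => ?_⟩
  exact h b h' (congrArg Prod.fst hb) (congrArg Prod.snd hb)

include he in
theorem nonreg (hd : ¬ DiscreteTopology B) (hco : IsCoatom (stabilizer B (1 : A))) {x : A}
    (hx : x ≠ 1) : ∃ b : B, b • x = x ∧ b • (1 : A) ≠ 1 := by
  by_contra! h
  have : IsPretransitive B A := ⟨fun a b => ⟨e (b * a⁻¹), by rw [he, inv_mul_cancel_right]⟩⟩
  have h1 : IsCoatom (stabilizer B x) := by
    rwa [isCoatom_stabilizer_iff_preprimitive, ← isCoatom_stabilizer_iff_preprimitive _ (1 : A)]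
  have h2 : stabilizer B x = stabilizer B (1 : A) := (h1.le_iff_eq hco.1).1 h |>.symm
  have h3 : Subgroup.normalizer (stabilizer B (1 : A) : Set B) = ⊤ :=
    hco.2 _ (lt_of_le_of_ne Subgroup.le_normalizer fun e' => hx (by
      have : e x ∈ stabilizer B (1 : A) := e' ▸ Subgroup.mem_normalizer_iff''.2 fun b => by
        simp only [mem_stabilizer_iff, mul_smul, inv_smul_eq_iff, he, mul_one]
        exact (SetLike.ext_iff.1 h2 b).symm
      simpa [he] using this))
  obtain ⟨v, h4, h5, -⟩ := exists_fix hd (1 : A)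
  refine h4 (eq_of_smul_eq_smul fun y : A => ?_)
  have := (Subgroup.mem_normalizer_iff''.1 (h3 ▸ Subgroup.mem_top (e y)) v).1 h5
  simpa only [SetLike.mem_coe, mem_stabilizer_iff, mul_smul, inv_smul_eq_iff, he, mul_one,
    one_smul] using this

include he in
theorem nonab (hd : ¬ DiscreteTopology B) (hco : IsCoatom (stabilizer B (1 : A))) :
    ∃ u v : B, u • (1 : A) = 1 ∧ v • (1 : A) = 1 ∧ u * v ≠ v * u := by
  by_contra! h
  obtain ⟨x, hx⟩ := exists_ne (1 : A)
  obtain ⟨b, h1, h2⟩ := nonreg e he hd hco hx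
  obtain ⟨v, h3, h4, h5⟩ := exists_fix hd x
  have h6 : Subgroup.centralizer {v} = ⊤ := hco.2 _ (lt_of_le_of_ne
    (fun u hu => Subgroup.mem_centralizer_singleton_iff.2 (h u v hu h4)) fun e' => h2 (by
      have := h ((e x)⁻¹ * b * e x) ((e x)⁻¹ * v * e x)
        (by simp only [mul_smul, inv_smul_eq_iff, he, mul_one, h1])
        (by simp only [mul_smul, inv_smul_eq_iff, he, mul_one, h5])
      exact (e' ▸ Subgroup.mem_centralizer_singleton_iff.2 (by
        simp only [mul_assoc, mul_inv_cancel_left, mul_right_inj] at this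
        simpa only [← mul_assoc, mul_left_inj] using this) :
        b ∈ stabilizer B (1 : A))))
  refine h3 (eq_of_smul_eq_smul fun y : A => ?_)
  have := congrArg (· • (1 : A))
    (Subgroup.mem_centralizer_singleton_iff.1 (h6 ▸ Subgroup.mem_top (e y)))
  simpa only [mul_smul, h4, he, mul_one, one_smul] using this.symm

/-- Twists supported on the wing of type `i` of the base chamber. -/
def IsTw (i : I) (t : BG Γ A B) : Prop := t • (1 : GP Γ A) = 1 ∧ (∀ w j, ρ t w j = 1) ∧
  ∀ w, p i w ≠ 1 → t • w = w ∧ σ t w = 1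

variable (Γ) in
/-- The closed subgroup generated by the lifts and the twists. -/
noncomputable def MG : Subgroup (BG Γ A B) :=
  (Subgroup.closure {g | (∃ i b, g = β Γ e he i b) ∨ ∃ i, IsTw i g}).topologicalClosure

theorem β_mem (i : I) (b : B) : β Γ e he i b ∈ MG Γ e he :=
  Subgroup.le_topologicalClosure _ (Subgroup.subset_closure (Or.inl ⟨i, b, rfl⟩))

theorem T_mem (w : GP Γ A) : T w ∈ MG Γ e he := by
  induction w using GP.ind with
  | h1 => simp
  | hs w i a ih => rw [map_mul]; exact mul_mem ih (β_e e he i a ▸ β_mem e he i _)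

variable (Γ) in
/-- The twists move any type to any other type. -/
def TwTr : Prop := ∀ i j, Relation.ReflTransGen
  (fun i j => ∃ k, ∃ l ∈ Au Γ, (∀ m, Γ.st k m → l m = m) ∧ l i = j) i j

variable (hT : TwTr Γ) (hd : ¬ DiscreteTopology B) (hco : IsCoatom (stabilizer B (1 : A)))
include hT

theorem flag (i j : I) : ∃ g ∈ MG Γ e he, g • (1 : GP Γ A) = 1 ∧ σ g 1 i = j := by
  induction hT i j with
  | refl => exact ⟨1, one_mem _, one_smul _ _, rfl⟩
  | tail _ h ih =>
    obtain ⟨g, h1, h2, rfl⟩ := ih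
    obtain ⟨k, l, h3, h4, rfl⟩ := h
    obtain ⟨t, t1, rfl, t2⟩ := exists_twist (A := A) (B := B) h3 h4
    exact ⟨t * g, mul_mem (Subgroup.le_topologicalClosure _ (Subgroup.subset_closure
      (Or.inr ⟨k, t1, t2⟩))) h1, by rw [mul_smul, h2, t1], by rw [σ_mul, h2]; rfl⟩

include hd hco

theorem prim {K : Subgroup (BG Γ A B)} (hK : K ≤ MG Γ e he)
    (hs : ∀ g ∈ MG Γ e he, g • (1 : GP Γ A) = 1 → g ∈ K) {k : BG Γ A B} (hk : k ∈ K)
    (hk1 : k • (1 : GP Γ A) ≠ 1) : MG Γ e he ≤ K := by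
  have key : ∀ g ∈ MG Γ e he, ∀ k₁ ∈ K, ∀ k₂ ∈ K,
      g • k₁ • (1 : GP Γ A) = k₂ • (1 : GP Γ A) → g ∈ K := fun g hg k₁ h1 k₂ h2 h => by
    have := hs (k₂⁻¹ * g * k₁) (mul_mem (mul_mem (inv_mem (hK h2)) hg) (hK h1))
      (by rw [mul_smul, mul_smul, h, inv_smul_smul])
    simpa [mul_assoc] using mul_mem (mul_mem h2 this) (inv_mem h1)
  obtain ⟨i, hi⟩ := exists_p_ne hk1
  obtain ⟨b, h1, h2⟩ := nonreg e he hd hco hi
  have h3 : K.comap (β Γ e he i) = ⊤ := hco.2 _ (lt_of_le_of_ne (fun u hu =>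
    hs _ (β_mem e he i u) (by simp [β_smul, show u • (1 : A) = 1 from hu])) fun e' => h2
      (e' ▸ key _ (β_mem e he i b) k hk k hk (by simp [β_smul, h1]) : b ∈ stabilizer B (1 : A)))
  have h4 : ∀ w, T w ∈ K := fun w => by
    induction w using GP.ind with
    | h1 => simp
    | hs w j a ih =>
      obtain ⟨g, g1, g2, rfl⟩ := flag e he hT i j
      rw [map_mul]
      refine mul_mem ih (key _ (T_mem e he _) 1 (one_mem _)
        (g * β Γ e he i (e ((ρ g 1 i)⁻¹ • a))) (mul_mem (hs g g1 g2)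
        (h3 ▸ Subgroup.mem_top _ : _ ∈ K.comap (β Γ e he i))) ?_)
      simpa [mul_smul, β_e, g2] using (smul_ι g 1 i ((ρ g 1 i)⁻¹ • a)).symm
  exact fun g hg => key g hg 1 (one_mem _) _ (h4 (g • 1)) (by simp)

theorem simple (hS : InS B) (h3 : ∀ k k', ∃ i, ¬ Γ.st k i ∧ ¬ Γ.st k' i) [Nonempty I]
    {N : Subgroup (BG Γ A B)} (hN : N ≤ MG Γ e he) (hc : IsClosed (N : Set (BG Γ A B)))
    (hn : ∀ g ∈ MG Γ e he, ∀ n ∈ N, g * n * g⁻¹ ∈ N) {n : BG Γ A B} (h1 : n ∈ N) (h2 : n ≠ 1) :
    MG Γ e he ≤ N := by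
  have tr : ∀ w, ∃ n ∈ N, n • (1 : GP Γ A) = w := fun w => by
    obtain ⟨u, hu⟩ : ∃ u : GP Γ A, n • u ≠ u := by
      by_contra! h
      exact h2 (ext' h)
    let K : Subgroup (BG Γ A B) :=
      { carrier := {g | g ∈ MG Γ e he ∧ ∃ n ∈ N, n • (1 : GP Γ A) = g • (1 : GP Γ A)}
        one_mem' := ⟨one_mem _, 1, one_mem _, rfl⟩
        mul_mem' := by
          rintro g g' ⟨g1, m, m1, m2⟩ ⟨g1', m', m1', m2'⟩
          exact ⟨mul_mem g1 g1', _, mul_mem (hn g g1 m' m1') m1, by
            simp only [mul_smul, m2, inv_smul_smul, m2']⟩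
        inv_mem' := by
          rintro g ⟨g1, m, m1, m2⟩
          exact ⟨inv_mem g1, _, hn _ (inv_mem g1) _ (inv_mem m1), by
            simp only [mul_smul, inv_inv, ← m2, inv_smul_smul]⟩ }
    have h4 := hn _ (T_mem e he u⁻¹) n h1
    simpa using (prim e he hT hd hco (K := K) (fun g hg => hg.1)
      (fun g hg e' => ⟨hg, 1, one_mem _, by simp [e']⟩) ⟨hN h4, _, h4, rfl⟩
      (by simpa [mul_smul, ← map_inv, inv_mul_eq_one, eq_comm] using hu) (T_mem e he w)).2
  have disp : ∀ j, ∃ n ∈ N, ∀ w : GP Γ A, p j w ≠ 1 → p j (n • w) = 1 := fun j => by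
    obtain ⟨k⟩ := ‹Nonempty I›
    obtain ⟨a, ha⟩ := exists_ne (1 : A)
    obtain ⟨n, n1, n2⟩ := tr (ι Γ k a)
    obtain ⟨i, i1, i2⟩ := h3 k ((σ n 1)⁻¹ k)
    obtain ⟨g, g1, g2, rfl⟩ := flag e he hT i j
    have hg : ∀ w : GP Γ A, p (σ g 1 i) (g • w) = 1 ↔ p i w = 1 := fun w => by
      rw [← ρ_eq_one (g := g) (w := 1) (i := i) (a := p i w), ← p_smul, g2]; simp
    refine ⟨_, hn g g1 n n1, fun w hw => ?_⟩
    obtain ⟨w, rfl⟩ := MulAction.surjective g w
    rw [mul_smul, mul_smul, inv_smul_smul, hg]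
    have h4 := mt (ρ_eq_one (g := n) (w := 1) (i := i)).1 (mt (hg w).2 hw)
    rw [← p_smul, n2, one_mul, ← map_inv] at h4
    have h5 := nest (j := k) (fun h => i2 (Γ.sy ((σ_st n 1 _ _).1 (by simpa using h)))) h4
    rw [p_ι_mul, inv_mul_eq_one] at h5
    exact nest i1 (h5 ▸ ha)
  have hβ : ∀ i b, β Γ e he i b ∈ N := fun i b => by
    have hnorm : (N.comap (β Γ e he i)).Normal := ⟨fun n hn' g => by
      simpa using hn _ (β_mem e he i g) _ hn'⟩
    refine ((hS.2.2.2 _ hnorm (hc.preimage (cont_β e he i))).resolve_left fun e' => ?_).ge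
      (Subgroup.mem_top b)
    obtain ⟨u, v, hu, hv, huv⟩ := nonab e he hd hco
    obtain ⟨n, n1, n2⟩ := disp i
    have f1 : ∀ u : B, u • (1 : A) = 1 → ∀ w : GP Γ A, p i w = 1 → β Γ e he i u • w = w :=
      fun u hu w hw => by simp [β_smul, hw, hu]
    have f2 : Perm.Disjoint (toPerm (β := GP Γ A) (n * β Γ e he i u⁻¹ * n⁻¹))
        (toPerm (β Γ e he i v)) := fun w => by
      obtain ⟨w, rfl⟩ := MulAction.surjective n w
      by_cases h : p i w = 1
      · exact Or.inl (by
          simp only [toPerm_apply, mul_smul, inv_smul_smul, f1 _ (inv_smul_eq_iff.2 hu.symm) w h])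
      · exact Or.inr (f1 v hv _ (n2 w h))
    have f3 : n * β Γ e he i u⁻¹ * n⁻¹ * β Γ e he i v = β Γ e he i v * (n * β Γ e he i u⁻¹ * n⁻¹) :=
      ext' fun w => by
        simpa only [mul_smul, Perm.mul_apply, toPerm_apply] using congrArg (· w) f2.commute.eq
    have h4 := mul_mem (hn _ (β_mem e he i u) n n1) (inv_mem n1)
    have h5 := mul_mem h4 (hn _ (β_mem e he i v) _ (inv_mem h4))
    have h6 : u * v * u⁻¹ * v⁻¹ ∈ N.comap (β Γ e he i) := by
      change β Γ e he i _ ∈ N
      convert h5 using 1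
      simp only [map_mul, map_inv] at f3 ⊢
      calc _ = β Γ e he i u * (n * (β Γ e he i u)⁻¹ * n⁻¹ * β Γ e he i v) *
          (n * (β Γ e he i u)⁻¹ * n⁻¹)⁻¹ * (β Γ e he i u)⁻¹ * (β Γ e he i v)⁻¹ := by
            rw [f3]; group
        _ = _ := by group
    rw [e', Subgroup.mem_bot, mul_inv_eq_one, mul_inv_eq_iff_eq_mul] at h6
    exact huv h6
  refine Subgroup.topologicalClosure_minimal _ ((Subgroup.closure_le _).2 ?_) hc
  rintro t (⟨i, b, rfl⟩ | ⟨i, ht⟩)
  · exact hβ i b
  have ht' : t ∈ MG Γ e he :=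
    Subgroup.le_topologicalClosure _ (Subgroup.subset_closure (Or.inr ⟨i, ht⟩))
  have h4 : Tendsto (fun a : A => T (ι Γ i a) * t * (T (ι Γ i a))⁻¹) cofinite (𝓝 1) := by
    have h5 : ∀ w : GP Γ A, ∀ᶠ a in cofinite, p i ((T (ι Γ i a) : BG Γ A B)⁻¹ • w) ≠ 1 := fun w =>
      (eventually_cofinite_ne (p i w)).mono fun a ha => by
        rwa [← map_inv, ← map_inv, T_smul, p_ι_mul, Ne, inv_mul_eq_one]
    refine isEmb.isEmbedding.tendsto_nhds_iff.2 <| (tendsto_pi_nhds.2 fun w =>
      tendsto_nhds_of_eventually_eq ((h5 w).mono fun a ha => ?_)).prodMk_nhds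
      ((tendsto_pi_nhds.2 fun w => tendsto_nhds_of_eventually_eq
        ((h5 w).mono fun a ha => ?_)).prodMk_nhds (tendsto_pi_nhds.2 fun w =>
        tendsto_pi_nhds.2 fun j => tendsto_nhds_of_eventually_eq (.of_forall fun a => ?_)))
    · change (T (ι Γ i a) * t * (T (ι Γ i a))⁻¹) • w = w
      rw [mul_smul, mul_smul, (ht.2.2 _ ha).1, smul_inv_smul]
    · change σ (T (ι Γ i a) * t * (T (ι Γ i a))⁻¹) w = 1
      rw [σ_mul, σ_mul, (ht.2.2 _ ha).2, ← map_inv]
      exact (mul_one _).trans (one_mul _)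
    · change ρ (T (ι Γ i a) * t * (T (ι Γ i a))⁻¹) w j = 1
      rw [ρ_mul, ρ_mul, ht.2.1, ← map_inv]
      exact (mul_one _).trans (one_mul _)
  have := hc.mem_of_tendsto (h4.const_mul t⁻¹) (.of_forall fun a => by
    have h5 := β_e e he i a ▸ hβ i (e a)
    simpa [mul_assoc] using mul_mem (hn _ (inv_mem ht') _ h5) (inv_mem h5))
  simpa using this

omit hT hd hco in
include he in
theorem smul_panel {g : BG Γ A B} {i : I} (h : (∃ a, g • (1 : GP Γ A) = ι Γ i a) ∧ σ g 1 i = i)
    (x : A) : g • ι Γ i x = ι Γ i ((e (p i (g • (1 : GP Γ A))) * ρ g 1 i) • x) ∧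
      σ g (ι Γ i x) i = i := by
  obtain ⟨⟨a, h1⟩, h2⟩ := h
  have := smul_ι g 1 i x
  rw [one_mul, h1, h2, ← map_mul] at this
  exact ⟨by rw [this, h1, p_ι, mul_smul, he], by simpa [h2] using σ_ι g 1 (Γ.rf i) x⟩

theorem main [Finite I] [Countable A] [SecondCountableTopology B] (hS : InS B) (S : Sys B)
    (hU : IsCompact (stabilizer B (1 : A) : Set B)) (h3 : ∀ k k', ∃ i, ¬ Γ.st k i ∧ ¬ Γ.st k' i)
    (hI : ∀ i j, Relation.ReflTransGen (fun i j => i ≠ j ∧ Γ.st i j) i j) {i j : I} (h0 : i ≠ j) :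
    InP (MG Γ e he) ∧ InS (MG Γ e he) ∧ OneEnded (MG Γ e he) ∧ ¬ SWellFounded (MG Γ e he) := by
  obtain ⟨-, _, _, _⟩ := hS.1
  have : Nonempty I := ⟨i⟩
  have hcl : IsClosed (MG Γ e he : Set (BG Γ A B)) := Subgroup.isClosed_topologicalClosure _
  have hv := hcl.isClosedEmbedding_subtypeVal
  have emb := (isEmb.comp hv).isEmbedding
  have : SecondCountableTopology (MG Γ e he) := emb.secondCountableTopology
  have hc : IsCompact (stabilizer (MG Γ e he) (1 : GP Γ A) : Set (MG Γ e he)) :=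
    hv.isCompact_preimage (isCompact_stab hU)
  have ho : IsOpen (stabilizer (MG Γ e he) (1 : GP Γ A) : Set (MG Γ e he)) :=
    (isOpen_discrete {1}).preimage ((cont_smul 1).comp hv.continuous)
  have td : IsTDLC (MG Γ e he) := ⟨inferInstance, emb.t2Space,
    hc.locallyCompactSpace_of_mem_nhds_of_group (ho.mem_nhds (one_mem _)),
    ⟨emb.isTotallyDisconnected (isTotallyDisconnected_of_totallyDisconnectedSpace _)⟩⟩
  let β' : I → B →* MG Γ e he := fun i => (β Γ e he i).codRestrict _ (β_mem e he i)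
  have cβ : ∀ i, Continuous (β' i) := fun i => (cont_β e he i).subtype_mk _
  let T' : GP Γ A →* MG Γ e he := T.codRestrict _ (T_mem e he)
  have hT' : ∀ w u : GP Γ A, T' w • u = w * u := fun _ _ => rfl
  have hβ' : ∀ i b (x : A), β' i b • ι Γ i x = ι Γ i (b • x) := fun i b x => by
    change β Γ e he i b • ι Γ i x = _
    rw [β_smul, p_ι, ← map_mul, inv_mul_cancel_right]
  have nd : ¬ DiscreteTopology (MG Γ e he) := fun _ => hd
    (DiscreteTopology.of_continuous_injective (cβ i) fun b b' h => eq_of_smul_eq_smul fun x : A =>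
      ι_inj (by rw [← hβ', h, hβ']))
  have hm : IsCoatom (stabilizer (MG Γ e he) (1 : GP Γ A)) := by
    obtain ⟨a, ha⟩ := exists_ne (1 : A)
    refine ⟨fun e' => ha (ι_inj (Γ := Γ) (i := i) ?_), fun M hM => ?_⟩
    · have : T' (ι Γ i a) ∈ stabilizer (MG Γ e he) (1 : GP Γ A) := e' ▸ Subgroup.mem_top _
      simpa [hT'] using this
    · obtain ⟨m, h1, h2⟩ := SetLike.exists_of_lt hM
      exact eq_top_iff.2 fun g _ => (Subgroup.mem_map_iff_mem Subtype.val_injective).1
        (prim e he hT hd hco (Subgroup.map_subtype_le M)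
          (fun g hg h => ⟨⟨g, hg⟩, hM.le h, rfl⟩) ⟨m, h1, rfl⟩ h2 g.2)
  have cg : CompGen (MG Γ e he) := by
    obtain ⟨g, -, hg⟩ := SetLike.exists_of_lt hm.lt_top
    refine ⟨insert g (stabilizer (MG Γ e he) (1 : GP Γ A)), hc.insert g, hm.2 _ (lt_of_le_of_ne
      (fun k hk => Subgroup.subset_closure (Or.inr hk)) fun e => hg ?_)⟩
    exact e ▸ Subgroup.subset_closure (Or.inl rfl)
  refine ⟨⟨td, nd, _, hm, hc, ho, eq_bot_iff.2 fun g hg => Subtype.ext (ext' fun w => ?_)⟩,
    ⟨td, nd, cg, fun N hN h => or_iff_not_imp_left.2 fun hne => ?_⟩,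
    ⟨exists_cayleyAbels cg _ hc ho, fun V _ X hX => ?_⟩, ?_⟩
  · have : ((T' w)⁻¹ * g * (T' w)⁻¹⁻¹) • (1 : GP Γ A) = 1 := hg (T' w)⁻¹
    rwa [inv_inv, mul_smul, mul_smul, inv_smul_eq_iff, hT', mul_one] at this
  · obtain ⟨⟨n, hn⟩, hn1⟩ := Subgroup.ne_bot_iff_exists_ne_one.1 hne
    refine eq_top_iff.2 fun g _ => (Subgroup.mem_map_iff_mem Subtype.val_injective).1
      (simple e he hT hd hco hS h3 (Subgroup.map_subtype_le N) (hv.isClosedMap _ h) ?_
        ⟨n, hn, rfl⟩ (fun h => hn1 (Subtype.ext (Subtype.ext h))) g.2)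
    rintro g hg _ ⟨m, hm, rfl⟩
    exact ⟨_, hN.conj_mem m hm ⟨g, hg⟩, rfl⟩
  · have : Infinite V := hX.infinite fun h => (Set.infinite_range_of_injective
      (f := ι Γ i) fun _ _ => ι_inj) ((finite_orbit ho h).subset (by
        rintro _ ⟨a, rfl⟩
        exact ⟨T' (ι Γ i a), trivial, (hT' _ 1).trans (mul_one _)⟩))
    refine existsUnique_end hX.1 hX.2.1 fun K => ?_
    obtain ⟨v⟩ := hX.1.nonempty
    obtain ⟨Cb, c1, c2⟩ := hS.2.2.1
    obtain ⟨C, hC, h1⟩ := hX.exists_compact v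
      (hc.union (isCompact_iUnion fun i => c1.image (cβ i))) K
    have h2 : ∀ g : MG Γ e he, g • (1 : GP Γ A) ∉ (fun g : MG Γ e he => g • (1 : GP Γ A)) '' C →
        g ∉ C := fun g h h' => h ⟨g, h', rfl⟩
    obtain ⟨F, hF, w₀, h4⟩ := one_end (R := fun u w => Cn X K (T' u • v) (T' w • v)) hI h0
      (finite_orbit ho hC) Cn.symm Cn.trans fun w i h a => by
        have h5 : ∀ b, T' w * β' i b ∉ C := fun b => h2 _ (by
          have := hβ' i b 1
          rw [map_one] at this
          rw [mul_smul, this, hT']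
          exact h _)
        have h6 : ∀ b ∈ Subgroup.closure Cb, ∀ b',
            Cn X K ((T' w * β' i b') • v) ((T' w * β' i (b' * b)) • v) := fun b hb => by
          induction hb using Subgroup.closure_induction with
          | mem t ht =>
            intro b'
            rw [map_mul, ← mul_assoc]
            exact h1 _ (h5 b') _ (Or.inr (Set.mem_iUnion.2 ⟨i, t, ht, rfl⟩))
          | one => exact fun b' => by simpa using h1 _ (h5 b') 1 (Or.inl (one_mem _))
          | mul g k _ _ h1 h2 => exact fun a => mul_assoc a g k ▸ (h1 a).trans (h2 (a * g))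
          | inv g _ h => exact fun a => by simpa using (h (a * g⁻¹)).symm
        have h7 : β' i (e a) = T' (ι Γ i a) := Subtype.ext (β_e e he i a)
        simpa [h7] using h6 (e a) (c2 ▸ Subgroup.mem_top _) 1
    refine ⟨_, finite_orbit (hX.2.2.2.2 v).2 ((hF.union (finite_orbit ho hC)).isCompact_biUnion
      fun w _ => isCompact_trans hc w), T' w₀ • v, fun x hx => ?_⟩
    obtain ⟨g, rfl⟩ := hX.2.2.2.1.exists_smul_eq v x
    have h5 := not_or.1 (mt (fun h => ⟨g, Set.mem_biUnion (x := g • (1 : GP Γ A)) h rfl, rfl⟩) hx)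
    have := h1 (T' (g • 1)) (h2 _ (by rw [hT', mul_one]; exact h5.2)) ((T' (g • 1))⁻¹ * g)
      (Or.inl (by rw [SetLike.mem_coe, mem_stabilizer_iff, mul_smul, inv_smul_eq_iff, hT', mul_one]))
    rw [mul_inv_cancel_left] at this
    exact this.symm.trans (h4 _ h5.1)
  · let O : Subgroup (MG Γ e he) :=
      { carrier := {g | (∃ a, g.1 • (1 : GP Γ A) = ι Γ i a) ∧ σ g.1 1 i = i}
        one_mem' := ⟨⟨1, by simp⟩, rfl⟩
        mul_mem' := by
          rintro g g' hg ⟨⟨a, h1⟩, h2⟩
          exact ⟨⟨_, by rw [Subgroup.coe_mul, mul_smul, h1, (smul_panel e he hg a).1]⟩, by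
            rw [Subgroup.coe_mul, σ_mul, h1, Perm.mul_apply, h2, (smul_panel e he hg a).2]⟩
        inv_mem' := by
          intro g hg
          obtain ⟨h1, h2⟩ := smul_panel e he hg ((e (p i (g.1 • (1 : GP Γ A))) * ρ g.1 1 i)⁻¹ • 1)
          rw [smul_inv_smul, map_one] at h1
          exact ⟨⟨_, inv_smul_eq_iff.2 h1.symm⟩, by
            rw [← h1, Subgroup.coe_inv, σ_inv, Perm.inv_eq_iff_eq, h2]⟩ }
    have hO : IsOpen (O : Set (MG Γ e he)) :=
      (isOpen_discrete {t : GP Γ A × Perm I | (∃ a, t.1 = ι Γ i a) ∧ t.2 i = i}).preimage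
        (((cont_smul 1).prodMk (cont_σ 1)).comp hv.continuous)
    let φ : O →* B := MonoidHom.mk' (fun g => e (p i (g.1.1 • (1 : GP Γ A))) * ρ g.1.1 1 i)
      fun g g' => eq_of_smul_eq_smul fun x : A => ι_inj (Γ := Γ) (i := i) (by
        rw [← (smul_panel e he (g * g').2 x).1, mul_smul, ← (smul_panel e he g.2 _).1,
          ← (smul_panel e he g'.2 _).1, ← mul_smul]
        rfl)
    have hφ : ∀ (g : O) (x : A), g.1.1 • ι Γ i x = ι Γ i (φ g • x) := fun g x =>
      (smul_panel e he g.2 x).1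
    have cφ : Continuous φ := ((continuous_of_discreteTopology (f := fun w => e (p i w))).comp
      ((cont_smul 1).comp (hv.continuous.comp continuous_subtype_val))).mul
        ((cont_ρ 1 i).comp (hv.continuous.comp continuous_subtype_val))
    refine S.not_wf_lift hO (φ := φ) ⟨isProperMap_iff_isCompact_preimage.2 ⟨cφ, fun C hC => ?_⟩,
      fun b => ⟨⟨β' i b, ⟨b • 1, by have := hβ' i b 1; rwa [map_one] at this⟩, rfl⟩,
        eq_of_smul_eq_smul fun x : A => ι_inj ((hφ _ x).symm.trans (hβ' i b x))⟩⟩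
    refine ((O.isClosed_of_isOpen hO).isClosedEmbedding_subtypeVal.isCompact_preimage
      ((hC.image (f := fun b => b • (1 : A)) (by fun_prop)).finite_of_discrete.isCompact_biUnion
        fun a _ => isCompact_trans hc (ι Γ i a))).of_isClosed_subset
      (hC.isClosed.preimage cφ) fun g hg => ?_
    exact Set.mem_biUnion (x := φ g • (1 : A)) ⟨_, hg, rfl⟩ 
      (by have := hφ g 1; rwa [map_one] at this)

end BG

end

/-! The example over the Petersen graph. -/

section

open GP Topology MulAction Equiv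

/-- The neighbours in the Petersen graph. -/
def pn : Fin 10 → Fin 3 → Fin 10 :=
  ![![7, 8, 9], ![5, 6, 9], ![4, 6, 8], ![4, 5, 7], ![2, 3, 9],
    ![1, 3, 8], ![1, 2, 7], ![0, 3, 6], ![0, 2, 5], ![0, 1, 4]]

/-- The Petersen graph. -/
def pet : Cm (Fin 10) where
  st i j := i = j ∨ ∃ k, pn i k = j
  rf _ := Or.inl rfl
  sy := by decide

instance : DecidableRel pet.st := fun i j => inferInstanceAs (Decidable (i = j ∨ ∃ k, pn i k = j))

/-- The automorphisms fixing a star. -/
def ptw : Fin 10 → Fin 10 → Fin 10 :=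
  ![![0, 4, 5, 6, 1, 2, 3, 7, 8, 9], ![4, 1, 7, 8, 0, 5, 6, 2, 3, 9],
    ![5, 7, 2, 9, 4, 0, 6, 1, 8, 3], ![6, 8, 9, 3, 4, 5, 0, 7, 1, 2],
    ![1, 0, 2, 3, 4, 7, 8, 5, 6, 9], ![2, 1, 0, 3, 7, 5, 9, 4, 8, 6],
    ![3, 1, 2, 0, 8, 9, 6, 7, 4, 5], ![0, 2, 1, 3, 5, 4, 6, 7, 9, 8],
    ![0, 3, 2, 1, 6, 5, 4, 9, 8, 7], ![0, 1, 3, 2, 4, 6, 5, 8, 7, 9]]

theorem pet_tw : BG.TwTr pet := fun i j => by
  have h1 : ∀ k, Function.Involutive (ptw k) := by unfold Function.Involutive; decide
  have h2 : ∀ k i j, pet.st (ptw k i) (ptw k j) ↔ pet.st i j := by decide +kernel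
  have h3 : ∀ k m, pet.st k m → ptw k m = m := by decide
  obtain ⟨k, k', rfl⟩ := (by decide +kernel : ∀ i j, ∃ k k', ptw k (ptw k' i) = j) i j
  exact .tail (.single ⟨k', (h1 k').toPerm _, h2 k', h3 k', rfl⟩)
    ⟨k, (h1 k).toPerm _, h2 k, h3 k, rfl⟩

theorem pet_conn (i j : Fin 10) : Relation.ReflTransGen (fun i j => i ≠ j ∧ pet.st i j) i j := by
  have h : ∀ i j, pet.st i j → Relation.ReflTransGen (fun i j => i ≠ j ∧ pet.st i j) i j :=
    fun i j h => if e : i = j then e ▸ .refl else .single ⟨e, h⟩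
  obtain ⟨k, h1, h2⟩ := (by decide : ∀ i j, ∃ k, pet.st i k ∧ pet.st k j) i j
  exact (h _ _ h1).trans (h _ _ h2)

theorem exists_of_regular {B Ω : Type} [Group B] [TopologicalSpace B] [IsTopologicalGroup B]
    [SecondCountableTopology B] [MulAction B Ω] [TopologicalSpace Ω] [DiscreteTopology Ω]
    [ContinuousSMul B Ω] [Countable Ω] (hS : InS B) (S : Sys B) {o : Ω}
    (h1 : IsCoatom (stabilizer B o)) (h2 : IsCompact (stabilizer B o : Set B))
    (h3 : (stabilizer B o).normalCore = ⊥) (A : Subgroup B) (h4 : ∀ g : B, ∃ a : A, a.1 • o = g • o)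
    (h5 : ∀ a a' : A, a.1 • o = a'.1 • o → a = a') :
    ∃ (G : Type) (_ : Group G) (_ : TopologicalSpace G),
      InP G ∧ InS G ∧ OneEnded G ∧ ¬ SWellFounded G := by
  choose c hc using h4
  let _ : MulAction B A :=
    { smul := fun b a => c (b * a)
      one_smul := fun a => h5 _ _ ((hc _).trans (by rw [one_mul]))
      mul_smul := fun b b' a => h5 _ _ ((hc _).trans ((hc _).trans (by
        change (b * (c (b' * a)).1) • o = _
        simp only [mul_smul, hc])).symm) }
  have key : ∀ (b : B) (a : A), (b • a).1 • o = b • a.1 • o := fun b a =>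
    (hc _).trans (mul_smul _ _ _)
  have hs : ∀ a : A, stabilizer B a = stabilizer B (a.1 • o) := fun a => Subgroup.ext fun b =>
    ⟨fun h => (key b a).symm.trans (congrArg (·.1 • o) h), fun h => h5 _ _ ((key b a).trans h)⟩
  have hs1 : stabilizer B (1 : A) = stabilizer B o := by simp [hs]
  let _ : TopologicalSpace A := ⊥
  have : DiscreteTopology A := ⟨rfl⟩
  have : ContinuousSMul B A := continuousSMul_iff_stabilizer_isOpen.2 fun a =>
    hs a ▸ stabilizer_isOpen B _
  have : FaithfulSMul B A := faithfulSMul_iff.2 fun b hb => h3.le fun g => by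
    have := key b (c g⁻¹)
    rw [hb, hc] at this
    rw [mem_stabilizer_iff, mul_smul, mul_smul, ← this, smul_inv_smul]
  have : Countable A := Function.Injective.countable (f := fun a : A => a.1 • o) h5
  have : Infinite A := not_finite_iff_infinite.1 fun _ => hS.not_compact ⟨by
    convert isCompact_iUnion fun a : A => isCompact_trans h2 (a.1 • o)
    exact (Set.eq_univ_of_forall fun g => Set.mem_iUnion.2 ⟨c g, (hc g).symm⟩).symm⟩
  let _ : TopologicalSpace (Perm (Fin 10)) := ⊥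
  have : DiscreteTopology (Perm (Fin 10)) := ⟨rfl⟩
  exact ⟨_, _, _, BG.main A.subtype (fun a x => h5 _ _ ((key a x).trans (mul_smul _ _ _).symm))
    pet_tw hS.2.1 (hs1 ▸ h1) hS S (hs1 ▸ h2) (by decide) pet_conn (i := 0) (j := 1) (by decide)⟩

theorem Loc.Fold.main' {X H : Type} [Group H] [MulAction H X] {D : Loc X H} [TopologicalSpace H]
    [DiscreteTopology H] [Finite X] [Finite H] [FaithfulSMul H X] (F : D.Fold) [IsPretransitive H X]
    (hc : ∀ x : X, IsCoatom (stabilizer H x)) (hg : ⨆ x, D.L x = ⊤) :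
    ∃ (G : Type) (_ : Group G) (_ : TopologicalSpace G),
      InP G ∧ InS G ∧ OneEnded G ∧ ¬ SWellFounded G := by
  obtain ⟨x, hx⟩ := F.admO.ne _ rfl true
  obtain ⟨y, -, hy⟩ := F.admO.two rfl true x
  have : Nontrivial X := ⟨y, x, hy⟩
  refine exists_of_regular (F.main hc hg).2.1 F.sys (Loc.coatom hc W.o) (Loc.isCompact_stab W.o)
    (Loc.core_eq W.o)
    { carrier := {g | ∀ v, Loc.σ g v = 1}
      one_mem' := fun _ => rfl
      mul_mem' := fun h h' v => by rw [Loc.σ_mul, h, h', one_mul]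
      inv_mem' := fun {g} h v => by
        rw [← smul_inv_smul g v, Loc.σ_inv, h, inv_one] } (fun g => ?_) fun a a' h => ?_
  · obtain ⟨a, h1, h2⟩ := Loc.exists_const (D := D) 1 (Loc.par_smul g W.o)
    exact ⟨⟨a, h2⟩, h1⟩
  · refine Subtype.ext (Loc.ext fun v => ?_)
    induction v using W.ind_o with
    | h0 => exact h
    | hs v x ih => rw [Loc.smul_s, Loc.smul_s, ih, a.2, a'.2]

theorem exists_simple_oneEnded : ∃ (G : Type) (_ : Group G) (_ : TopologicalSpace G),
    InP G ∧ InS G ∧ OneEnded G ∧ ¬ SWellFounded G := by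
  have : IsSimpleGroup (alternatingGroup (ZMod 9)) := alternatingGroup.isSimpleGroup (by simp)
  have hZ : ∀ b : alternatingGroup (ZMod 9), (∀ u, u * b = b * u) → b = 1 := fun b h => by
    have := Subgroup.mem_center_iff.2 h
    rwa [alternatingGroup.center_eq_bot (by simp), Subgroup.mem_bot] at this
  have hι : Function.Injective ι₉ := fun a b e => Multiplicative.toAdd.injective <|
    add_right_cancel (show a.toAdd + 0 = b.toAdd + 0 from congrArg (fun p => p.1 0) e)
  let _ : TopologicalSpace (Γ (alternatingGroup (ZMod 9))) := ⊥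
  have : DiscreteTopology (Γ (alternatingGroup (ZMod 9))) := ⟨rfl⟩
  have : Finite (Γ (alternatingGroup (ZMod 9))) :=
    Finite.of_equiv _ SemidirectProduct.equivProd.symm
  have : Finite (Pt (alternatingGroup (ZMod 9))) := Quotient.finite _
  have := faithful hZ
  exact (fold hι).main' (coatom_stab hZ) (gen_top hZ)

end

end Pool.Agent.Lib.MP_e7db20_al
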