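import Mathlib

/-!
Elementary groups, the decomposition rank, the relation of Reid on compactly generated open
subgroups, and the classes of simple and of primitive groups.
-/

namespace Pool.Agent.Lib.MP_e7db20_al

/-- A totally disconnected locally compact Hausdorff group. -/
def IsTDLC (G : Type) [Group G] [TopologicalSpace G] : Prop :=
  IsTopologicalGroup G ∧ T2Space G ∧ LocallyCompactSpace G ∧ TotallyDisconnectedSpace G

/-- A compactly generated group. -/
def CompGen (G : Type) [Group G] [TopologicalSpace G] : Prop :=
  ∃ C : Set G, IsCompact C ∧ Subgroup.closure C = ⊤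

/-- The class of nondiscrete, compactly generated, topologically simple t.d.l.c. groups. -/
def InS (G : Type) [Group G] [TopologicalSpace G] : Prop :=
  IsTDLC G ∧ ¬ DiscreteTopology G ∧ CompGen G ∧
    ∀ N : Subgroup G, N.Normal → IsClosed (N : Set G) → N = ⊥ ∨ N = ⊤

/-- Elementary groups. -/
inductive Elementary : (G : Type) → [Group G] → [TopologicalSpace G] → Prop
  | profinite (G : Type) [Group G] [TopologicalSpace G] :
      IsTDLC G → SecondCountableTopology G → CompactSpace G → Elementary G
  | discrete (G : Type) [Group G] [TopologicalSpace G] :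
      IsTDLC G → SecondCountableTopology G → DiscreteTopology G → Elementary G
  | extension (G : Type) [Group G] [TopologicalSpace G] (N : Subgroup G) [N.Normal] :
      IsTDLC G → SecondCountableTopology G → IsClosed (N : Set G) →
        Elementary N → Elementary (G ⧸ N) → Elementary G
  | union (G : Type) [Group G] [TopologicalSpace G] (O : ℕ → Subgroup G) :
      IsTDLC G → SecondCountableTopology G → Monotone O → (∀ i, IsOpen (O i : Set G)) →
        ⨆ i, O i = ⊤ → (∀ i, Elementary (O i)) → Elementary G

/-- The discrete residual: the intersection of all open normal subgroups. -/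
def Res (G : Type) [Group G] [TopologicalSpace G] : Subgroup G :=
  sInf {N | N.Normal ∧ IsOpen (N : Set G)}

/-- `RankLE n G` says that the decomposition rank of `G` is at most `n`. -/
def RankLE : ℕ → (G : Type) → [Group G] → [TopologicalSpace G] → Prop
  | 0, _, _, _ => False
  | n + 1, G, _, _ => Subsingleton G ∨ (CompGen G ∧ RankLE n (Res G)) ∨
      (¬ CompGen G ∧ ∀ O : Subgroup G, IsOpen (O : Set G) → CompGen O → RankLE n (Res O))

/-- The least closed normal subgroup whose quotient is elementary of finite rank. -/
def ResOmega (G : Type) [Group G] [TopologicalSpace G] : Subgroup G :=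
  sInf {N | ∃ _ : N.Normal, IsClosed (N : Set G) ∧ Elementary (G ⧸ N) ∧ ∃ n, RankLE n (G ⧸ N)}

/-- The relation `H ≪ K`. -/
def Ll {G : Type} [Group G] [TopologicalSpace G] (H K : Subgroup G) : Prop :=
  ¬ IsCompact (K : Set G) ∧ H ≤ K ∧
    IsCompact (closure ((QuotientGroup.mk : K → K ⧸ ResOmega K) '' (H.subgroupOf K))) ∧
    ∀ (N : Subgroup (ResOmega K)) [N.Normal], IsClosed (N : Set (ResOmega K)) →
      InS (ResOmega K ⧸ N) →
      (Subgroup.normalizer (N.map (ResOmega K).subtype : Set K)).FiniteIndex →
      (ResOmega H).map H.subtype ≤ (N.map (ResOmega K).subtype).map K.subtype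

/-- Every nonempty set of compactly generated open subgroups has a `≪`-minimal element. -/
def SWellFounded (G : Type) [Group G] [TopologicalSpace G] : Prop :=
  ∀ S : Set (Subgroup G), S.Nonempty → (∀ O ∈ S, IsOpen (O : Set G) ∧ CompGen O) →
    ∃ K ∈ S, ∀ H ∈ S, Ll H K → H = K

/-- Nondiscrete t.d.l.c. groups with a core-free compact open maximal subgroup. -/
def InP (G : Type) [Group G] [TopologicalSpace G] : Prop :=
  IsTDLC G ∧ ¬ DiscreteTopology G ∧ ∃ U : Subgroup G, IsCoatom U ∧ IsCompact (U : Set G) ∧
    IsOpen (U : Set G) ∧ U.normalCore = ⊥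

end Pool.Agent.Lib.MP_e7db20_al
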