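import Pool.Agent.Lib.MP_e7db20_al.Fold

/-! The groups of folded subtrees form a family closed under descent. -/

namespace Pool.Agent.Lib.MP_e7db20_al

open W Topology MulAction Pointwise Filter

namespace Loc

variable {X H : Type} [Group H] [MulAction H X] {D : Loc X H} {F : D.Fold}

theorem Adm.twist {R : Subgroup H} {T : Set (Bool → Set X)} (h : D.Adm R T) (e : Bool) :
    D.Adm R {q | (fun c => q (xor c e)) ∈ T} := by
  have h0 : ∀ (q : Bool → Set X) c, q c = q (xor (xor c e) e) := fun q c => by simp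
  refine ⟨fun q hq c => h0 q c ▸ h.ne _ hq _, fun q hq c c' x h1 h2 => ?_,
    fun q hq c x hx => h.sub _ hq (xor c e) x (h0 q c ▸ hx), fun q hq c x hx y hy => ?_,
    fun q hq r hr => h.inv _ hq r hr, fun q hq q' hq' c x h1 h2 => funext fun c' => ?_⟩
  · simpa using h.disj _ hq (xor c e) (xor c' e) x (h0 q c ▸ h1) (h0 q c' ▸ h2)
  · have := h.trans _ hq (xor c e) x (h0 q c ▸ hx) y (h0 q c ▸ hy)
    rwa [Rg, Function.Surjective.iUnion_comp (f := (xor · e))
      (fun c => ⟨xor c e, by simp⟩) q] at this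
  · simpa using congrFun (h.uniq _ hq _ hq' (xor c e) x (h0 q c ▸ h1) (h0 q' c ▸ h2)) (xor c' e)

theorem twist_single (O : Bool → Set X) (e : Bool) :
    {q : Bool → Set X | (fun c => q (xor c e)) ∈ ({O} : Set (Bool → Set X))} =
      {fun c => O (xor c e)} := by
  ext q
  constructor
  · rintro rfl; funext c; simp
  · rintro rfl; funext c; simp

/-- The initial sequence. -/
def Fold.seq (F : D.Fold) : Seq F where
  T n := {fun c => F.O (xor c (decide (Odd n)))}
  p := 2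
  e := false
  hp := by decide
  even := by decide
  adm n := twist_single F.O _ ▸ F.admO.twist _
  per n := by simp [Int.odd_add]
  thick := by simp
  mat := by
    rintro n _ rfl c x hx
    refine ⟨_, rfl, ?_⟩
    by_cases h : Odd n <;> cases c <;>
      simpa [ε, h, Int.odd_add, ← Int.not_odd_iff_even, ← sub_eq_add_neg, Int.odd_sub] using hx

theorem exists_zigzag {p : ℤ} (hp : 0 < p) : ∃ φ : ℤ → ℤ, Function.Periodic φ (4 * p) ∧ φ 0 = 0 ∧
    (∀ n, φ (n + 1) = φ n + 1 ∨ φ (n + 1) = φ n - 1) ∧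
    ∀ n, φ (n + 1) = φ (n - 1) → φ n = p ∨ φ n = -p := by
  have h1 : ∀ n, ((n + 1) % (4 * p) = n % (4 * p) + 1 ∨
      ((n + 1) % (4 * p) = 0 ∧ n % (4 * p) + 1 = 4 * p)) ∧ 0 ≤ n % (4 * p) ∧
      n % (4 * p) < 4 * p := fun n => by
    have a := Int.emod_nonneg n (b := 4 * p) (by omega)
    have b := Int.emod_lt_of_pos n (b := 4 * p) (by omega)
    refine ⟨?_, a, b⟩
    rw [← Int.emod_add_emod]
    rcases (Int.add_one_le_of_lt b).lt_or_eq with h | h
    · exact Or.inl (Int.emod_eq_of_lt (by omega) h)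
    · exact Or.inr ⟨by rw [h, Int.emod_self], h⟩
  refine ⟨fun n => p - |(n + p) % (4 * p) - 2 * p|, fun n => ?_, ?_, fun n => ?_, fun n => ?_⟩
  · simp only [add_right_comm n, Int.add_emod_right]
  · simp only [zero_add, Int.emod_eq_of_lt hp.le (show p < 4 * p by omega)]
    rw [abs_of_neg (by omega)]; omega
  · have := h1 (n + p)
    simp only [add_right_comm n 1, abs_eq_max_neg]
    omega
  · have a := h1 (n + p)
    have b := h1 (n - 1 + p)
    rw [show n - 1 + p + 1 = n + p by ring] at b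
    simp only [add_right_comm n 1, abs_eq_max_neg]
    omega

namespace Str

variable (S : Str F)

theorem exists_desc : ∃ S' : Str F, S'.K ≤ S.P ∧ S'.A ⊆ S.A := by
  classical
  obtain ⟨φ, hper, h0, h1, h2⟩ := exists_zigzag S.hp
  let r : ℤ → Bool → Bool := fun n c => decide (φ n < φ (n + ε c))
  have r1 : ∀ n c, φ (n + ε c) = φ n + ε (r n c) := fun n c => by
    have a := h1 n
    have b := h1 (n + -1)
    rw [neg_add_cancel_right] at b
    by_cases h : φ n < φ (n + ε c)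
    · rw [show r n c = true from decide_eq_true h]
      cases c <;> simp only [ε] at h ⊢ <;> omega
    · rw [show r n c = false from decide_eq_false h]
      cases c <;> simp only [ε] at h ⊢ <;> omega
  have r2 : ∀ n c, r (n + ε c) (!c) = !r n c := fun n c => by
    have a := r1 n c
    have : n + ε c + ε (!c) = n := by cases c <;> simp [ε]
    generalize hr : r n c = t at a
    simp only [r, this, a]
    cases t <;> simp [ε]
  have r3 : ∀ n, r n true ≠ r n false → ∀ c, r n c = xor c (r n false) := fun n h c => by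
    cases c
    · simp
    · simpa using Bool.eq_not.2 h
  have r4 : ∀ n, r n true = r n false → ∀ q ∈ S.T (φ n), q = fun c => F.O (xor c S.e) :=
    fun n h q hq => by
      have a := r1 n true
      have b := r1 n false
      rcases h2 n (by rw [h, ← b] at a; exact a) with e | e
      · exact eq_thick (k := 1) (by simpa [e] using hq)
      · exact eq_thick (k := -1) (by simpa [e] using hq)
  let T : ℤ → Set (Bool → Set X) := fun n => if r n true = r n false then F.θ (xor (r n true) S.e)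
    else {q | (fun c => q (xor c (r n false))) ∈ S.T (φ n)}
  have ne : ∀ n, (S.T n).Nonempty := fun n => by
    obtain ⟨ℓ, -, h⟩ := S.exists_line
    exact ⟨_, (h n).2.1 ▸ S.val (ℓ n)⟩
  have down : ∀ n, ∀ q' ∈ T n, ∃ q ∈ S.T (φ n), ∀ c, q' c ⊆ q (r n c) := fun n q' hq => by
    by_cases h : r n true = r n false
    · obtain ⟨q, hq'⟩ := ne (φ n)
      refine ⟨q, hq', fun c => ?_⟩
      have := F.θsub _ q' (by simpa only [T, if_pos h] using hq) c
      rw [r4 n h q hq']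
      cases c
      exacts [h ▸ this, this]
    · exact ⟨fun c => q' (xor c (r n false)), by simpa only [T, if_neg h, Set.mem_ofPred_eq] using hq,
        fun c => by simp [r3 n h c]⟩
  have up : ∀ n, ∀ q ∈ S.T (φ n), ∀ c, ∀ x ∈ q (r n c), ∃ q' ∈ T n, x ∈ q' c :=
    fun n q hq c x hx => by
      by_cases h : r n true = r n false
      · simp only [T, if_pos h]
        rw [r4 n h q hq] at hx
        cases c
        exacts [F.θsup _ _ x (h ▸ hx), F.θsup _ _ x hx]
      · refine ⟨fun c => q (xor c (r n false)), ?_, by rwa [r3 n h c] at hx⟩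
        simpa [T, if_neg h] using hq
  have hr0 : r 0 true ≠ r 0 false := fun h => by
    have a := r1 0 true
    have b := r1 0 false
    have := h2 0 (by rw [h, ← b] at a; exact a)
    have := S.hp
    omega
  obtain ⟨S', hS⟩ := Seq.exists_str (F := F)
    { T := T
      p := 4 * S.p
      e := xor (r 0 false) S.e
      hp := by have := S.hp; omega
      even := S.even.mul_left 4
      adm := fun n => by
        simp only [T]
        split_ifs
        exacts [F.admθ _, (S.adm _).twist _]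
      per := fun n => by simp only [T, r, add_right_comm n (4 * S.p), hper _]
      thick := by
        simp only [T, if_neg hr0, h0, S.thick]
        rw [twist_single]
        simp only [Bool.xor_assoc]
      mat := fun n q' hq c x hx => by
        obtain ⟨q, h3, h4⟩ := down n q' hq
        obtain ⟨q₂, h5, h6⟩ := S.mat _ q h3 _ x (h4 c hx)
        exact up _ q₂ (r1 n c ▸ h5) _ x (r2 n c ▸ h6) }
  have hT : S'.T = T := by rw [hS]
  have hp : S'.p = 4 * S.p := by rw [hS]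
  have key : ∀ v ∈ S'.A, v ∈ S.A ∧ S.pos v = φ (S'.pos v) ∧
      ∀ c, S'.q v c ⊆ S.q v (r (S'.pos v) c) := fun v hv => by
    refine A_ind (p := fun v => v ∈ S.A ∧ S.pos v = φ (S'.pos v) ∧
      ∀ c, S'.q v c ⊆ S.q v (r (S'.pos v) c)) ⟨S.o_mem, by rw [S.pos0, S'.pos0, h0], ?_⟩
      (fun v _ c x hx ih => ?_) hv
    · obtain ⟨q, h3, h4⟩ := down _ _ (hT ▸ S'.val o)
      rwa [(eq_thick (S := S) (k := 0) (q := q) (by simpa [S'.pos0, h0] using h3)).trans
        (eq_thick (k := 0) (q := S.q o) (by simpa [S.pos0] using S.val o)).symm] at h4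
    · have a := S.adj _ _ _ (ih.2.2 c hx)
      have b := S'.adj _ _ _ hx
      have e : S.pos (v.s x) = φ (S'.pos (v.s x)) := by rw [a.2, b.2, r1, ih.2.1]
      obtain ⟨q, h3, h4⟩ := down _ _ (hT ▸ S'.val (v.s x))
      refine ⟨s_mem_A ih.1 (ih.2.2 c hx), e, ?_⟩
      rwa [(S.adm _).uniq _ h3 _ (e ▸ S.val (v.s x)) _ x (h4 _ b.1)
        (by rw [b.2, r2]; exact a.1)] at h4
  refine ⟨S', ?_, fun v hv => (key v hv).1⟩
  rintro g ⟨k, hg⟩
  obtain ⟨h3, h4, h5, -⟩ := hg o S'.o_mem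
  have e : S.pos (g • o) = 0 := by
    rw [(key _ h3).2.1, h4, hp, S'.pos0]
    exact (hper.int_mul k 0).trans h0
  exact In.of S.o_mem (key _ h3).1 ⟨by simp [e, S.pos0], h5,
    (eq_thick (S := S) (k := 0) (by simpa only [e, zero_mul] using S.val (g • (o : W X)))).trans (eq_thick (k := 0)
      (by simpa [S.pos0] using (S.adm _).inv _ (S.val o) _ h5)).symm⟩

theorem cocompact : ∃ n, ∀ a ∈ S.A, ∃ k ∈ S.K, d o (k • a) ≤ n := by
  obtain ⟨ℓ, -, hℓ⟩ := S.exists_line
  obtain ⟨n, hn⟩ := ((Set.finite_Ico 0 S.p).image fun i => d o (ℓ i)).bddAbove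
  refine ⟨n, fun a ha => ?_⟩
  obtain ⟨h1, h2, -⟩ := hℓ (S.pos a / S.p * S.p)
  obtain ⟨t, ht, ht'⟩ := exists_const (D := D) 1 (a := ℓ (S.pos a / S.p * S.p)) (b := o) (by
    rw [par_iff h1, par_iff S.o_mem, h2, S.pos0]
    exact iff_of_true Even.zero (S.even.mul_left _))
  have hI : S.In (-(S.pos a / S.p)) t := In.of h1 (ht ▸ S.o_mem) ⟨by simp [ht, S.pos0, h2],
    by simp [ht'], by
      rw [ht, ht', one_smul, eq_thick (S := S) (k := S.pos a / S.p) (q := S.q (ℓ _))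
        (by simpa only [h2] using S.val (ℓ (S.pos a / S.p * S.p)))]
      exact eq_thick (k := 0) (by simpa [S.pos0] using S.val o)⟩
  obtain ⟨m, hm, e⟩ := fiber_trans (fun v hv _ x _ => rist_le hv x) le_rfl (hI a ha).1
    (hℓ (S.pos a % S.p)).1 (by rw [(hI a ha).2.1, (hℓ _).2.1, Int.emod_def]; ring)
  exact ⟨m * t, ⟨_, In.mul hm hI⟩, by
    rw [mul_smul, e]
    exact hn ⟨_, ⟨Int.emod_nonneg _ S.hp.ne', Int.emod_lt_of_pos _ S.hp⟩, rfl⟩⟩

theorem far (i : ℕ) : ∃ w ∈ S.A, ∃ c, ∃ x ∈ S.q w c, o ∉ w.h x ∧ ∀ v ∈ w.h x, i ≤ d o v := by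
  induction i with
  | zero =>
    obtain ⟨x, hx⟩ := (S.adm _).ne _ (S.val o) true
    exact ⟨o, S.o_mem, _, x, hx, self_not_mem _ _, fun _ _ => Nat.zero_le _⟩
  | succ i ih =>
    obtain ⟨w, hw, c, x, hx, h1, h2⟩ := ih
    obtain ⟨z, hz, h⟩ := sub_half hw hx c
    exact ⟨_, s_mem_A hw hx, c, z, hz, fun h' => h1 (h h'), fun v hv =>
      (h2 _ (s_mem w x)).trans_lt (d_through hv _ _ (fun h' => h1 (h h')) rfl)⟩

variable [TopologicalSpace H] [DiscreteTopology H]

theorem isOpen_P : IsOpen (S.P : Set D.G) := by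
  have : (S.P : Set D.G) = (fun g : D.G => (g • (o : W X), σ g o)) ⁻¹' {t : W X × H | t.1 ∈ S.A ∧
      S.pos t.1 = S.pos o + 0 * S.p ∧ t.2 ∈ D.Rg F.O ∧ S.q t.1 = t.2 • S.q o} :=
    Set.ext fun g => ⟨fun h => h o S.o_mem, fun h => In.of S.o_mem h.1 h.2⟩
  exact this ▸ (isOpen_discrete _).preimage ((cont_smul o).prodMk (cont_σ o))

theorem compGen_K [Finite X] [Finite H] : CompGen S.K := by
  obtain ⟨n, hn⟩ := S.cocompact
  let C : Set D.G := {g | d o (g • (o : W X)) ≤ n + (n + 1)} ∩ S.K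
  have hle : Subgroup.closure C ≤ S.K := (Subgroup.closure_le _).2 Set.inter_subset_right
  have key : ∀ a ∈ S.A, ∃ γ ∈ Subgroup.closure C, d o (γ • a) ≤ n := fun a ha => by
    refine A_ind (p := fun a => ∃ γ ∈ Subgroup.closure C, d o (γ • a) ≤ n)
      ⟨1, one_mem _, by simp⟩ ?_ ha
    rintro v hv c x hx ⟨γ, h1, h2⟩
    obtain ⟨j, hj⟩ := hle h1
    obtain ⟨k, h3, h4⟩ := hn _ (hj _ (s_mem_A hv hx)).1
    refine ⟨k * γ, mul_mem (Subgroup.subset_closure ⟨?_, h3⟩) h1, by rwa [mul_smul]⟩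
    have a := d_tri o (k • γ • v.s x) (k • o)
    have b := d_s' o (γ • v) (σ γ v • x)
    rw [d_smul, d_comm _ o] at a
    rw [← smul_s] at b
    change d o (k • o) ≤ _
    omega
  have : Subgroup.closure C = S.K := le_antisymm hle fun g ⟨j, hj⟩ => by
    obtain ⟨γ, h1, h2⟩ := key _ (hj o S.o_mem).1
    simpa using mul_mem (inv_mem h1) (Subgroup.subset_closure (k := C) (a := γ * g)
      ⟨by rw [Set.mem_ofPred_eq, mul_smul]; omega, mul_mem (hle h1) ⟨j, hj⟩⟩)
  exact this ▸ compGen_closure ((isCompact_ball o _).inter_right (Subgroup.isClosed_of_isOpen _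
    (Subgroup.isOpen_mono (fun g hg => ⟨0, hg⟩) S.isOpen_P)))

theorem not_isOpen : ¬ IsOpen (fixingSubgroup D.G S.A : Set D.G) := fun ho => by
  have : ∀ i, ∃ g : D.G, g ∉ fixingSubgroup D.G S.A ∧ ∀ v, d o v < i → Triv g v := fun i => by
    obtain ⟨w, hw, c, x, hx, -, h⟩ := S.far i
    obtain ⟨z, hz, hzx⟩ := (S.adm _).two (S.val (w.s x)) c x
    obtain ⟨l, hl, hlz⟩ := D.move hzx.symm
    obtain ⟨g, h1, h2, h3⟩ := exists_rist (w.s x) hl
    rw [s_s] at h1
    refine ⟨g, fun hg => hlz (s_inj (v := w.s x) ?_), fun v hv => h1 v fun h' => (h v h').not_gt hv⟩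
    rw [← (mem_fixingSubgroup_iff _).1 hg _ (s_mem_A (s_mem_A hw hx) hz), smul_s, h2, h3]
  choose g h1 h2 using this
  have ht : Tendsto g atTop (𝓝 1) := isEmb.isEmbedding.tendsto_nhds_iff.2 <|
    (tendsto_pi_nhds.2 fun v => tendsto_nhds_of_eventually_eq
      ((eventually_gt_atTop _).mono fun i hi => (h2 i v hi).1)).prodMk_nhds
    (tendsto_pi_nhds.2 fun v => tendsto_nhds_of_eventually_eq
      ((eventually_gt_atTop _).mono fun i hi => (h2 i v hi).2))
  obtain ⟨i, hi⟩ := (ht.eventually (ho.mem_nhds (one_mem _))).exists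
  exact h1 i hi

theorem chain : ∃ J : ℕ → Subgroup D.G, Monotone J ∧ (∀ m, IsOpen (J m : Set D.G)) ∧
    (∀ m, fixingSubgroup D.G S.A ⊓ S.K ≤ J m) ∧ (∀ m, ¬ S.P ≤ J m) ∧ ∀ p ∈ S.P, ∃ m, p ∈ J m := by
  have mono : ∀ {m m' : ℕ}, m ≤ m' → ∀ {v}, S.Conn (|·| ≤ m) o v → S.Conn (|·| ≤ m') o v :=
    fun {m m'} h v hv => Relation.ReflTransGen.mono
      (fun _ _ ⟨h1, h2, h3⟩ => ⟨h1.trans (by omega), h2.trans (by omega), h3⟩) _ _ hv
  refine ⟨fun m =>
    { carrier := {g | S.In 0 g ∧ S.Conn (|·| ≤ m) o (g • o)}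
      one_mem' := ⟨S.P.one_mem, .refl⟩
      mul_mem' := fun {a b} ha hb => ⟨ha.1.mul hb.1, Relation.ReflTransGen.trans ha.2
        ((ha.1 o S.o_mem).2.conn (by simp) hb.2).1⟩
      inv_mem' := fun {a} ha => ⟨ha.1.inv, by
        simpa using ((ha.1.inv _ (ha.1 o S.o_mem).1).2.conn (by simp) ha.2.symm).1⟩ },
    fun m m' h g hg => ⟨hg.1, mono h hg.2⟩, fun m => S.isOpen_P.inter
      ((isOpen_discrete {v | S.Conn (|·| ≤ m) o v}).preimage (cont_smul o)),
    fun m g ⟨h1, k, hk⟩ => ?_, fun m h => ?_, fun p hp => ?_⟩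
  · have e : g • o = o := (mem_fixingSubgroup_iff _).1 h1 o S.o_mem
    obtain ⟨h2, h3, h4⟩ := hk o S.o_mem
    exact ⟨In.of S.o_mem h2 ⟨by simp [e], h4⟩, by rw [e]; exact .refl⟩
  · obtain ⟨ℓ, -, hℓ⟩ := S.exists_line
    obtain ⟨h1, h2, -⟩ := hℓ (m + 1)
    obtain ⟨x, hx⟩ := exists_h (v := ℓ (m + 1)) (w := o) fun e => by
      rw [← e, S.pos0] at h2; omega
    obtain ⟨z, hz, hzx⟩ := (S.adm _).two (S.val (ℓ (m + 1))) true x
    obtain ⟨l, hl, hlx⟩ := D.move hzx
    obtain ⟨g, h3, h4, h5⟩ := exists_rist (ℓ (m + 1)) hl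
    have key : ∀ v, S.Conn (|·| ≤ m) o v → v ∈ (ℓ (m + 1)).h x := fun v hv => by
      induction hv with
      | refl => exact hx
      | tail _ h ih =>
        obtain ⟨-, q2, c, y, -, rfl⟩ := h
        by_contra hh
        obtain ⟨rfl, rfl⟩ := exit ih hh
        rw [s_s, h2, abs_le] at q2
        omega
    have := (smul_mem_h g).2 hx
    rw [h4, h5] at this
    exact hlx (h_unique this (key _ (h (rist_le (s_mem_A h1 hz) z h3)).2))
  · suffices ∀ v ∈ S.A, ∃ m : ℕ, S.Conn (|·| ≤ m) o v from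
      (this _ (hp o S.o_mem).1).imp fun m h => ⟨hp, h⟩
    intro v hv
    refine A_ind (p := fun v => ∃ m : ℕ, S.Conn (|·| ≤ m) o v) ⟨0, .refl⟩ ?_ hv
    rintro v - c x hx ⟨m, hm⟩
    exact ⟨m + (S.pos v).natAbs + (S.pos (v.s x)).natAbs, (mono (by omega) hm).tail
      ⟨abs_le.2 (by omega), abs_le.2 (by omega), c, x, hx, rfl⟩⟩

end Str

variable [TopologicalSpace H] [DiscreteTopology H] [Finite X] [Finite H] [FaithfulSMul H X]

/-- The family of triples. -/
def Fold.sys (F : D.Fold) : Sys D.G where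
  Good K P Z := ∃ S : Str F, K = S.K ∧ P = S.P ∧ Z = fixingSubgroup D.G S.A
  ex := by
    obtain ⟨S, -⟩ := F.seq.exists_str
    exact ⟨_, _, _, S, rfl, rfl, rfl⟩
  le := by rintro _ _ _ ⟨S, rfl, rfl, rfl⟩ g hg; exact ⟨0, hg⟩
  isOpen := by rintro _ _ _ ⟨S, rfl, rfl, rfl⟩; exact S.isOpen_P
  conj := by
    rintro _ _ _ ⟨S, rfl, rfl, rfl⟩ k ⟨j, hj⟩ p hp
    change S.In 0 _
    simpa using (hj.mul hp).mul hj.inv
  cg := by rintro _ _ _ ⟨S, rfl, rfl, rfl⟩; exact S.compGen_K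
  tits := by rintro _ _ _ ⟨S, rfl, rfl, rfl⟩; exact Str.tits'
  nopen := by rintro _ _ _ ⟨S, rfl, rfl, rfl⟩; exact S.not_isOpen
  chain := by rintro _ _ _ ⟨S, rfl, rfl, rfl⟩; exact S.chain
  desc := by
    rintro _ _ _ ⟨S, rfl, rfl, rfl⟩
    obtain ⟨S', h1, h2⟩ := S.exists_desc
    exact ⟨_, _, _, ⟨S', rfl, rfl, rfl⟩, h1, fixingSubgroup_antitone _ _ h2⟩

theorem Fold.main (F : D.Fold) [IsPretransitive H X] (hc : ∀ x : X, IsCoatom (stabilizer H x))
    (hg : ⨆ x, D.L x = ⊤) : InP D.G ∧ InS D.G ∧ ¬ SWellFounded D.G := by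
  obtain ⟨x₀, -⟩ := F.admO.ne _ rfl true
  have : Nonempty X := ⟨x₀⟩
  obtain ⟨K, P, Z, h⟩ := F.sys.ex
  refine and_assoc.1 ⟨inP_inS hc hg (fun y y' => ?_)
    (fun _ => F.sys.nopen h (isOpen_discrete _)), F.sys.not_wf⟩
  obtain ⟨z, h1, h2⟩ := F.admO.two rfl true y
  obtain ⟨z', h1', h2'⟩ := F.admO.two rfl false y
  by_cases e : z = y'
  · exact ⟨z', h2', fun e' => Bool.noConfusion (F.admO.disj _ rfl _ _ z h1 (e ▸ e' ▸ h1'))⟩
  · exact ⟨z, h2, e⟩

end Loc

end Pool.Agent.Lib.MP_e7db20_al
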