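import Pool.Agent.Lib.MP_e7db20_al.Desc

/-! The primitive group of diagonal type on three factors. -/

namespace Pool.Agent.Lib.MP_e7db20_al

open MulAction Pointwise SemidirectProduct Equiv

variable {T : Type} [Group T]

/-- Permuting the factors. -/
def pa : Perm (Fin 3) →* MulAut (Fin 3 → T) := mulAutArrow

variable (T) in
/-- The wreath product. -/
abbrev Γ : Type := (Fin 3 → T) ⋊[pa] Perm (Fin 3)

variable (T) in
/-- The cosets of the diagonal. -/
def Pt : Type := (Fin 3 → T) ⧸ (Pi.constMonoidHom (Fin 3) T).range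

/-- The coset of a triple. -/
def mkP (t : Fin 3 → T) : Pt T := QuotientGroup.mk t

theorem mkP_surj (x : Pt T) : ∃ t, mkP t = x := QuotientGroup.mk_surjective x

theorem mkP_eq {s t : Fin 3 → T} : mkP s = mkP t ↔ ∃ c, ∀ i, t i = s i * c :=
  QuotientGroup.eq.trans ⟨fun ⟨c, h⟩ => ⟨c, fun i => inv_mul_eq_iff_eq_mul.1 (congrFun h i).symm⟩,
    fun ⟨c, h⟩ => ⟨c, funext fun i => (inv_mul_eq_iff_eq_mul.2 (h i)).symm⟩⟩

@[simp] theorem aut_apply (π : Perm (Fin 3)) (t : Fin 3 → T) (i : Fin 3) :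
    pa π t i = t (π⁻¹ i) := rfl

@[simp] theorem aut_symm_apply (π : Perm (Fin 3)) (t : Fin 3 → T) (i : Fin 3) :
    MulEquiv.symm (pa π) t i = t (π i) := rfl

instance : MulAction (Γ T) (Pt T) where
  smul γ := Quotient.map' (fun s i => γ.left i * s (γ.right⁻¹ i)) fun a b h => by
    obtain ⟨c, h⟩ := mkP_eq.1 (Quotient.sound' h)
    exact Quotient.exact' (mkP_eq.2 ⟨c, fun i => by rw [h, mul_assoc]⟩)
  one_smul x := by
    obtain ⟨t, rfl⟩ := mkP_surj x
    exact congrArg mkP (funext fun i => one_mul _)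
  mul_smul γ γ' x := by
    obtain ⟨t, rfl⟩ := mkP_surj x
    exact congrArg mkP (funext fun i => mul_assoc _ _ _)

theorem smul_mkP (γ : Γ T) (s : Fin 3 → T) :
    γ • mkP s = mkP fun i => γ.left i * s (γ.right⁻¹ i) := rfl

theorem inl_smul (t s : Fin 3 → T) : (inl t : Γ T) • mkP s = mkP (t * s) := rfl

instance : IsPretransitive (Γ T) (Pt T) := ⟨fun x y => by
  obtain ⟨s, rfl⟩ := mkP_surj x
  obtain ⟨t, rfl⟩ := mkP_surj y
  exact ⟨inl (t * s⁻¹), by rw [inl_smul, inv_mul_cancel_right]⟩⟩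

/-- The conjugate of a permutation of the factors. -/
def cj (t : Fin 3 → T) : Perm (Fin 3) →* Γ T := (MulAut.conj (inl t)).toMonoidHom.comp inr

theorem cj_apply (t : Fin 3 → T) (π : Perm (Fin 3)) :
    cj t π = ⟨fun i => t i * (t (π⁻¹ i))⁻¹, π⟩ := by
  ext <;> simp [cj]

theorem mem_L {t : Fin 3 → T} {l : Γ T} : l ∈ (cj (mkP t).out).range ↔ ∃ π, cj t π = l := by
  obtain ⟨c, h⟩ := mkP_eq.1 (Quotient.out_eq' (mkP t))
  simp [cj_apply, h]

variable (T) in
/-- The conjugates of the symmetric group. -/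
noncomputable def loc : Loc (Pt T) (Γ T) where
  L x := (cj x.out).range
  fix {x l} h := by
    obtain ⟨t, rfl⟩ := mkP_surj x
    obtain ⟨π, rfl⟩ := mem_L.1 h
    simp [cj_apply, smul_mkP]
  conj {x l} γ h := by
    obtain ⟨t, rfl⟩ := mkP_surj x
    obtain ⟨π, rfl⟩ := mem_L.1 h
    refine mem_L.2 ⟨γ.right * π * γ.right⁻¹, ?_⟩
    ext <;> simp [cj_apply, mul_assoc]
  move {x y} h := by
    obtain ⟨t, rfl⟩ := mkP_surj x
    obtain ⟨s, rfl⟩ := mkP_surj y
    by_contra! hh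
    have key : ∀ i j k : Fin 3, swap i j k = k → (t i)⁻¹ * s i = (t j)⁻¹ * s j := by
      intro i j k hk
      obtain ⟨c, hc⟩ := mkP_eq.1 (hh _ (mem_L.2 ⟨swap i j, rfl⟩))
      have h1 := hc k
      have h2 := hc i
      simp only [cj_apply, swap_inv, hk, swap_apply_left] at h1 h2
      obtain rfl : c = 1 := by simpa using h1
      rw [h2]; group
    refine h (mkP_eq.2 ⟨(t 0)⁻¹ * s 0, fun i => ?_⟩)
    have : (t 0)⁻¹ * s 0 = (t i)⁻¹ * s i := by
      fin_cases i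
      exacts [rfl, key 0 1 2 (by decide), key 0 2 1 (by decide)]
    rw [this, mul_inv_cancel_left]

theorem mem_loc {t : Fin 3 → T} {l : Γ T} : l ∈ (loc T).L (mkP t) ↔ ∃ π, cj t π = l := mem_L

variable (hZ : ∀ b : T, (∀ u, u * b = b * u) → b = 1)
include hZ

theorem faithful [Nontrivial T] : FaithfulSMul (Γ T) (Pt T) := by
  refine faithfulSMul_iff.2 fun γ h => ?_
  obtain ⟨d, hd⟩ := mkP_eq.1 (h (mkP 1)).symm
  simp only [Pi.one_apply, mul_one, one_mul] at hd
  have key : ∀ j u, d * Pi.mulSingle (M := fun _ => T) j u (γ.right⁻¹ j) = u * d := fun j u => by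
    obtain ⟨c, hc⟩ := mkP_eq.1 (h (mkP (Pi.mulSingle j u))).symm
    obtain ⟨i, h1, h2⟩ := (by decide : ∀ j k : Fin 3, ∃ i, i ≠ j ∧ i ≠ k) j (γ.right j)
    have h3 := hc i
    beta_reduce at h3
    rw [Pi.mulSingle_eq_of_ne h1, Pi.mulSingle_eq_of_ne (fun e => h2 (by simp [← e]))] at h3
    obtain rfl : d = c := by simpa [hd] using h3
    simpa [hd] using hc j
  have h1 : γ.right⁻¹ = 1 := Equiv.ext fun j => by
    obtain ⟨u, hu⟩ := exists_ne (1 : T)
    by_contra e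
    have := key j u
    rw [Pi.mulSingle_eq_of_ne (show γ.right⁻¹ j ≠ j from e)] at this
    exact hu (by simpa using this)
  obtain rfl : d = 1 := hZ d fun u => by simpa [h1] using (key 0 u).symm
  exact SemidirectProduct.ext (funext hd) (inv_eq_one.1 h1)

variable [IsSimpleGroup T]

theorem eq_top_of {M : Subgroup (Γ T)}
    (hD : ∀ d : T, ∀ m ∈ M, inl (fun _ => d) * m * (inl fun _ => d)⁻¹ ∈ M)
    (hS : ∀ π, inr π ∈ M) {a : Fin 3 → T} (ha : inl a ∈ M) {i j : Fin 3} (hi : a i = 1)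
    (hj : a j ≠ 1) : M = ⊤ := by
  have h1 : ∀ (π : Perm (Fin 3)) (a : Fin 3 → T), inl a ∈ M →
      inl (fun i => a (π⁻¹ i)) ∈ M := fun π a ha => by
    have := mul_mem (mul_mem (hS π) ha) (hS π⁻¹)
    rwa [← inl_aut] at this
  have h2 : ∀ (d : T) (a : Fin 3 → T), inl a ∈ M → inl (fun i => d * a i * d⁻¹) ∈ M :=
    fun d a ha => by
      have := hD d _ ha
      rwa [← map_inv, ← map_mul, ← map_mul] at this
  obtain ⟨π, rfl, rfl⟩ : ∃ π : Perm (Fin 3), π⁻¹ 0 = i ∧ π⁻¹ 1 = j := by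
    have : i ≠ j := fun e => hj (e ▸ hi)
    clear hi hj
    revert i j
    decide
  replace ha := h1 π a ha
  generalize hb : (fun i => a (π⁻¹ i)) = b at ha
  replace hi : b 0 = 1 := hb ▸ hi
  replace hj : b 1 ≠ 1 := hb ▸ hj
  let N : Subgroup T := M.comap (inl.comp (MonoidHom.mulSingle (fun _ => T) 1))
  have hN : N.Normal := ⟨fun u hu d => by
    have := h2 d _ hu
    change inl (Pi.mulSingle 1 (d * u * d⁻¹)) ∈ M
    refine (congrArg (inl · ∈ M) (funext fun i => ?_)).mp this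
    by_cases e : i = 1 <;> simp [e]⟩
  have hc : ∀ d, b 1 * (d * b 1 * d⁻¹) * (b 1)⁻¹ * (d * b 1 * d⁻¹)⁻¹ ∈ N := fun d => by
    have h3 := h2 d _ (h1 (swap 0 2) b ha)
    have := mul_mem (mul_mem (mul_mem ha h3) (inv_mem ha)) (inv_mem h3)
    rw [← map_inv, ← map_inv, ← map_mul, ← map_mul, ← map_mul] at this
    refine (congrArg (inl · ∈ M) (funext fun i => ?_)).mp this
    fin_cases i <;> simp [hi, swap_apply_of_ne_of_ne]
  have hT : N = ⊤ := hN.eq_bot_or_eq_top.resolve_left fun e => by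
    let C := Subgroup.centralizer (conjugatesOf (b 1))
    have hC : C.Normal := ⟨fun c hc g x hx => by
      have := hc (g⁻¹ * x * g) (hx.trans (isConj_iff.2 ⟨g⁻¹, by simp⟩))
      calc x * (g * c * g⁻¹) = g * (g⁻¹ * x * g * c) * g⁻¹ := by group
        _ = _ := by rw [this]; group⟩
    have hb : b 1 ∈ C := fun x hx => by
      obtain ⟨d, rfl⟩ := isConj_iff.1 hx
      have := hc d
      rw [e, Subgroup.mem_bot, mul_inv_eq_one, mul_inv_eq_iff_eq_mul] at this
      exact this.symm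
    rcases hC.eq_bot_or_eq_top with e | e
    · exact hj (by simpa [e] using hb)
    · exact hj (hZ _ fun u => ((e ▸ Subgroup.mem_top u : u ∈ C) _ (IsConj.refl _)).symm)
  refine eq_top_iff.2 fun γ _ => ?_
  rw [← inl_left_mul_inr_right γ]
  refine mul_mem (Subgroup.pi_mem_of_mulSingle_mem (H := M.comap inl) _ fun i => ?_) (hS _)
  have := h1 (swap 1 i) _ (hT ▸ Subgroup.mem_top (γ.left i) : γ.left i ∈ N)
  refine (congrArg (inl · ∈ M) (funext fun k => ?_)).mp this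
  simp only [MonoidHom.mulSingle_apply, swap_inv, Pi.mulSingle_apply, swap_apply_eq_iff,
    swap_apply_left]

theorem coatom_stab (x : Pt T) : IsCoatom (stabilizer (Γ T) x) := by
  obtain ⟨u, hu⟩ := exists_ne (1 : T)
  have hne : mkP (Pi.mulSingle 0 u : Fin 3 → T) ≠ mkP 1 := fun e => by
    obtain ⟨c, hc⟩ := mkP_eq.1 e.symm
    exact hu (by simpa using (hc 0).trans (hc 1).symm)
  have : Nontrivial (Pt T) := ⟨_, _, hne⟩
  rw [isCoatom_stabilizer_iff_preprimitive, ← isCoatom_stabilizer_iff_preprimitive _ (mkP 1)]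
  refine ⟨fun e => hne ?_, fun M hM => ?_⟩
  · have : inl (Pi.mulSingle 0 u) ∈ stabilizer (Γ T) (mkP 1) := e ▸ Subgroup.mem_top _
    simpa [inl_smul] using this
  obtain ⟨γ, h1, h2⟩ := SetLike.exists_of_lt hM
  have hS : ∀ π, inr π ∈ M := fun π => hM.le (congrArg mkP (funext fun i => one_mul _))
  have hD : ∀ d : T, inl (fun _ => d) ∈ M := fun d => hM.le (mkP_eq.2 ⟨d⁻¹, by simp⟩)
  have h3 := mul_mem (mul_mem h1 (inv_mem (hS γ.right))) (inv_mem (hD (γ.left 0)))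
  rw [mul_inv_eq_iff_eq_mul.2 (inl_left_mul_inr_right γ).symm, ← map_inv, ← map_mul] at h3
  obtain ⟨j, hj⟩ : ∃ j, γ.left j * (γ.left 0)⁻¹ ≠ 1 := by
    by_contra! h
    exact h2 (mkP_eq.2 ⟨(γ.left 0)⁻¹, fun i => by simp [h]⟩)
  exact eq_top_of hZ (fun d m hm => mul_mem (mul_mem (hD d) hm) (inv_mem (hD d))) hS h3
    (i := 0) (by simp) hj

theorem gen_top : ⨆ x, (loc T).L x = ⊤ := by
  obtain ⟨u, hu⟩ := exists_ne (1 : T)
  have h1 : ∀ t π, cj t π ∈ ⨆ x, (loc T).L x := fun t π =>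
    Subgroup.mem_iSup_of_mem (mkP t) (mem_loc.2 ⟨π, rfl⟩)
  have hS : ∀ π, inr π ∈ ⨆ x, (loc T).L x := fun π => by simpa [cj] using h1 1 π
  have h2 := mul_mem (h1 (Pi.mulSingle 0 u) (swap 0 1)) (inv_mem (hS (swap 0 1)))
  rw [cj_apply, mk_eq_inl_mul_inr, mul_inv_cancel_right] at h2
  refine eq_top_of hZ (fun d m hm => ?_) hS h2 (i := 2) (j := 0)
    (by simp [swap_apply_of_ne_of_ne]) (by simpa using hu)
  induction hm using Subgroup.iSup_induction' with
  | hp x l hl => exact Subgroup.mem_iSup_of_mem _ ((loc T).conj _ hl)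
  | h1 => simp
  | hmul a b _ _ ha hb => simpa [mul_assoc] using mul_mem ha hb

end Pool.Agent.Lib.MP_e7db20_al
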