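import Pool.Agent.Lib.MP_e7db20_al.Building

/-! Every primitive group with a regular subgroup is the image of an open subgroup of a
one-ended simple primitive group under a proper map. -/

namespace Pool.Agent.Lib.MP_e7db20_al

set_option linter.unusedSectionVars false

section

open GP Topology MulAction Equiv Filter

namespace BG

variable {I : Type} {Γ : Cm I} {A : Type} [Group A] {B : Type} [Group B] [MulAction B A]
  [TopologicalSpace B] [TopologicalSpace (Perm I)] [DiscreteTopology (Perm I)] [TopologicalSpace I]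
  [DiscreteTopology I] [TopologicalSpace A] [DiscreteTopology A] [ContinuousSMul B A]
  [FaithfulSMul B A] [Infinite A] [IsTopologicalGroup B] (e : A →* B)
  (he : ∀ a x : A, e a • x = a * x)

/-- An element supported in a wing has trivial local data outside the wing. -/
theorem fix_data {g : BG Γ A B} {k : I} {a : A} (h : ∀ z : GP Γ A, p k z ≠ a → g • z = z)
    {w : GP Γ A} (hw : p k w ≠ a) : σ g w = 1 ∧ ∀ j, ρ g w j = 1 := by
  have key : ∀ j, σ g w j = j ∧ ρ g w j = 1 := fun j => by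
    have h1 : ∀ x : A, x ≠ (p k w)⁻¹ * a → ι Γ j x = ι Γ (σ g w j) (ρ g w j • x) := fun x hx => by
      have h2 := smul_ι g w j x
      rw [h w hw, h] at h2
      · exact mul_left_cancel h2
      by_cases c : j = k ∧ w ∈ St Γ A k
      · rw [c.1, p_pos c.2]
        exact fun e' => hx (eq_inv_mul_of_mul_eq e')
      · rwa [p_neg c]
    obtain ⟨x, hx⟩ := Infinite.exists_notMem_finset (α := A)
      (by classical exact {(p k w)⁻¹ * a, 1})
    simp only [Finset.mem_insert, Finset.mem_singleton, not_or] at hx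
    have h2 := ι_eq hx.2 (h1 x hx.1)
    rw [← h2] at h1
    refine ⟨h2.symm, eq_of_smul_eq_smul fun y : A => ?_⟩
    rw [one_smul]
    by_contra c
    by_cases c' : y = (p k w)⁻¹ * a
    · exact c (MulAction.injective (ρ g w j) (ι_inj (h1 _ (c' ▸ c))).symm)
    · exact c (ι_inj (h1 y c')).symm
  exact ⟨Equiv.ext fun j => (key j).1, fun j => (key j).2⟩

variable (hT : TwTr Γ) (hd : ¬ DiscreteTopology B) (hco : IsCoatom (stabilizer B (1 : A)))
include hT hd hco

theorem simple' [Finite I] (h3 : ∀ k k', ∃ i, ¬ Γ.st k i ∧ ¬ Γ.st k' i) [Nonempty I]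
    {N : Subgroup (BG Γ A B)} (hN : N ≤ MG Γ e he) (hc : IsClosed (N : Set (BG Γ A B)))
    (hn : ∀ g ∈ MG Γ e he, ∀ n ∈ N, g * n * g⁻¹ ∈ N) {n : BG Γ A B} (h1 : n ∈ N) (h2 : n ≠ 1) :
    MG Γ e he ≤ N := by
  have tr : ∀ w, ∃ n ∈ N, n • (1 : GP Γ A) = w := fun w => by
    obtain ⟨u, hu⟩ : ∃ u : GP Γ A, n • u ≠ u := by
      by_contra! h
      exact h2 (ext' h)
    let K : Subgroup (BG Γ A B) :=
      { carrier := {g | g ∈ MG Γ e he ∧ ∃ n ∈ N, n • (1 : GP Γ A) = g • (1 : GP Γ A)}
        one_mem' := ⟨one_mem _, 1, one_mem _, rfl⟩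
        mul_mem' := by
          rintro g g' ⟨g1, m, m1, m2⟩ ⟨g1', m', m1', m2'⟩
          exact ⟨mul_mem g1 g1', _, mul_mem (hn g g1 m' m1') m1, by
            simp only [mul_smul, m2, inv_smul_smul, m2']⟩
        inv_mem' := by
          rintro g ⟨g1, m, m1, m2⟩
          exact ⟨inv_mem g1, _, hn _ (inv_mem g1) _ (inv_mem m1), by
            simp only [mul_smul, inv_inv, ← m2, inv_smul_smul]⟩ }
    have h4 := hn _ (T_mem e he u⁻¹) n h1
    simpa using (prim e he hT hd hco (K := K) (fun g hg => hg.1)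
      (fun g hg e' => ⟨hg, 1, one_mem _, by simp [e']⟩) ⟨hN h4, _, h4, rfl⟩
      (by simpa [mul_smul, ← map_inv, inv_mul_eq_one, eq_comm] using hu) (T_mem e he w)).2
  have hU : ∀ j (u : B), u • (1 : A) = 1 → β Γ e he j u ∈ N := fun j u hu => by
    obtain ⟨k⟩ := ‹Nonempty I›
    choose m m1 m2 using fun a : A => tr (ι Γ k a)
    choose c c1 c2 using fun a : A => h3 k ((σ (m a) 1)⁻¹ k)
    obtain ⟨i, hi⟩ := Finite.exists_infinite_fiber c
    obtain ⟨g, g1, g2, rfl⟩ := flag e he hT i j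
    have hg : ∀ w : GP Γ A, p (σ g 1 i) (g • w) = 1 ↔ p i w = 1 := fun w => by
      rw [← ρ_eq_one (g := g) (w := 1) (i := i) (a := p i w), ← p_smul, g2]; simp
    set t := g⁻¹ * β Γ e he (σ g 1 i) u * g with ht
    have t1 : t ∈ MG Γ e he := mul_mem (mul_mem (inv_mem g1) (β_mem e he _ u)) g1
    have t2 : ∀ w : GP Γ A, p i w = 1 → t • w = w := fun w hw => by
      rw [ht, mul_smul, mul_smul, inv_smul_eq_iff]
      simp [β_smul, (hg w).2 hw, hu]
    have t3 : ∀ a : c ⁻¹' {i}, ∀ z : GP Γ A, p k z ≠ a.1 → (m a * t * (m a)⁻¹) • z = z :=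
      fun a z hz => by
        obtain ⟨w, rfl⟩ := MulAction.surjective (m a) z
        rw [mul_smul, mul_smul, inv_smul_smul, t2 w]
        by_contra hw
        have h4 := mt (ρ_eq_one (g := m a) (w := 1) (i := i)).1 hw
        rw [← p_smul, m2, one_mul, ← map_inv] at h4
        have h5 := nest (j := k) (fun h => c2 a (Γ.sy ((σ_st (m a) 1 _ _).1 (by
          rw [show c a = i from a.2]; simpa using h)))) h4
        rw [p_ι_mul, inv_mul_eq_one] at h5
        exact hz h5.symm
    have h5 : ∀ w : GP Γ A, ∀ᶠ a : c ⁻¹' {i} in cofinite, p k w ≠ a.1 := fun w =>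
      (Subtype.val_injective.tendsto_cofinite.eventually (eventually_cofinite_ne (p k w))).mono
        fun a ha => Ne.symm ha
    have h4 : Tendsto (fun a : c ⁻¹' {i} => m a * t * (m a)⁻¹) cofinite (𝓝 1) :=
      isEmb.isEmbedding.tendsto_nhds_iff.2 <| (tendsto_pi_nhds.2 fun w =>
        tendsto_nhds_of_eventually_eq ((h5 w).mono fun a ha => t3 a w ha)).prodMk_nhds
        ((tendsto_pi_nhds.2 fun w => tendsto_nhds_of_eventually_eq
          ((h5 w).mono fun a ha => (fix_data (t3 a) ha).1)).prodMk_nhds (tendsto_pi_nhds.2 fun w =>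
          tendsto_pi_nhds.2 fun j => tendsto_nhds_of_eventually_eq
            ((h5 w).mono fun a ha => (fix_data (t3 a) ha).2 j)))
    have h6 := hc.mem_of_tendsto (h4.const_mul t⁻¹) (.of_forall fun a => by
      simpa [mul_assoc] using mul_mem (hn _ (inv_mem t1) _ (m1 a)) (inv_mem (m1 a)))
    have h7 : t ∈ N := by simpa using h6
    simpa [ht, mul_assoc] using hn g g1 t h7
  have hβ : ∀ i b, β Γ e he i b ∈ N := fun i b => by
    have hnorm : (N.comap (β Γ e he i)).Normal := ⟨fun n hn' g => by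
      simpa using hn _ (β_mem e he i g) _ hn'⟩
    obtain ⟨x, hx⟩ := exists_ne (1 : A)
    obtain ⟨v, v1, v2⟩ := nonreg e he hd hco hx
    refine (hco.2 (N.comap (β Γ e he i)) (lt_of_le_of_ne (fun u hu => hU i u hu) fun e' => v2 ?_)).ge
      (Subgroup.mem_top b)
    have h4 : (e x)⁻¹ * v * e x ∈ N.comap (β Γ e he i) := hU i _ (by
      simp only [mul_smul, inv_smul_eq_iff, he, mul_one, v1])
    have h5 := hnorm.conj_mem _ h4 (e x)
    rw [← e'] at h5
    simpa [mul_assoc] using h5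
  refine Subgroup.topologicalClosure_minimal _ ((Subgroup.closure_le _).2 ?_) hc
  rintro t (⟨i, b, rfl⟩ | ⟨i, ht⟩)
  · exact hβ i b
  have ht' : t ∈ MG Γ e he :=
    Subgroup.le_topologicalClosure _ (Subgroup.subset_closure (Or.inr ⟨i, ht⟩))
  have h4 : Tendsto (fun a : A => T (ι Γ i a) * t * (T (ι Γ i a))⁻¹) cofinite (𝓝 1) := by
    have h5 : ∀ w : GP Γ A, ∀ᶠ a in cofinite, p i ((T (ι Γ i a) : BG Γ A B)⁻¹ • w) ≠ 1 := fun w =>
      (eventually_cofinite_ne (p i w)).mono fun a ha => by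
        rwa [← map_inv, ← map_inv, T_smul, p_ι_mul, Ne, inv_mul_eq_one]
    refine isEmb.isEmbedding.tendsto_nhds_iff.2 <| (tendsto_pi_nhds.2 fun w =>
      tendsto_nhds_of_eventually_eq ((h5 w).mono fun a ha => ?_)).prodMk_nhds
      ((tendsto_pi_nhds.2 fun w => tendsto_nhds_of_eventually_eq
        ((h5 w).mono fun a ha => ?_)).prodMk_nhds (tendsto_pi_nhds.2 fun w =>
        tendsto_pi_nhds.2 fun j => tendsto_nhds_of_eventually_eq (.of_forall fun a => ?_)))
    · change (T (ι Γ i a) * t * (T (ι Γ i a))⁻¹) • w = w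
      rw [mul_smul, mul_smul, (ht.2.2 _ ha).1, smul_inv_smul]
    · change σ (T (ι Γ i a) * t * (T (ι Γ i a))⁻¹) w = 1
      rw [σ_mul, σ_mul, (ht.2.2 _ ha).2, ← map_inv]
      exact (mul_one _).trans (one_mul _)
    · change ρ (T (ι Γ i a) * t * (T (ι Γ i a))⁻¹) w j = 1
      rw [ρ_mul, ρ_mul, ht.2.1, ← map_inv]
      exact (mul_one _).trans (one_mul _)
  have := hc.mem_of_tendsto (h4.const_mul t⁻¹) (.of_forall fun a => by
    have h5 := β_e e he i a ▸ hβ i (e a)
    simpa [mul_assoc] using mul_mem (hn _ (inv_mem ht') _ h5) (inv_mem h5))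
  simpa using this

theorem main' [Finite I] (hB : IsTDLC B) (hcg : CompGen B)
    (hU : IsCompact (stabilizer B (1 : A) : Set B)) (h3 : ∀ k k', ∃ i, ¬ Γ.st k i ∧ ¬ Γ.st k' i)
    (hI : ∀ i j, Relation.ReflTransGen (fun i j => i ≠ j ∧ Γ.st i j) i j) {i j : I} (h0 : i ≠ j) :
    InP (MG Γ e he) ∧ InS (MG Γ e he) ∧ OneEnded (MG Γ e he) ∧
      ∃ (O : Subgroup (MG Γ e he)) (φ : O →* B) (ψ : B →* O), IsOpen (O : Set (MG Γ e he)) ∧
        IsProperMap φ ∧ Continuous ψ ∧ ∀ b, φ (ψ b) = b := by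
  obtain ⟨-, _, _, _⟩ := hB
  have : Nonempty I := ⟨i⟩
  have hcl : IsClosed (MG Γ e he : Set (BG Γ A B)) := Subgroup.isClosed_topologicalClosure _
  have hv := hcl.isClosedEmbedding_subtypeVal
  have emb := (isEmb.comp hv).isEmbedding
  have hc : IsCompact (stabilizer (MG Γ e he) (1 : GP Γ A) : Set (MG Γ e he)) :=
    hv.isCompact_preimage (isCompact_stab hU)
  have ho : IsOpen (stabilizer (MG Γ e he) (1 : GP Γ A) : Set (MG Γ e he)) :=
    (isOpen_discrete {1}).preimage ((cont_smul 1).comp hv.continuous)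
  have td : IsTDLC (MG Γ e he) := ⟨inferInstance, emb.t2Space,
    hc.locallyCompactSpace_of_mem_nhds_of_group (ho.mem_nhds (one_mem _)),
    ⟨emb.isTotallyDisconnected (isTotallyDisconnected_of_totallyDisconnectedSpace _)⟩⟩
  let β' : I → B →* MG Γ e he := fun i => (β Γ e he i).codRestrict _ (β_mem e he i)
  have cβ : ∀ i, Continuous (β' i) := fun i => (cont_β e he i).subtype_mk _
  let T' : GP Γ A →* MG Γ e he := T.codRestrict _ (T_mem e he)
  have hT' : ∀ w u : GP Γ A, T' w • u = w * u := fun _ _ => rfl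
  have hβ' : ∀ i b (x : A), β' i b • ι Γ i x = ι Γ i (b • x) := fun i b x => by
    change β Γ e he i b • ι Γ i x = _
    rw [β_smul, p_ι, ← map_mul, inv_mul_cancel_right]
  have nd : ¬ DiscreteTopology (MG Γ e he) := fun _ => hd
    (DiscreteTopology.of_continuous_injective (cβ i) fun b b' h => eq_of_smul_eq_smul fun x : A =>
      ι_inj (by rw [← hβ', h, hβ']))
  have hm : IsCoatom (stabilizer (MG Γ e he) (1 : GP Γ A)) := by
    obtain ⟨a, ha⟩ := exists_ne (1 : A)
    refine ⟨fun e' => ha (ι_inj (Γ := Γ) (i := i) ?_), fun M hM => ?_⟩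
    · have : T' (ι Γ i a) ∈ stabilizer (MG Γ e he) (1 : GP Γ A) := e' ▸ Subgroup.mem_top _
      simpa [hT'] using this
    · obtain ⟨m, h1, h2⟩ := SetLike.exists_of_lt hM
      exact eq_top_iff.2 fun g _ => (Subgroup.mem_map_iff_mem Subtype.val_injective).1
        (prim e he hT hd hco (Subgroup.map_subtype_le M)
          (fun g hg h => ⟨⟨g, hg⟩, hM.le h, rfl⟩) ⟨m, h1, rfl⟩ h2 g.2)
  have cg : CompGen (MG Γ e he) := by
    obtain ⟨g, -, hg⟩ := SetLike.exists_of_lt hm.lt_top
    refine ⟨insert g (stabilizer (MG Γ e he) (1 : GP Γ A)), hc.insert g, hm.2 _ (lt_of_le_of_ne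
      (fun k hk => Subgroup.subset_closure (Or.inr hk)) fun e => hg ?_)⟩
    exact e ▸ Subgroup.subset_closure (Or.inl rfl)
  refine ⟨⟨td, nd, _, hm, hc, ho, eq_bot_iff.2 fun g hg => Subtype.ext (ext' fun w => ?_)⟩,
    ⟨td, nd, cg, fun N hN h => or_iff_not_imp_left.2 fun hne => ?_⟩,
    ⟨exists_cayleyAbels cg _ hc ho, fun V _ X hX => ?_⟩, ?_⟩
  · have : ((T' w)⁻¹ * g * (T' w)⁻¹⁻¹) • (1 : GP Γ A) = 1 := hg (T' w)⁻¹
    rwa [inv_inv, mul_smul, mul_smul, inv_smul_eq_iff, hT', mul_one] at this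
  · obtain ⟨⟨n, hn⟩, hn1⟩ := Subgroup.ne_bot_iff_exists_ne_one.1 hne
    refine eq_top_iff.2 fun g _ => (Subgroup.mem_map_iff_mem Subtype.val_injective).1
      (simple' e he hT hd hco h3 (Subgroup.map_subtype_le N) (hv.isClosedMap _ h) ?_
        ⟨n, hn, rfl⟩ (fun h => hn1 (Subtype.ext (Subtype.ext h))) g.2)
    rintro g hg _ ⟨m, hm, rfl⟩
    exact ⟨_, hN.conj_mem m hm ⟨g, hg⟩, rfl⟩
  · have : Infinite V := hX.infinite fun h => (Set.infinite_range_of_injective
      (f := ι Γ i) fun _ _ => ι_inj) ((finite_orbit ho h).subset (by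
        rintro _ ⟨a, rfl⟩
        exact ⟨T' (ι Γ i a), trivial, (hT' _ 1).trans (mul_one _)⟩))
    refine existsUnique_end hX.1 hX.2.1 fun K => ?_
    obtain ⟨v⟩ := hX.1.nonempty
    obtain ⟨Cb, c1, c2⟩ := hcg
    obtain ⟨C, hC, h1⟩ := hX.exists_compact v
      (hc.union (isCompact_iUnion fun i => c1.image (cβ i))) K
    have h2 : ∀ g : MG Γ e he, g • (1 : GP Γ A) ∉ (fun g : MG Γ e he => g • (1 : GP Γ A)) '' C →
        g ∉ C := fun g h h' => h ⟨g, h', rfl⟩
    obtain ⟨F, hF, w₀, h4⟩ := one_end (R := fun u w => Cn X K (T' u • v) (T' w • v)) hI h0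
      (finite_orbit ho hC) Cn.symm Cn.trans fun w i h a => by
        have h5 : ∀ b, T' w * β' i b ∉ C := fun b => h2 _ (by
          have := hβ' i b 1
          rw [map_one] at this
          rw [mul_smul, this, hT']
          exact h _)
        have h6 : ∀ b ∈ Subgroup.closure Cb, ∀ b',
            Cn X K ((T' w * β' i b') • v) ((T' w * β' i (b' * b)) • v) := fun b hb => by
          induction hb using Subgroup.closure_induction with
          | mem t ht =>
            intro b'
            rw [map_mul, ← mul_assoc]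
            exact h1 _ (h5 b') _ (Or.inr (Set.mem_iUnion.2 ⟨i, t, ht, rfl⟩))
          | one => exact fun b' => by simpa using h1 _ (h5 b') 1 (Or.inl (one_mem _))
          | mul g k _ _ h1 h2 => exact fun a => mul_assoc a g k ▸ (h1 a).trans (h2 (a * g))
          | inv g _ h => exact fun a => by simpa using (h (a * g⁻¹)).symm
        have h7 : β' i (e a) = T' (ι Γ i a) := Subtype.ext (β_e e he i a)
        simpa [h7] using h6 (e a) (c2 ▸ Subgroup.mem_top _) 1
    refine ⟨_, finite_orbit (hX.2.2.2.2 v).2 ((hF.union (finite_orbit ho hC)).isCompact_biUnion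
      fun w _ => isCompact_trans hc w), T' w₀ • v, fun x hx => ?_⟩
    obtain ⟨g, rfl⟩ := hX.2.2.2.1.exists_smul_eq v x
    have h5 := not_or.1 (mt (fun h => ⟨g, Set.mem_biUnion (x := g • (1 : GP Γ A)) h rfl, rfl⟩) hx)
    have := h1 (T' (g • 1)) (h2 _ (by rw [hT', mul_one]; exact h5.2)) ((T' (g • 1))⁻¹ * g)
      (Or.inl (by rw [SetLike.mem_coe, mem_stabilizer_iff, mul_smul, inv_smul_eq_iff, hT', mul_one]))
    rw [mul_inv_cancel_left] at this
    exact this.symm.trans (h4 _ h5.1)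
  · let O : Subgroup (MG Γ e he) :=
      { carrier := {g | (∃ a, g.1 • (1 : GP Γ A) = ι Γ i a) ∧ σ g.1 1 i = i}
        one_mem' := ⟨⟨1, by simp⟩, rfl⟩
        mul_mem' := by
          rintro g g' hg ⟨⟨a, h1⟩, h2⟩
          exact ⟨⟨_, by rw [Subgroup.coe_mul, mul_smul, h1, (smul_panel e he hg a).1]⟩, by
            rw [Subgroup.coe_mul, σ_mul, h1, Perm.mul_apply, h2, (smul_panel e he hg a).2]⟩
        inv_mem' := by
          intro g hg
          obtain ⟨h1, h2⟩ := smul_panel e he hg ((e (p i (g.1 • (1 : GP Γ A))) * ρ g.1 1 i)⁻¹ • 1)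
          rw [smul_inv_smul, map_one] at h1
          exact ⟨⟨_, inv_smul_eq_iff.2 h1.symm⟩, by
            rw [← h1, Subgroup.coe_inv, σ_inv, Perm.inv_eq_iff_eq, h2]⟩ }
    have hO : IsOpen (O : Set (MG Γ e he)) :=
      (isOpen_discrete {t : GP Γ A × Perm I | (∃ a, t.1 = ι Γ i a) ∧ t.2 i = i}).preimage
        (((cont_smul 1).prodMk (cont_σ 1)).comp hv.continuous)
    let φ : O →* B := MonoidHom.mk' (fun g => e (p i (g.1.1 • (1 : GP Γ A))) * ρ g.1.1 1 i)
      fun g g' => eq_of_smul_eq_smul fun x : A => ι_inj (Γ := Γ) (i := i) (by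
        rw [← (smul_panel e he (g * g').2 x).1, mul_smul, ← (smul_panel e he g.2 _).1,
          ← (smul_panel e he g'.2 _).1, ← mul_smul]
        rfl)
    have hφ : ∀ (g : O) (x : A), g.1.1 • ι Γ i x = ι Γ i (φ g • x) := fun g x =>
      (smul_panel e he g.2 x).1
    have cφ : Continuous φ := ((continuous_of_discreteTopology (f := fun w => e (p i w))).comp
      ((cont_smul 1).comp (hv.continuous.comp continuous_subtype_val))).mul
        ((cont_ρ 1 i).comp (hv.continuous.comp continuous_subtype_val))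
    refine ⟨O, φ, (β' i).codRestrict O fun b =>
        ⟨⟨b • 1, by have := hβ' i b 1; rwa [map_one] at this⟩, rfl⟩, hO,
      isProperMap_iff_isCompact_preimage.2 ⟨cφ, fun C hC => ?_⟩, (cβ i).subtype_mk _,
      fun b => eq_of_smul_eq_smul fun x : A => ι_inj ((hφ _ x).symm.trans (hβ' i b x))⟩
    refine ((O.isClosed_of_isOpen hO).isClosedEmbedding_subtypeVal.isCompact_preimage
      ((hC.image (f := fun b => b • (1 : A)) (by fun_prop)).finite_of_discrete.isCompact_biUnion
        fun a _ => isCompact_trans hc (ι Γ i a))).of_isClosed_subset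
      (hC.isClosed.preimage cφ) fun g hg => ?_
    exact Set.mem_biUnion (x := φ g • (1 : A)) ⟨_, hg, rfl⟩ 
      (by have := hφ g 1; rwa [map_one] at this)

end BG

end

open GP Topology MulAction Equiv in
theorem embed_of_regular {B Ω : Type} [Group B] [TopologicalSpace B] [IsTopologicalGroup B]
    [MulAction B Ω] [TopologicalSpace Ω] [DiscreteTopology Ω] [ContinuousSMul B Ω]
    (hB : IsTDLC B) (hd : ¬ DiscreteTopology B) {o : Ω}
    (h1 : IsCoatom (stabilizer B o)) (h2 : IsCompact (stabilizer B o : Set B))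
    (h3 : (stabilizer B o).normalCore = ⊥) (A : Subgroup B) (h4 : ∀ g : B, ∃ a : A, a.1 • o = g • o)
    (h5 : ∀ a a' : A, a.1 • o = a'.1 • o → a = a') :
    ∃ (G : Type) (_ : Group G) (_ : TopologicalSpace G), InP G ∧ InS G ∧ OneEnded G ∧
      ∃ (O : Subgroup G) (φ : O →* B) (ψ : B →* O), IsOpen (O : Set G) ∧ IsProperMap φ ∧
        Continuous ψ ∧ ∀ b, φ (ψ b) = b := by
  choose c hc using h4
  let _ : MulAction B A :=
    { smul := fun b a => c (b * a)
      one_smul := fun a => h5 _ _ ((hc _).trans (by rw [one_mul]))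
      mul_smul := fun b b' a => h5 _ _ ((hc _).trans ((hc _).trans (by
        change (b * (c (b' * a)).1) • o = _
        simp only [mul_smul, hc])).symm) }
  have key : ∀ (b : B) (a : A), (b • a).1 • o = b • a.1 • o := fun b a =>
    (hc _).trans (mul_smul _ _ _)
  have hs : ∀ a : A, stabilizer B a = stabilizer B (a.1 • o) := fun a => Subgroup.ext fun b =>
    ⟨fun h => (key b a).symm.trans (congrArg (·.1 • o) h), fun h => h5 _ _ ((key b a).trans h)⟩
  have hs1 : stabilizer B (1 : A) = stabilizer B o := by simp [hs]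
  let _ : TopologicalSpace A := ⊥
  have : DiscreteTopology A := ⟨rfl⟩
  have : ContinuousSMul B A := continuousSMul_iff_stabilizer_isOpen.2 fun a =>
    hs a ▸ stabilizer_isOpen B _
  have : FaithfulSMul B A := faithfulSMul_iff.2 fun b hb => h3.le fun g => by
    have := key b (c g⁻¹)
    rw [hb, hc] at this
    rw [mem_stabilizer_iff, mul_smul, mul_smul, ← this, smul_inv_smul]
  have : T2Space B := hB.2.1
  have : Infinite A := not_finite_iff_infinite.1 fun _ => hd (by
    have : Finite B := Finite.of_injective _ (MulAction.toPerm_injective (α := B) (β := A))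
    infer_instance)
  have cg : CompGen B := by
    obtain ⟨g, -, hg⟩ := SetLike.exists_of_lt h1.lt_top
    refine ⟨insert g (stabilizer B o), h2.insert g, h1.2 _ (lt_of_le_of_ne
      (fun k hk => Subgroup.subset_closure (Or.inr hk)) fun e => hg ?_)⟩
    exact e ▸ Subgroup.subset_closure (Or.inl rfl)
  let _ : TopologicalSpace (Perm (Fin 10)) := ⊥
  have : DiscreteTopology (Perm (Fin 10)) := ⟨rfl⟩
  exact ⟨_, _, _, BG.main' A.subtype (fun a x => h5 _ _ ((key a x).trans (mul_smul _ _ _).symm))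
    pet_tw hd (hs1 ▸ h1) hB cg (hs1 ▸ h2) (by decide) pet_conn (i := 0) (j := 1) (by decide)⟩

end Pool.Agent.Lib.MP_e7db20_al
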