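import Pool.Agent.Lib.MP_e7db20_al.Defs

/-! Cayley–Abels graphs and one-ended groups. -/

namespace Pool.Agent.Lib.MP_e7db20_al

/-- `X` is a Cayley–Abels graph of `G`: a connected locally finite graph on which `G` acts
vertex-transitively by automorphisms with compact open vertex stabilizers. -/
def CayleyAbels (G : Type) [Group G] [TopologicalSpace G] {V : Type} [MulAction G V]
    (X : SimpleGraph V) : Prop :=
  X.Connected ∧ (∀ v, (X.neighborSet v).Finite) ∧
    (∀ (g : G) (v w : V), X.Adj v w → X.Adj (g • v) (g • w)) ∧ MulAction.IsPretransitive G V ∧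
    ∀ v : V, IsCompact (MulAction.stabilizer G v : Set G) ∧
      IsOpen (MulAction.stabilizer G v : Set G)

/-- `G` has a Cayley–Abels graph, and every Cayley–Abels graph of `G` has exactly one end. -/
def OneEnded (G : Type) [Group G] [TopologicalSpace G] : Prop :=
  (∃ (V : Type) (_ : MulAction G V) (X : SimpleGraph V), CayleyAbels G X) ∧
    ∀ (V : Type) [MulAction G V] (X : SimpleGraph V), CayleyAbels G X → ∃! e, e ∈ X.end

end Pool.Agent.Lib.MP_e7db20_al
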