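import Pool.Agent.Lib.MP_e7db20_al.Prim

/-! Subtrees folded onto a line. -/

namespace Pool.Agent.Lib.MP_e7db20_al

open W Topology MulAction Pointwise

namespace Loc

variable {X H : Type} [Group H] [MulAction H X] {D : Loc X H}

variable (D) in
/-- The group generated by the subgroups at the colours of two ports. -/
def Rg (q : Bool → Set X) : Subgroup H := ⨆ z ∈ ⋃ c, q c, D.L z

variable (D) in
/-- Admissible families of pairs of ports. -/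
structure Adm (R : Subgroup H) (T : Set (Bool → Set X)) : Prop where
  ne : ∀ q ∈ T, ∀ c, (q c).Nonempty
  disj : ∀ q ∈ T, ∀ c c' x, x ∈ q c → x ∈ q c' → c = c'
  sub : ∀ q ∈ T, ∀ c, ∀ x ∈ q c, D.L x ≤ R
  trans : ∀ q ∈ T, ∀ c, ∀ x ∈ q c, ∀ y ∈ q c, ∃ r ∈ D.Rg q, r • x = y
  inv : ∀ q ∈ T, ∀ r ∈ R, r • q ∈ T
  uniq : ∀ q ∈ T, ∀ q' ∈ T, ∀ c x, x ∈ q c → x ∈ q' c → q = q'

theorem Adm.two {R : Subgroup H} {T : Set (Bool → Set X)} (h : D.Adm R T) {q} (hq : q ∈ T)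
    (c : Bool) (y : X) : ∃ z ∈ q c, z ≠ y := by
  obtain ⟨x, hx⟩ := h.ne q hq c
  by_cases e : x = y
  · obtain ⟨r, hr⟩ := h.ne q hq (!c)
    obtain ⟨l, hl, hx'⟩ := D.move (x := r) (y := x) fun e =>
      Bool.eq_not_self c |>.1 (h.disj q hq _ _ x hx (e ▸ hr))
    have := h.uniq _ (h.inv q hq l (h.sub q hq _ r hr hl)) q hq (!c) r ⟨r, hr, D.fix hl⟩ hr
    exact ⟨l • x, this ▸ (⟨x, hx, rfl⟩ : l • x ∈ (l • q) c), e ▸ hx'⟩
  · exact ⟨x, hx, e⟩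

variable (D) in
/-- Two orbits, and inside each of them an admissible family. -/
structure Fold where
  /-- the two orbits -/
  O : Bool → Set X
  /-- the thin families -/
  θ : Bool → Set (Bool → Set X)
  admO : D.Adm (D.Rg O) {O}
  admθ : ∀ i, D.Adm (D.Rg O) (θ i)
  θsub : ∀ i, ∀ q ∈ θ i, ∀ c, q c ⊆ O i
  θsup : ∀ i c, ∀ x ∈ O i, ∃ q ∈ θ i, x ∈ q c

/-- The direction of a port. -/
def ε : Bool → ℤ
  | true => 1
  | false => -1

/-- A periodic sequence of vertex types. -/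
structure Seq (F : D.Fold) where
  /-- the types -/
  T : ℤ → Set (Bool → Set X)
  /-- the period -/
  p : ℤ
  /-- the orientation at the origin -/
  e : Bool
  hp : 0 < p
  even : Even p
  adm : ∀ n, D.Adm (D.Rg F.O) (T n)
  per : Function.Periodic T p
  thick : T 0 = {fun c => F.O (xor c e)}
  mat : ∀ n, ∀ q ∈ T n, ∀ c, ∀ x ∈ q c, ∃ q' ∈ T (n + ε c), x ∈ q' (!c)

/-- A labelling of the tree by a sequence. -/
structure Str (F : D.Fold) extends Seq F where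
  /-- the position -/
  pos : W X → ℤ
  /-- the ports -/
  q : W X → Bool → Set X
  pos0 : pos o = 0
  val : ∀ v, q v ∈ T (pos v)
  adj : ∀ v c, ∀ x ∈ q v c, x ∈ q (v.s x) (!c) ∧ pos (v.s x) = pos v + ε c

variable {F : D.Fold}

theorem Seq.exists_str (Q : Seq F) : ∃ S : Str F, S.toSeq = Q := by
  let R : (Σ n, Q.T n) → X → (Σ n, Q.T n) → Prop := fun a x b =>
    ∀ c, x ∈ a.2.1 c → x ∈ b.2.1 (!c) ∧ b.1 = a.1 + ε c
  obtain ⟨f, h0, hf⟩ := exists_label (S := Σ n, Q.T n) (fun _ a x b => R a x b ∧ R b x a)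
    (fun _ _ _ _ h => h.symm) (fun _ a x => by
      by_cases h : ∃ c, x ∈ a.2.1 c
      · obtain ⟨c, hc⟩ := h
        obtain ⟨q', h1, h2⟩ := Q.mat _ _ a.2.2 c x hc
        refine ⟨⟨_, q', h1⟩, fun c' h => ?_, fun c' h => ?_⟩
        · obtain rfl := (Q.adm _).disj _ a.2.2 _ _ x hc h
          exact ⟨h2, rfl⟩
        · obtain rfl := (Q.adm _).disj _ h1 _ _ x h2 h
          exact ⟨by simpa using hc, by cases c <;> simp [ε]⟩
      · exact ⟨a, fun c hc => absurd ⟨c, hc⟩ h, fun c hc => absurd ⟨c, hc⟩ h⟩)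
    o ⟨0, _, Q.thick.ge rfl⟩
  exact ⟨⟨Q, fun v => (f v).1, fun v => (f v).2.1, by simp only [h0], fun v => (f v).2.2,
    fun v c x hx => (hf v x).1 c hx⟩, rfl⟩

namespace Str

variable (S : Str F)

/-- Connection by active edges inside a range of positions. -/
def Conn (Q : ℤ → Prop) : W X → W X → Prop := Relation.ReflTransGen fun v w =>
  Q (S.pos v) ∧ Q (S.pos w) ∧ ∃ c, ∃ x ∈ S.q v c, w = v.s x

theorem Conn.symm {S : Str F} {Q : ℤ → Prop} {v w : W X} (h : S.Conn Q v w) : S.Conn Q w v := by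
  induction h with
  | refl => exact .refl
  | tail _ h ih =>
    obtain ⟨h1, h2, c, x, hx, rfl⟩ := h
    exact .head ⟨h2, h1, !c, x, (S.adj _ c x hx).1, (s_s _ _).symm⟩ ih

/-- The subtree. -/
def A : Set (W X) := {v | S.Conn (fun _ => True) o v}

theorem o_mem : o ∈ S.A := Relation.ReflTransGen.refl

variable {S}

theorem s_mem_A {v : W X} (hv : v ∈ S.A) {c x} (hx : x ∈ S.q v c) : v.s x ∈ S.A :=
  Relation.ReflTransGen.tail hv ⟨trivial, trivial, c, x, hx, rfl⟩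

theorem A_ind {p : W X → Prop} (h0 : p o)
    (hs : ∀ v ∈ S.A, ∀ c, ∀ x ∈ S.q v c, p v → p (v.s x)) {v : W X} (hv : v ∈ S.A) : p v := by
  induction hv with
  | refl => exact h0
  | tail h1 h2 ih =>
    obtain ⟨-, -, c, x, hx, rfl⟩ := h2
    exact hs _ h1 c x hx ih

theorem par_iff {v : W X} (hv : v ∈ S.A) : v.par ↔ Even (S.pos v) := by
  refine A_ind (p := fun v => v.par ↔ Even (S.pos v)) (by simp [W.par, S.pos0])
    (fun v _ c x hx ih => ?_) hv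
  rw [par_s, ih, (S.adj v c x hx).2]
  cases c <;> simp [ε, Int.even_add, Int.even_sub]

theorem per' (n k : ℤ) : S.T (n + k * S.p) = S.T n := S.per.int_mul k n

theorem eq_thick {k : ℤ} {q} (hq : q ∈ S.T (k * S.p)) : q = fun c => F.O (xor c S.e) := by
  rwa [← zero_add (k * S.p), per', S.thick] at hq

variable (S) in
/-- Compatibility at a vertex, with a shift. -/
def Cp (δ : ℤ) (g : D.G) (v : W X) : Prop :=
  S.pos (g • v) = S.pos v + δ ∧ σ g v ∈ D.Rg F.O ∧ S.q (g • v) = σ g v • S.q v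

theorem Cp.mem {δ : ℤ} {g : D.G} {v : W X} (h : S.Cp δ g v) {c x} (hx : x ∈ S.q v c) :
    σ g v • x ∈ S.q (g • v) c := h.2.2 ▸ ⟨x, hx, rfl⟩

theorem Cp.step {k : ℤ} {g : D.G} {v : W X} (h : S.Cp (k * S.p) g v) {c x} (hx : x ∈ S.q v c) :
    S.Cp (k * S.p) g (v.s x) := by
  have h1 := S.adj _ _ _ (h.mem hx)
  have h2 := S.adj _ _ _ hx
  rw [← smul_s] at h1
  have h3 : S.pos (g • v.s x) = S.pos (v.s x) + k * S.p := by rw [h1.2, h2.2, h.1]; ring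
  have h4 : σ g (v.s x) ∈ D.Rg F.O := by
    simpa using mul_mem h.2.1 ((S.adm _).sub _ (S.val v) c x hx (σ_s g v x))
  refine ⟨h3, h4, (S.adm (S.pos (v.s x))).uniq _ ?_ _ ((S.adm _).inv _ (S.val _) _ h4) _ _ h1.1
    ⟨x, h2.1, σ_s_smul g v x⟩⟩
  have := S.val (g • v.s x)
  rwa [h3, per'] at this

theorem Cp.conn {k : ℤ} {g : D.G} {a v : W X} (h : S.Cp (k * S.p) g a) {Q : ℤ → Prop}
    (hQ : ∀ n, Q n → Q (n + k * S.p)) (hv : S.Conn Q a v) :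
    S.Conn Q (g • a) (g • v) ∧ S.Cp (k * S.p) g v := by
  induction hv with
  | refl => exact ⟨Relation.ReflTransGen.refl, h⟩
  | tail _ h2 ih =>
    obtain ⟨q1, q2, c, x, hx, rfl⟩ := h2
    have := ih.2.step hx
    exact ⟨ih.1.tail ⟨ih.2.1 ▸ hQ _ q1, this.1 ▸ hQ _ q2, c, _, ih.2.mem hx, smul_s _ _ _⟩, this⟩

variable (S) in
/-- Compatibility on the whole subtree. -/
def In (k : ℤ) (g : D.G) : Prop := ∀ v ∈ S.A, g • v ∈ S.A ∧ S.Cp (k * S.p) g v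

theorem In.of {k : ℤ} {g : D.G} {a : W X} (ha : a ∈ S.A) (ha' : g • a ∈ S.A)
    (h : S.Cp (k * S.p) g a) : S.In k g := fun _ hv =>
  have := h.conn (Q := fun _ => True) (fun _ _ => trivial)
    ((Conn.symm (S := S) (Q := fun _ => True) ha).trans hv)
  ⟨Relation.ReflTransGen.trans ha' this.1, this.2⟩

theorem In.triv {g : D.G} {a : W X} (ha : a ∈ S.A) (h : Triv g a) : S.In 0 g :=
  In.of ha (by rwa [h.1]) ⟨by simp [h.1], by simp [h.2], by simp [h.1, h.2]⟩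

theorem In.mul {k k' : ℤ} {g g' : D.G} (h : S.In k g) (h' : S.In k' g') :
    S.In (k + k') (g * g') := fun v hv => by
  obtain ⟨h1, h2, h3, h4⟩ := h' v hv
  obtain ⟨h5, h6, h7, h8⟩ := h _ h1
  rw [Cp, mul_smul, σ_mul]
  exact ⟨h5, by rw [h6, h2]; ring, mul_mem h7 h3, by rw [h8, h4, mul_smul]⟩

theorem In.inv {k : ℤ} {g : D.G} (h : S.In k g) : S.In (-k) g⁻¹ := by
  obtain ⟨h1, h2, h3, h4⟩ := h o S.o_mem
  refine In.of h1 (by simpa using S.o_mem) ?_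
  rw [Cp, inv_smul_smul, σ_inv]
  exact ⟨by rw [h2]; ring, inv_mem h3, by rw [h4, inv_smul_smul]⟩

variable (S) in
/-- The group of the structure. -/
def K : Subgroup D.G where
  carrier := {g | ∃ k, S.In k g}
  one_mem' := ⟨0, In.triv S.o_mem (Triv.one _)⟩
  mul_mem' := fun ⟨_, h⟩ ⟨_, h'⟩ => ⟨_, h.mul h'⟩
  inv_mem' := fun ⟨_, h⟩ => ⟨_, h.inv⟩

variable (S) in
/-- The subgroup preserving positions. -/
def P : Subgroup D.G where
  carrier := {g | S.In 0 g}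
  one_mem' := In.triv S.o_mem (Triv.one _)
  mul_mem' := fun h h' => h.mul h'
  inv_mem' := fun h => h.inv

theorem rist_le {v : W X} (hv : v ∈ S.A) (x : X) : D.rist v x ≤ S.P := fun _ hg =>
  In.triv hv (hg v (self_not_mem v x))

variable (S) in
theorem exists_line : ∃ ℓ : ℤ → W X, ℓ 0 = o ∧ ∀ n, ℓ n ∈ S.A ∧ S.pos (ℓ n) = n ∧
    ∀ c, ∃ y ∈ S.q (ℓ n) c, ℓ (n + ε c) = (ℓ n).s y := by
  choose nx hnx using fun v c => (S.adm _).ne _ (S.val v) c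
  let U : Bool → ℕ → W X := fun c n => (fun v => v.s (nx v c))^[n] o
  have hU : ∀ c n, U c (n + 1) = (U c n).s (nx (U c n) c) := fun c n =>
    Function.iterate_succ_apply' _ _ _
  have h1 : ∀ c n, U c n ∈ S.A ∧ S.pos (U c n) = n * ε c := fun c n => by
    induction n with
    | zero => exact ⟨S.o_mem, S.pos0.trans (by simp)⟩
    | succ n ih =>
      rw [hU]
      exact ⟨s_mem_A ih.1 (hnx _ c), by rw [(S.adj _ _ _ (hnx _ c)).2, ih.2]; push_cast; ring⟩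
  have h2 : ∀ c n, ∃ y ∈ S.q (U c (n + 1)) (!c), U c n = (U c (n + 1)).s y := fun c n => by
    rw [hU]
    exact ⟨_, (S.adj _ _ _ (hnx _ c)).1, (s_s _ _).symm⟩
  let ℓ : ℤ → W X := fun n => if 0 ≤ n then U true n.toNat else U false (-n).toNat
  have h3 : ∀ c (n : ℕ), ℓ (n * ε c) = U c n := by
    rintro (_ | _) (_ | n) <;> simp [ℓ, ε]
    · rfl
    · omega
    · omega
  refine ⟨ℓ, rfl, fun m => ?_⟩
  obtain ⟨c, n, rfl⟩ : ∃ (c : Bool) (n : ℕ), m = n * ε c := by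
    obtain ⟨n, rfl | rfl⟩ := m.eq_nat_or_neg
    exacts [⟨true, n, by simp [ε]⟩, ⟨false, n, by simp [ε]⟩]
  have h4 : ∀ c (n : ℕ), ℓ (n * ε c + ε c) = U c (n + 1) := fun c n => by
    rw [← h3]; push_cast; ring_nf
  refine ⟨h3 c n ▸ (h1 c n).1, by rw [h3, (h1 c n).2], fun c' => ?_⟩
  by_cases e : c' = c
  · rw [e, h3, h4]
    exact ⟨_, hnx _ _, hU c n⟩
  rcases n with _ | n
  · have := h4 c' 0
    simp only [Nat.cast_zero, zero_mul] at this ⊢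
    exact ⟨_, hnx _ _, this.trans (hU c' 0)⟩
  · obtain rfl : c' = !c := Bool.eq_not.2 e
    have : ((n + 1 : ℕ) : ℤ) * ε c + ε (!c) = n * ε c := by cases c <;> simp [ε]
    rw [this, h3, h3]
    exact h2 c n

theorem loc_trans {M : Subgroup D.G} (hM : ∀ v ∈ S.A, ∀ c, ∀ x ∈ S.q v c, D.rist v x ≤ M)
    {v : W X} (hv : v ∈ S.A) {c x y} (hx : x ∈ S.q v c) (hy : y ∈ S.q v c) :
    ∃ m ∈ M, m • v = v ∧ σ m v • x = y := by
  obtain ⟨r, hr, rfl⟩ := (S.adm _).trans _ (S.val v) c x hx y hy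
  obtain ⟨m, h1, h2, rfl⟩ := exists_loc (M := M) (v := v) (fun z hz => by
    obtain ⟨c, hc⟩ := Set.mem_iUnion.1 hz
    exact hM _ (s_mem_A hv hc) _ z (S.adj _ _ _ hc).1) hr
  exact ⟨m, h1, h2, rfl⟩

theorem fiber_trans {M : Subgroup D.G} (hM : ∀ v ∈ S.A, ∀ c, ∀ x ∈ S.q v c, D.rist v x ≤ M)
    (hP : M ≤ S.P) {a a' : W X} (ha : a ∈ S.A) (ha' : a' ∈ S.A) (e : S.pos a = S.pos a') :
    ∃ m ∈ M, m • a = a' := by
  obtain ⟨ℓ, h0, hℓ⟩ := S.exists_line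
  have key : ∀ a ∈ S.A, ∃ m ∈ M, m • a = ℓ (S.pos a) := fun a ha => by
    refine A_ind (p := fun a => ∃ m ∈ M, m • a = ℓ (S.pos a))
      ⟨1, one_mem _, by rw [S.pos0, h0, one_smul]⟩ ?_ ha
    rintro v hv c x hx ⟨m, hm, e⟩
    obtain ⟨y, hy, e'⟩ := (hℓ (S.pos v)).2.2 c
    obtain ⟨m', h1, h2, h3⟩ := loc_trans hM (hℓ _).1 (e ▸ (hP hm v hv).2.mem hx) hy
    exact ⟨_, mul_mem h1 hm, by
      rw [mul_smul, smul_s, e, smul_s, h2, h3, (S.adj _ _ _ hx).2, e']⟩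
  obtain ⟨m, hm, h⟩ := key a ha
  obtain ⟨m', hm', h'⟩ := key a' ha'
  exact ⟨_, mul_mem (inv_mem hm') hm, by rw [mul_smul, h, e, ← h', inv_smul_smul]⟩

theorem P_le {M : Subgroup D.G} (hM : ∀ v ∈ S.A, ∀ c, ∀ x ∈ S.q v c, D.rist v x ≤ M) :
    S.P ≤ M := fun g hg => by
  obtain ⟨m, hm, e⟩ := fiber_trans (M := M ⊓ S.P)
    (fun v hv c x hx => le_inf (hM v hv c x hx) (rist_le hv x)) inf_le_right (hg o S.o_mem).1
    S.o_mem (by simpa using (hg o S.o_mem).2.1)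
  obtain ⟨z, hz⟩ := (S.adm _).ne _ (S.val o) true
  have h1 : ⋃ c, F.O c = ⋃ c, S.q o c := by
    rw [eq_thick (S := S) (k := 0) (q := S.q o) (by simpa [S.pos0] using S.val o)]
    exact (Function.Surjective.iUnion_comp (f := (xor · S.e))
      (fun c => ⟨xor c S.e, by simp⟩) F.O).symm
  have : m * g ∈ M := mem_of_loc (S := ⋃ c, S.q o c) (fun z hz => by
      obtain ⟨c, hc⟩ := Set.mem_iUnion.1 hz
      exact hM _ (s_mem_A S.o_mem hc) _ z (S.adj _ _ _ hc).1) (Set.mem_iUnion.2 ⟨_, hz⟩)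
    (hM _ S.o_mem _ z hz) (by rwa [mul_smul]) (h1 ▸ (mul_mem hm.2 hg o S.o_mem).2.2.1)
  simpa using M.mul_mem (M.inv_mem hm.1) this

theorem sub_half {w : W X} (hw : w ∈ S.A) {c y} (hy : y ∈ S.q w c) (c' : Bool) :
    ∃ z ∈ S.q (w.s y) c', (w.s y).h z ⊆ w.h y :=
  have ⟨z, h1, h2⟩ := (S.adm _).two (S.val (w.s y)) c' y
  ⟨z, h1, h_s_subset h2⟩

theorem tits' [FaithfulSMul H X] (N : Subgroup D.G)
    (hN : ∀ p ∈ S.P, ∀ n ∈ N, p * n * p⁻¹ ∈ N) : N ≤ fixingSubgroup D.G S.A ∨ S.P ≤ N := by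
  refine or_iff_not_imp_left.2 fun h => P_le fun w hw c x hx => ?_
  obtain ⟨n, hn, h⟩ := SetLike.not_le_iff_exists.1 h
  rw [mem_fixingSubgroup_iff] at h
  push Not at h
  obtain ⟨a, ha, h⟩ := h
  obtain ⟨x₀, h₀⟩ := (S.adm _).ne _ (S.val a) true
  refine tits (fun v x => v ∈ S.A ∧ ∃ c, x ∈ S.q v c) ?_ ?_ ?_
    (fun v x h g hg => In.triv h.1 hg) hN hn ⟨ha, _, h₀⟩ h ⟨hw, c, hx⟩
  · rintro v x ⟨hv, c, hx⟩
    exact ⟨s_mem_A hv hx, _, (S.adj _ _ _ hx).1⟩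
  · rintro v - ⟨hv, -⟩ y y'
    obtain ⟨z, h1, h2⟩ := (S.adm _).two (S.val v) true y
    obtain ⟨z', h1', h2'⟩ := (S.adm _).two (S.val v) false y
    by_cases e : z = y'
    · exact ⟨z', ⟨hv, _, h1'⟩, h2', fun e' => Bool.noConfusion
        ((S.adm _).disj _ (S.val v) _ _ z h1 (e ▸ e' ▸ h1'))⟩
    · exact ⟨z, ⟨hv, _, h1⟩, h2, e⟩
  rintro v x w y ⟨hv, c, hx⟩ ⟨hw, c', hy⟩
  have step : ∀ n c, (∃ u ∈ S.A, S.pos u = n ∧ ∃ z ∈ S.q u c, u.h z ⊆ w.h y) →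
      ∀ c', ∃ u ∈ S.A, S.pos u = n + ε c ∧ ∃ z ∈ S.q u c', u.h z ⊆ w.h y := by
    rintro _ c ⟨u, hu, rfl, z, hz, h⟩ c'
    obtain ⟨z', h1, h2⟩ := sub_half hu hz c'
    exact ⟨_, s_mem_A hu hz, (S.adj _ _ _ hz).2, z', h1, h2.trans h⟩
  have all : ∀ n c, ∃ u ∈ S.A, S.pos u = n ∧ ∃ z ∈ S.q u c, u.h z ⊆ w.h y := fun n =>
    Int.inductionOn' n (S.pos w + ε c') (step _ _ ⟨w, hw, rfl, y, hy, le_rfl⟩)
      (fun k _ ih => step k true (ih _)) fun k _ ih => step k false (ih _)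
  obtain ⟨u, hu, e, z, hz, h⟩ := all (S.pos v) c
  obtain ⟨m, hm, rfl⟩ := fiber_trans (fun v hv _ x _ => rist_le hv x) le_rfl hv hu e.symm
  obtain ⟨m', h1, h2, rfl⟩ := loc_trans (fun v hv _ x _ => rist_le hv x) hu
    ((hm v hv).2.mem hx) hz
  refine ⟨_, mul_mem h1 hm, fun t ht => h ?_⟩
  have := (smul_mem_h (m' * m)).2 ht
  rwa [σ_mul, mul_smul m' m v, h2, mul_smul (σ m' (m • v))] at this

end Str

end Loc

end Pool.Agent.Lib.MP_e7db20_al
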