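import Pool.Agent.Lib.MP_e7db20_al.Diag

/-! The orbits coming from a cyclic subgroup of order nine. -/

namespace Pool.Agent.Lib.MP_e7db20_al

open MulAction Pointwise SemidirectProduct Equiv Multiplicative

variable {T : Type} [Group T] (ι : Multiplicative (ZMod 9) →* T)

/-- The triple of elements of the cyclic subgroup. -/
def em (a : Fin 3 → ZMod 9) : Fin 3 → T := fun i => ι (ofAdd (a i))

/-- The corresponding point. -/
def pt (a : Fin 3 → ZMod 9) : Pt T := mkP (em ι a)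

/-- A Boolean as a residue. -/
def cb : Bool → ZMod 9
  | true => 1
  | false => 0

/-- The ports. -/
def Q (k : ZMod 9) (a : Fin 3 → ZMod 9) (c : Bool) : Set (Pt T) :=
  {x | ∃ m, x = pt ι (a + k • m) ∧ k * ∑ i, m i = k * cb c}

variable {ι}

theorem em_add (a b : Fin 3 → ZMod 9) : em ι (a + b) = em ι a * em ι b :=
  funext fun i => by simp [em, ofAdd_add]

theorem pt_of {a b : Fin 3 → ZMod 9} (e : ZMod 9) (h : ∀ i, b i = a i + e) : pt ι a = pt ι b :=
  mkP_eq.2 ⟨ι (ofAdd e), fun i => by simp [em, h, ofAdd_add]⟩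

theorem pt_eq (hι : Function.Injective ι) {a b : Fin 3 → ZMod 9} (h : pt ι a = pt ι b) :
    ∃ e, ∀ i, b i = a i + e := by
  obtain ⟨c, hc⟩ := mkP_eq.1 h
  refine ⟨b 0 - a 0, fun i => ofAdd.injective (hι ?_)⟩
  have h0 := hc 0
  have hi := hc i
  simp only [em] at h0 hi
  rw [sub_eq_neg_add, ofAdd_add, ofAdd_add, ofAdd_neg, map_mul, map_mul, map_inv, h0, hi,
    inv_mul_cancel_left]

theorem cj_em (z : Fin 3 → ZMod 9) (π : Perm (Fin 3)) :
    cj (em ι z) π = inl (em ι (z - z ∘ ⇑π⁻¹)) * inr π := by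
  rw [cj_apply, mk_eq_inl_mul_inr]
  congr 2
  funext i
  simp [em, sub_eq_add_neg, ofAdd_add, ofAdd_neg]

theorem inl_pt (w y : Fin 3 → ZMod 9) : (inl (em ι w) : Γ T) • pt ι y = pt ι (w + y) := by
  rw [pt, pt, em_add, inl_smul]

theorem inr_pt (π : Perm (Fin 3)) (y : Fin 3 → ZMod 9) :
    (inr π : Γ T) • pt ι y = pt ι (y ∘ ⇑π⁻¹) := congrArg mkP (funext fun _ => one_mul _)

theorem smul_Q (w : Fin 3 → ZMod 9) (π : Perm (Fin 3)) (k : ZMod 9) (a : Fin 3 → ZMod 9) :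
    (inl (em ι w) * inr π : Γ T) • Q ι k a = Q ι k (w + a ∘ ⇑π⁻¹) := by
  funext c
  ext x
  constructor
  · rintro ⟨_, ⟨m, rfl, h⟩, rfl⟩
    refine ⟨m ∘ ⇑π⁻¹, ?_, by simpa only [Function.comp, Equiv.sum_comp] using h⟩
    simp only [mul_smul, inr_pt, inl_pt, add_assoc]
    rfl
  · rintro ⟨m, rfl, h⟩
    refine ⟨_, ⟨m ∘ π, rfl, by simpa only [Function.comp, Equiv.sum_comp] using h⟩, ?_⟩
    simp only [mul_smul, inr_pt, inl_pt, add_assoc]
    congr 2
    funext i
    simp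

theorem Q_eq (hι : Function.Injective ι) {k a a' c x} (h : x ∈ Q ι k a c) (h' : x ∈ Q ι k a' c) :
    Q ι k a = Q ι k a' := by
  have key : ∀ {a a'}, x ∈ Q ι k a c → x ∈ Q ι k a' c → ∀ c', Q ι k a c' ⊆ Q ι k a' c' := by
    rintro a a' ⟨m, rfl, hm⟩ ⟨m', e, hm'⟩ c' _ ⟨n, rfl, hn⟩
    obtain ⟨e, he⟩ := pt_eq hι e
    refine ⟨m' - m + n, pt_of e fun i => ?_, ?_⟩
    · have := he i
      simp only [Pi.add_apply, Pi.smul_apply, smul_eq_mul, Pi.sub_apply] at this ⊢
      linear_combination this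
    · simp only [Pi.add_apply, Pi.sub_apply, Finset.sum_add_distrib, Finset.sum_sub_distrib]
      linear_combination hn + hm' - hm
  exact funext fun c' => (key h h' c').antisymm (key h' h c')

theorem mem_Q (k a c) : pt ι (a + k • Pi.single 0 (cb c)) ∈ Q ι k a c := ⟨_, rfl, by simp⟩

theorem Q_disj (hι : Function.Injective ι) {k : ZMod 9} (hk : ∀ z, k + 3 * k * z ≠ 0) {a c c' x}
    (h : x ∈ Q ι k a c) (h' : x ∈ Q ι k a c') : c = c' := by
  obtain ⟨m, rfl, h⟩ := h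
  obtain ⟨m', e, h'⟩ := h'
  obtain ⟨e, he⟩ := pt_eq hι e
  have h0 := he 0
  have h1 := he 1
  have h2 := he 2
  simp only [Pi.add_apply, Pi.smul_apply, smul_eq_mul, Fin.sum_univ_three] at h h' h0 h1 h2
  by_contra hne
  cases c <;> cases c' <;> simp only [cb, not_true] at hne h h'
  · exact hk (m 0 - m' 0) (by linear_combination h - h' - 2 * h0 + h1 + h2)
  · exact hk (m' 0 - m 0) (by linear_combination h' - h + 2 * h0 - h1 - h2)

theorem Q_trans {k a c x y} (hx : x ∈ Q ι k a c) (hy : y ∈ Q ι k a c) :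
    ∃ r ∈ (loc T).Rg (Q ι k a), r • x = y := by
  have h1 : ∀ c π, cj (em ι (a + k • Pi.single 0 (cb c))) π ∈ (loc T).Rg (Q ι k a) := fun c π =>
    Subgroup.mem_iSup_of_mem _ (Subgroup.mem_iSup_of_mem (Set.mem_iUnion.2 ⟨c, mem_Q k a c⟩)
      (mem_loc.2 ⟨π, rfl⟩))
  let B : AddSubgroup (Fin 3 → ZMod 9) := Subgroup.toAddSubgroup' (((loc T).Rg (Q ι k a)).comap
    (inl.comp (MonoidHom.mk' (fun w => em ι (toAdd w)) fun _ _ => em_add _ _)))
  have hB : ∀ w, w ∈ B ↔ inl (em ι w) ∈ (loc T).Rg (Q ι k a) := fun _ => Iff.rfl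
  have h2 : ∀ π : Perm (Fin 3), (k • Pi.single 0 1 - (k • Pi.single 0 1) ∘ ⇑π⁻¹) ∈ B := fun π => by
    have := mul_mem (h1 true π) (inv_mem (h1 false π))
    rw [cj_em, cj_em, mul_inv_rev, mul_assoc, mul_inv_cancel_left, ← map_inv, ← map_mul,
      mul_inv_eq_of_eq_mul (c := em ι (k • Pi.single 0 1 - (k • Pi.single 0 1) ∘ ⇑π⁻¹))] at this
    · exact this
    · rw [← em_add]
      congr 1
      funext i
      simp [cb]
      ring
  obtain ⟨m, rfl, h⟩ := hx
  obtain ⟨m', rfl, h'⟩ := hy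
  refine ⟨_, (hB _).1 (add_mem (ZMod.smul_mem (h2 (swap 0 1)) (m 1 - m' 1))
    (ZMod.smul_mem (h2 (swap 0 2)) (m 2 - m' 2))), ?_⟩
  rw [inl_pt]
  congr 1
  funext i
  simp only [Fin.sum_univ_three] at h h'
  fin_cases i <;> simp [swap_apply_of_ne_of_ne]
  · linear_combination h - h'
  · ring
  · ring

theorem inv_Q {r : Γ T} (hr : r ∈ (loc T).Rg (Q ι 1 0)) (k : ZMod 9) :
    ∀ a : Fin 3 → ZMod 9, ∃ a' : Fin 3 → ZMod 9, ∑ i, a' i = ∑ i, a i ∧ r • Q ι k a = Q ι k a' := by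
  rw [Loc.Rg, iSup_subtype'] at hr
  induction hr using Subgroup.iSup_induction' with
  | hp z l hl =>
    obtain ⟨_, _, ⟨c, rfl⟩, m, rfl, hm⟩ := z
    obtain ⟨π, rfl⟩ := mem_loc.1 hl
    refine fun a => ⟨_, ?_, by rw [cj_em, smul_Q]⟩
    simp only [Pi.add_apply, Pi.sub_apply, Finset.sum_add_distrib, Finset.sum_sub_distrib,
      Function.comp, Equiv.sum_comp π⁻¹ a, Equiv.sum_comp π⁻¹ m, Pi.smul_apply, Pi.zero_apply,
      smul_eq_mul, one_mul, zero_add, sub_self]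
  | h1 => exact fun a => ⟨a, rfl, one_smul _ _⟩
  | hmul r r' _ _ ih ih' =>
    intro a
    obtain ⟨a', h1, h2⟩ := ih' a
    obtain ⟨a'', h3, h4⟩ := ih a'
    exact ⟨a'', h3.trans h1, by rw [mul_smul, h2, h4]⟩

theorem le_Rg {q : Bool → Set (Pt T)} {c x} (h : x ∈ q c) : (loc T).L x ≤ (loc T).Rg q :=
  le_iSup₂_of_le x (Set.mem_iUnion.2 ⟨c, h⟩) le_rfl

theorem Q_sub {a : Fin 3 → ZMod 9} {i} (ha : ∑ j, a j = cb i) (c) : Q ι 3 a c ⊆ Q ι 1 0 i := by
  rintro _ ⟨m, rfl, h⟩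
  refine ⟨fun j => a j + 3 * m j - cb c, pt_of (-cb c) fun j => by simp [sub_eq_add_neg], ?_⟩
  simp only [Fin.sum_univ_three] at *
  linear_combination ha + h

/-- The orbits and the thin families. -/
noncomputable def fold (hι : Function.Injective ι) : (loc T).Fold where
  O := Q ι 1 0
  θ i := {q | ∃ a, ∑ j, a j = cb i ∧ q = Q ι 3 a}
  admO := by
    refine ⟨?_, ?_, ?_, ?_, ?_, ?_⟩ <;> rintro _ rfl
    · exact fun c => ⟨_, mem_Q _ _ c⟩
    · exact fun _ _ _ => Q_disj hι (by decide)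
    · exact fun _ _ => le_Rg
    · exact fun _ _ hx _ hy => Q_trans hx hy
    · intro r hr
      obtain ⟨a, h1, h2⟩ := inv_Q hr 1 0
      exact h2.trans (Q_eq hι (mem_Q 1 a false) ⟨a, by simp [cb], by simpa [cb] using h1⟩)
    · rintro _ rfl _ _ - -
      rfl
  admθ i := by
    refine ⟨?_, ?_, ?_, ?_, ?_, ?_⟩ <;> rintro _ ⟨a, ha, rfl⟩
    · exact fun c => ⟨_, mem_Q _ _ c⟩
    · exact fun _ _ _ => Q_disj hι (by decide)
    · exact fun c _ hx => le_Rg (Q_sub ha c hx)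
    · exact fun _ _ hx _ hy => Q_trans hx hy
    · intro r hr
      obtain ⟨a', h1, h2⟩ := inv_Q hr 3 a
      exact ⟨a', h1.trans ha, h2⟩
    · rintro _ ⟨a', -, rfl⟩ _ _
      exact Q_eq hι
  θsub := by
    rintro i _ ⟨a, ha, rfl⟩
    exact Q_sub ha
  θsup := by
    rintro i c _ ⟨m, rfl, h⟩
    refine ⟨_, ⟨fun j => m j - 3 * Pi.single (M := fun _ => ZMod 9) 0 (cb c) j + cb c, ?_, rfl⟩,
      Pi.single 0 (cb c), pt_of (cb c) fun j => by simp; ring, by simp⟩
    simp only [Fin.sum_univ_three] at *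
    simp
    linear_combination h

/-- Translations of the residues modulo nine, as even permutations. -/
def ι₉ : Multiplicative (ZMod 9) →* alternatingGroup (ZMod 9) :=
  (MulAction.toPermHom (Multiplicative (ZMod 9)) (ZMod 9)).codRestrict _ fun a => by
    have h : a ^ 9 = 1 := by revert a; decide
    have := congrArg (Perm.sign.comp (MulAction.toPermHom (Multiplicative (ZMod 9)) (ZMod 9))) h
    rw [map_pow, map_one] at this
    rw [Perm.mem_alternatingGroup]
    rcases Int.units_eq_one_or (Perm.sign (MulAction.toPermHom _ (ZMod 9) a)) with e | e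
    · exact e
    · rw [MonoidHom.comp_apply, e] at this
      exact absurd this (by decide)

theorem exists_example : ∃ (G : Type) (_ : Group G) (_ : TopologicalSpace G),
    InP G ∧ InS G ∧ ¬ SWellFounded G := by
  have : IsSimpleGroup (alternatingGroup (ZMod 9)) := alternatingGroup.isSimpleGroup (by simp)
  have hZ : ∀ b : alternatingGroup (ZMod 9), (∀ u, u * b = b * u) → b = 1 := fun b h => by
    have := Subgroup.mem_center_iff.2 h
    rwa [alternatingGroup.center_eq_bot (by simp), Subgroup.mem_bot] at this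
  have hι : Function.Injective ι₉ := fun a b e =>
    toAdd.injective <| add_right_cancel (show toAdd a + 0 = toAdd b + 0 from congrArg (fun p => p.1 0) e)
  let _ : TopologicalSpace (Γ (alternatingGroup (ZMod 9))) := ⊥
  have : DiscreteTopology (Γ (alternatingGroup (ZMod 9))) := ⟨rfl⟩
  have : Finite (Γ (alternatingGroup (ZMod 9))) := Finite.of_equiv _ equivProd.symm
  have : Finite (Pt (alternatingGroup (ZMod 9))) := Quotient.finite _
  have := faithful hZ
  exact ⟨_, _, _, (fold hι).main (coatom_stab hZ) (gen_top hZ)⟩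

end Pool.Agent.Lib.MP_e7db20_al
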