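import Pool.Agent.Lib.MP_e7db20_al.Defs

/-! An abstract criterion for the failure of well-foundedness. -/

namespace Pool.Agent.Lib.MP_e7db20_al

open Topology

theorem CompGen.of_surj {A B : Type} [Group A] [TopologicalSpace A] [Group B] [TopologicalSpace B]
    (φ : A →* B) (hc : Continuous φ) (hs : Function.Surjective φ) (h : CompGen A) :
    CompGen B := by
  obtain ⟨C, hC, h⟩ := h
  refine ⟨φ '' C, hC.image hc, ?_⟩
  rw [← MonoidHom.map_closure, h, Subgroup.map_top_of_surjective _ hs]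

variable {G : Type} [Group G] [TopologicalSpace G]

theorem compGen_closure {C : Set G} (hC : IsCompact C) : CompGen (Subgroup.closure C) :=
  ⟨_, IsInducing.subtypeVal.isCompact_preimage' hC
    (by simp), Subgroup.closure_preimage_eq_top C⟩

/-- A continuous open surjection from a subgroup, with kernel inside `Z`. -/
def Nice {A : Subgroup G} {Q : Type} [Group Q] [TopologicalSpace Q] (φ : A →* Q)
    (Z : Subgroup G) : Prop :=
  Continuous φ ∧ IsOpenMap φ ∧ Function.Surjective φ ∧ ∀ a, φ a = 1 → (a : G) ∈ Z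

theorem Nice.restrict {A B Z : Subgroup G} {Q : Type} [Group Q] [TopologicalSpace Q]
    {φ : A →* Q} (h : Nice φ Z) (hB : B ≤ A) (hBo : IsOpen (B : Set G)) (O : Subgroup Q)
    (hO : O = (B.subgroupOf A).map φ) : ∃ ψ : B →* O, Nice ψ Z := by
  subst hO
  have hi : Continuous (Subgroup.inclusion hB) := continuous_inclusion hB
  have ho : IsOpenMap (Subgroup.inclusion hB) :=
    IsOpen.isOpenMap_inclusion hBo hB
  refine ⟨(φ.comp (Subgroup.inclusion hB)).codRestrict _ fun b =>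
    ⟨Subgroup.inclusion hB b, b.2, rfl⟩, ?_, ?_, ?_, fun a ha => ?_⟩
  · exact (h.1.comp hi).subtype_mk _
  · exact (h.2.1.comp ho).subtype_mk _
  · rintro ⟨_, a, ha, rfl⟩
    exact ⟨⟨a, ha⟩, rfl⟩
  · exact h.2.2.2 (Subgroup.inclusion hB a) (congrArg Subtype.val ha)

/-- A family of triples of subgroups closed under descent. -/
structure Sys (G : Type) [Group G] [TopologicalSpace G] where
  /-- the good triples -/
  Good : Subgroup G → Subgroup G → Subgroup G → Prop
  ex : ∃ K P Z, Good K P Z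
  le : ∀ {K P Z}, Good K P Z → P ≤ K
  isOpen : ∀ {K P Z}, Good K P Z → IsOpen (P : Set G)
  conj : ∀ {K P Z}, Good K P Z → ∀ k ∈ K, ∀ p ∈ P, k * p * k⁻¹ ∈ P
  cg : ∀ {K P Z}, Good K P Z → CompGen K
  tits : ∀ {K P Z}, Good K P Z → ∀ N : Subgroup G, (∀ p ∈ P, ∀ n ∈ N, p * n * p⁻¹ ∈ N) →
    N ≤ Z ∨ P ≤ N
  nopen : ∀ {K P Z}, Good K P Z → ¬ IsOpen (Z : Set G)
  chain : ∀ {K P Z}, Good K P Z → ∃ J : ℕ → Subgroup G, Monotone J ∧
    (∀ m, IsOpen (J m : Set G)) ∧ (∀ m, Z ⊓ K ≤ J m) ∧ (∀ m, ¬ P ≤ J m) ∧ ∀ p ∈ P, ∃ m, p ∈ J m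
  desc : ∀ {K P Z}, Good K P Z → ∃ K' P' Z', Good K' P' Z' ∧ K' ≤ P ∧ Z ≤ Z'

variable [IsTopologicalGroup G] (S : Sys G) {K P Z : Subgroup G}

theorem Sys.isOpenK (h : S.Good K P Z) : IsOpen (K : Set G) :=
  Subgroup.isOpen_mono (S.le h) (S.isOpen h)

theorem Sys.not_le (h : S.Good K P Z) : ¬ P ≤ Z := fun h' =>
  S.nopen h (Subgroup.isOpen_mono h' (S.isOpen h))

theorem Sys.normal (h : S.Good K P Z) : (P.subgroupOf K).Normal :=
  ⟨fun p hp k => S.conj h k k.2 p hp⟩

theorem Sys.not_compGen (h : S.Good K P Z) {Q : Type} [Group Q] [TopologicalSpace Q]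
    {φ : P →* Q} (hφ : Nice φ Z) : ¬ CompGen Q := by
  rintro ⟨C, hC, hcl⟩
  obtain ⟨J, hJ, ho, hz, hp, hu⟩ := S.chain h
  have hmono : Monotone fun m => ((J m).subgroupOf P).map φ := fun a b hab =>
    Subgroup.map_mono (Subgroup.comap_mono (hJ hab))
  obtain ⟨m, hm⟩ := hC.elim_directed_cover (fun m => ((((J m).subgroupOf P).map φ : Subgroup Q) : Set Q))
    (fun m => hφ.2.1 _ ((ho m).preimage continuous_subtype_val))
    (fun q _ => by
      obtain ⟨p, rfl⟩ := hφ.2.2.1 q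
      obtain ⟨m, hm⟩ := hu p p.2
      exact Set.mem_iUnion.2 ⟨m, p, hm, rfl⟩)
    (Monotone.directed_le (f := fun m => ((((J m).subgroupOf P).map φ : Subgroup Q) : Set Q))
      fun a b hab => hmono hab)
  refine hp m fun p hpP => ?_
  have : φ ⟨p, hpP⟩ ∈ ((J m).subgroupOf P).map φ := by
    rw [← Subgroup.closure_le] at hm
    exact hm (hcl ▸ Subgroup.mem_top _)
  obtain ⟨q, hq, hpq⟩ := this
  have h1 : ((⟨p, hpP⟩ * q⁻¹ : P) : G) ∈ Z := hφ.2.2.2 _ (by simp [hpq])
  have h2 := (J m).mul_mem (hz m ⟨h1, S.le h (⟨p, hpP⟩ * q⁻¹ : P).2⟩) hq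
  simpa using h2

theorem Sys.ncomp (h : S.Good K P Z) : ¬ IsCompact (K : Set G) := fun hK => by
  have : CompactSpace P := isCompact_iff_compactSpace.1
    (hK.of_isClosed_subset (P.isClosed_of_isOpen (S.isOpen h)) (S.le h))
  exact S.not_compGen h (φ := MonoidHom.id P) ⟨continuous_id, IsOpenMap.id, Function.surjective_id,
    fun a ha => by simp [show a = 1 from ha]⟩ ⟨_, isCompact_univ, Subgroup.closure_univ⟩

theorem Sys.le_map {A : Subgroup G} (h : S.Good K P Z) (hPA : P ≤ A) (N : Subgroup A)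
    (hN : N.Normal) : N.map A.subtype ≤ Z ∨ P ≤ N.map A.subtype := by
  refine S.tits h _ ?_
  rintro p hp _ ⟨n, hn, rfl⟩
  exact ⟨_, hN.conj_mem n hn ⟨p, hPA hp⟩, rfl⟩

theorem Sys.res_eq (h : S.Good K P Z) {Q : Type} [Group Q] [TopologicalSpace Q]
    {φ : K →* Q} (hφ : Nice φ Z) : Res Q = (P.subgroupOf K).map φ := by
  apply le_antisymm
  · exact sInf_le ⟨(S.normal h).map _ hφ.2.2.1,
      hφ.2.1 _ ((S.isOpen h).preimage continuous_subtype_val)⟩
  · refine le_sInf fun M hM => ?_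
    rw [Subgroup.map_le_iff_le_comap]
    rcases S.le_map h (S.le h) (M.comap φ) (hM.1.comap φ) with h1 | h1
    · refine absurd (Subgroup.isOpen_mono h1 ?_) (S.nopen h)
      exact (S.isOpenK h).isOpenMap_subtype_val _ (hM.2.preimage hφ.1)
    · intro k hk
      obtain ⟨n, hn, e⟩ := h1 hk
      rwa [← Subtype.ext e]

theorem Sys.not_rank (n : ℕ) : ∀ {K P Z : Subgroup G}, S.Good K P Z →
    ∀ {Q : Type} [Group Q] [TopologicalSpace Q] {φ : P →* Q}, Nice φ Z → ¬ RankLE n Q := by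
  induction n with
  | zero => exact fun _ _ _ _ _ _ h => h
  | succ n ih =>
    intro K P Z h Q _ _ φ hφ hr
    rcases hr with hr | hr | hr
    · exact S.not_le h fun p hp => hφ.2.2.2 ⟨p, hp⟩ (Subsingleton.elim _ _)
    · exact S.not_compGen h hφ hr.1
    · obtain ⟨K', P', Z', h', hK, hZ⟩ := S.desc h
      obtain ⟨ψ, hψ⟩ := hφ.restrict hK (S.isOpenK h') _ rfl
      have hψ' : Nice ψ Z' := ⟨hψ.1, hψ.2.1, hψ.2.2.1, fun a ha => hZ (hψ.2.2.2 a ha)⟩
      obtain ⟨χ, hχ⟩ := hψ'.restrict (S.le h') (S.isOpen h') _ (S.res_eq h' hψ')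
      exact ih h' hχ (hr.2 _ (hφ.2.1 _ ((S.isOpenK h').preimage continuous_subtype_val))
        ((S.cg h').of_surj ψ hψ.1 hψ.2.2.1))

theorem nice_mk {A Z : Subgroup G} (N : Subgroup A) [N.Normal] (h : N.map A.subtype ≤ Z) :
    Nice (QuotientGroup.mk' N) Z :=
  ⟨QuotientGroup.continuous_mk, QuotientGroup.isOpenMap_coe, QuotientGroup.mk'_surjective N,
    fun a ha => h ⟨a, (QuotientGroup.eq_one_iff a).1 ha, rfl⟩⟩

theorem Sys.resOmega_eq [SecondCountableTopology G] (h : S.Good K P Z) :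
    ResOmega K = P.subgroupOf K := by
  have hn := S.normal h
  have : SecondCountableTopology K := TopologicalSpace.Subtype.secondCountableTopology (K : Set G)
  have ho : IsOpen (P.subgroupOf K : Set K) := (S.isOpen h).preimage continuous_subtype_val
  apply le_antisymm
  · have hd : DiscreteTopology (K ⧸ P.subgroupOf K) := QuotientGroup.discreteTopology ho
    refine sInf_le ⟨hn, (P.subgroupOf K).isClosed_of_isOpen ho, ?_, 2, Or.inr (Or.inl ⟨?_, ?_⟩)⟩
    · exact Elementary.discrete _ ⟨inferInstance, inferInstance, inferInstance, inferInstance⟩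
        inferInstance hd
    · exact (S.cg h).of_surj (QuotientGroup.mk' _) QuotientGroup.continuous_mk
        (QuotientGroup.mk'_surjective _)
    · left
      have : Res (K ⧸ P.subgroupOf K) = ⊥ :=
        le_bot_iff.1 (sInf_le ⟨inferInstance, isOpen_discrete _⟩)
      rw [this]
      infer_instance
  · refine le_sInf ?_
    rintro N ⟨hN, -, -, n, hr⟩
    rcases S.le_map h (S.le h) N hN with h1 | h1
    · exfalso
      have hφ := nice_mk N h1
      obtain ⟨χ, hχ⟩ := hφ.restrict (S.le h) (S.isOpen h) _ (S.res_eq h hφ)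
      have hcg := (S.cg h).of_surj _ hφ.1 hφ.2.2.1
      rcases n with _ | n
      · exact hr
      rcases hr with hr | hr | hr
      · exact S.not_le h fun p hp => hφ.2.2.2 ⟨p, S.le h hp⟩ (Subsingleton.elim _ _)
      · exact S.not_rank n h hχ hr.2
      · exact hr.1 hcg
    · intro k hk
      obtain ⟨n, hn, e⟩ := h1 hk
      rwa [← Subtype.ext e]

theorem Sys.ll [SecondCountableTopology G] (h : S.Good K P Z) {H : Subgroup G} (hH : H ≤ P) :
    Ll H K := by
  have he := S.resOmega_eq h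
  have ho : IsOpen (ResOmega K : Set K) :=
    he ▸ (S.isOpen h).preimage continuous_subtype_val
  refine ⟨S.ncomp h, hH.trans (S.le h), ?_, fun N hN _ hS _ => ?_⟩
  · have hd : DiscreteTopology (K ⧸ ResOmega K) := QuotientGroup.discreteTopology ho
    rw [(isClosed_discrete _).closure_eq]
    refine Set.Subsingleton.isCompact ?_
    rintro _ ⟨a, ha, rfl⟩ _ ⟨b, hb, rfl⟩
    rw [QuotientGroup.eq, he]
    exact P.mul_mem (P.inv_mem (hH ha)) (hH hb)
  · exfalso
    let ι : P →* ResOmega K := (Subgroup.inclusion (S.le h)).codRestrict _ fun p => he ▸ p.2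
    have hι : Nice ι ⊥ := by
      refine ⟨(continuous_inclusion (S.le h)).subtype_mk _,
        (IsOpen.isOpenMap_inclusion (S.isOpen h) (S.le h)).subtype_mk _, fun r => ⟨⟨r.1.1, ?_⟩, rfl⟩, fun a ha => ?_⟩
      · exact he.le r.2
      · exact congrArg (fun r : ResOmega K => r.1.1) ha
    rcases S.le_map h le_rfl (N.comap ι) (hN.comap ι) with h1 | h1
    · refine S.not_compGen h (φ := (QuotientGroup.mk' N).comp ι) ⟨?_, ?_, ?_, fun a ha => ?_⟩
        hS.2.2.1
      · exact QuotientGroup.continuous_mk.comp hι.1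
      · exact QuotientGroup.isOpenMap_coe.comp hι.2.1
      · exact (QuotientGroup.mk'_surjective N).comp hι.2.2.1
      · exact h1 ⟨a, (QuotientGroup.eq_one_iff (ι a)).1 ha, rfl⟩
    · refine hS.2.1 ?_
      have : Subsingleton (ResOmega K ⧸ N) := by
        refine ⟨fun a b => ?_⟩
        obtain ⟨a, rfl⟩ := QuotientGroup.mk_surjective a
        obtain ⟨b, rfl⟩ := QuotientGroup.mk_surjective b
        obtain ⟨p, hp⟩ := hι.2.2.1 (a⁻¹ * b)
        obtain ⟨n, hn, e⟩ := h1 p.2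
        rw [QuotientGroup.eq, ← hp, ← Subtype.ext e]
        exact hn
      infer_instance

include S in
theorem Sys.not_wf [SecondCountableTopology G] : ¬ SWellFounded G := by
  intro hw
  obtain ⟨K, ⟨P, Z, h⟩, hmin⟩ := hw {O | ∃ P Z, S.Good O P Z} S.ex
    fun O ⟨_, _, h⟩ => ⟨S.isOpenK h, S.cg h⟩
  obtain ⟨K', P', Z', h', hK', -⟩ := S.desc h
  obtain rfl := hmin K' ⟨P', Z', h'⟩ (S.ll h hK')
  obtain rfl := le_antisymm hK' (S.le h)
  exact S.not_compGen h (φ := MonoidHom.id _) ⟨continuous_id, IsOpenMap.id,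
    Function.surjective_id, fun a ha => by simp [show a = 1 from ha]⟩ (S.cg h)

end Pool.Agent.Lib.MP_e7db20_al
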