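import Pool.Agent.Lib.MP_e7db20_al.Aut
import Pool.Agent.Lib.MP_e7db20_al.Rank

/-! Topology, primitivity and simplicity of the group. -/

namespace Pool.Agent.Lib.MP_e7db20_al

open W Topology MulAction

namespace Loc

variable {X H : Type} [Group H] [MulAction H X] {D : Loc X H}

theorem two_vertices {M : Subgroup D.G} [IsPretransitive H X] {v : W X} {y : X}
    (h1 : ∀ g : D.G, g • v = v → g ∈ M) (h2 : ∀ g : D.G, g • v.s y = v.s y → g ∈ M) : M = ⊤ := by
  have key : ∀ u, ∃ m ∈ M, m • u = v ∨ m • u = v.s y := fun u => by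
    induction u using ind v with
    | h0 => exact ⟨1, one_mem _, Or.inl rfl⟩
    | hs u x ih =>
      obtain ⟨m, hm, e⟩ := ih
      obtain ⟨r, hr⟩ := exists_smul_eq H (σ m u • x) y
      obtain ⟨k, k1, k2⟩ := exists_const (D := D) r (a := m • u) Iff.rfl
      have : (k * m) • u.s x = (m • u).s y := by rw [mul_smul, smul_s, smul_s, k1, k2, hr]
      rcases e with e | e <;> rw [e] at k1 this
      · exact ⟨_, mul_mem (h1 k k1) hm, Or.inr this⟩
      · exact ⟨_, mul_mem (h2 k k1) hm, Or.inl (this.trans (s_s _ _))⟩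
  refine eq_top_iff.2 fun g _ => ?_
  obtain ⟨m, hm, e | e⟩ := key (g • v)
  · simpa using mul_mem (inv_mem hm) (h1 (m * g) (by rwa [mul_smul]))
  · have := congrArg W.par e
    rw [par_s, par_smul, par_smul] at this
    simp at this

theorem coatom [IsPretransitive H X] [Nontrivial X] (hc : ∀ x : X, IsCoatom (stabilizer H x))
    (a : W X) : IsCoatom (stabilizer D.G a) := by
  constructor
  · obtain ⟨x, y, hxy⟩ := exists_pair_ne X
    obtain ⟨g, hg, -⟩ := exists_const (D := D) 1 (a := a) (b := (a.s x).s y)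
      (by rw [par_s, par_s, not_not])
    intro e
    have : g • a = a := (e ▸ Subgroup.mem_top g : g ∈ stabilizer D.G a)
    exact self_not_mem a x (by simpa only [← hg, this] using h_s_subset hxy.symm (s_mem (a.s x) y))
  intro M hM
  obtain ⟨m, hm, hma⟩ := SetLike.exists_of_lt hM
  have key : ∀ (g k : D.G), k ∈ M → g • m • a = k • m • a → g ∈ M := fun g k hk e => by
    have : (k * m)⁻¹ * g * m ∈ M := hM.le (by
      rw [mem_stabilizer_iff, mul_smul, mul_smul, e, ← mul_smul k, inv_smul_smul])
    simpa [mul_assoc] using mul_mem (mul_mem (mul_mem hk hm) this) (inv_mem hm)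
  obtain ⟨y, hy⟩ := exists_h (v := m • a) (w := a) (Ne.symm hma)
  obtain ⟨z, hz⟩ := exists_h (v := (m • a).s y) (w := a) fun e => by
    have := congrArg W.par e
    rw [par_s, par_smul] at this
    simp at this
  generalize hw : (m • a).s y = w at hz
  have hv : m • a = w.s y := by rw [← hw, s_s]
  obtain ⟨l, hl, hly⟩ := D.move (x := z) (y := y) fun e => mem_h_s.1 (hw ▸ e ▸ hz) hy
  let M' : Subgroup H :=
    { carrier := {r | ∃ k ∈ M, k • w = w ∧ σ k w = r}
      one_mem' := ⟨1, one_mem _, rfl, rfl⟩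
      mul_mem' := by
        rintro _ _ ⟨k, h1, h2, rfl⟩ ⟨k', h1', h2', rfl⟩
        exact ⟨k * k', mul_mem h1 h1', by rw [mul_smul, h2', h2], by rw [σ_mul, h2']⟩
      inv_mem' := by
        rintro _ ⟨k, h1, h2, rfl⟩
        exact ⟨k⁻¹, inv_mem h1, by rw [inv_smul_eq_iff, h2], by rw [← σ_inv, h2]⟩ }
  have htop : M' = ⊤ := (hc y).2 _ (lt_of_le_of_ne (fun r hr => by
    obtain ⟨k, k1, k2⟩ := exists_const (D := D) r (a := w) Iff.rfl
    exact ⟨k, key k 1 (one_mem _) (by rw [hv, smul_s, k1, k2, hr, one_smul]), k1, k2 w⟩)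
    fun e => hly (by
      obtain ⟨k, k1, k2⟩ := exists_rist w hl
      exact (e ▸ ⟨k, hM.le (k1 a (by rwa [mem_h_s, not_not])).1, k2⟩ : l ∈ stabilizer H y)))
  refine two_vertices (v := w) (y := y) (fun g hg => ?_) fun g hg =>
    key g 1 (one_mem _) (by rwa [hv, one_smul])
  obtain ⟨k, k1, k2, k3⟩ : σ g w ∈ M' := htop ▸ Subgroup.mem_top _
  exact key g k k1 (by rw [hv, smul_s, smul_s, hg, k2, k3])

theorem core_eq [FaithfulSMul H X] [Nontrivial X] (a : W X) :
    (stabilizer D.G a).normalCore = ⊥ := by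
  refine eq_bot_iff.2 fun g hg => ext fun w => ?_
  have key : ∀ u : W X, (u.par ↔ a.par) → g • u = u := fun u hu => by
    obtain ⟨k, hk, -⟩ := exists_const (D := D) 1 hu
    have : (k⁻¹ * g * k⁻¹⁻¹) • a = a := hg k⁻¹
    rwa [inv_inv, mul_smul, mul_smul, inv_smul_eq_iff, hk] at this
  by_cases hw : w.par ↔ a.par
  · exact key w hw
  have h1 : ∀ x, g • w = w ∨ g • w ∈ w.h x := fun x => by
    have := smul_s g (w.s x) x
    rw [s_s, key (w.s x) (by rw [par_s]; tauto)] at this
    by_cases e : σ g (w.s x) • x = x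
    · exact Or.inl (by rw [this, e, s_s])
    · exact Or.inr (this ▸ h_s_subset e (s_mem _ _))
  obtain ⟨x, y, hxy⟩ := exists_pair_ne X
  by_contra hne
  exact hxy (h_unique ((h1 x).resolve_left hne) ((h1 y).resolve_left hne))

variable [TopologicalSpace H] [DiscreteTopology H]

instance : TopologicalSpace D.G := .induced G.p inferInstance

theorem isEmb : IsClosedEmbedding (G.p : D.G → _) := by
  refine ⟨⟨⟨rfl⟩, fun _ _ => G.ext⟩, ?_⟩
  have : Set.range (G.p : D.G → _) = {p | D.Cond p} :=
    Set.ext fun p => ⟨fun ⟨g, e⟩ => e ▸ g.2, fun h => ⟨⟨p, h⟩, rfl⟩⟩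
  simp only [this, Cond, Set.ofPred_and, Set.ofPred_forall]
  refine (isClosed_iInter fun v => isClosed_iInter fun x => ?_).inter
    ((isClosed_iInter fun v => isClosed_iInter fun x => ?_).inter (isClosed_iInter fun v => ?_))
  · exact (isClosed_discrete {t : W X × W X × H | t.1 = t.2.1.s (t.2.2 • x)}).preimage
      (f := fun p : (W X → W X) × (W X → H) => (p.1 (v.s x), p.1 v, p.2 v)) (by fun_prop)
  · exact (isClosed_discrete {t : H × H | t.1⁻¹ * t.2 ∈ D.L x}).preimage
      (f := fun p : (W X → W X) × (W X → H) => (p.2 v, p.2 (v.s x))) (by fun_prop)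
  · exact (isClosed_discrete {t : W X | t.par ↔ v.par}).preimage
      (f := fun p : (W X → W X) × (W X → H) => p.1 v) (by fun_prop)

theorem cont_smul (v : W X) : Continuous fun g : D.G => g • v :=
  (continuous_apply v).comp (continuous_fst.comp isEmb.continuous)

theorem cont_σ (v : W X) : Continuous fun g : D.G => σ g v :=
  (continuous_apply v).comp (continuous_snd.comp isEmb.continuous)

instance : ContinuousSMul D.G (W X) := ⟨continuous_prod_of_discrete_right.2 cont_smul⟩

theorem cont_σ' : Continuous fun p : D.G × W X => σ p.1 p.2 :=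
  continuous_prod_of_discrete_right.2 cont_σ

theorem cont_inv (v : W X) : Continuous fun g : D.G => g⁻¹ • v :=
  continuous_discrete_rng.2 fun w => by
    have : (fun g : D.G => g⁻¹ • v) ⁻¹' {w} = (fun g : D.G => g • w) ⁻¹' {v} :=
      Set.ext fun g => inv_smul_eq_iff.trans eq_comm
    exact this ▸ (isOpen_discrete _).preimage (cont_smul w)

theorem cont_of {Y : Type} [TopologicalSpace Y] {f : Y → D.G}
    (h1 : ∀ v : W X, Continuous fun y => f y • v) (h2 : ∀ v, Continuous fun y => σ (f y) v) :
    Continuous f :=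
  continuous_induced_rng.2 ((continuous_pi h1).prodMk (continuous_pi h2))

instance : IsTopologicalGroup D.G where
  continuous_mul := cont_of (fun v => by
      simp only [mul_smul]
      exact continuous_fst.smul ((cont_smul v).comp continuous_snd)) fun v => by
    simp only [σ_mul]
    exact (continuous_of_discreteTopology (f := fun t : H × H => t.1 * t.2)).comp
      ((cont_σ'.comp (continuous_fst.prodMk ((cont_smul v).comp continuous_snd))).prodMk
        ((cont_σ v).comp continuous_snd))
  continuous_inv := cont_of cont_inv fun v =>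
    (continuous_of_discreteTopology (f := fun t : H => t⁻¹)).comp
      (cont_σ'.comp (continuous_id.prodMk (cont_inv v)))

variable [Finite X] [Finite H]

instance : SecondCountableTopology D.G := isEmb.isEmbedding.secondCountableTopology

theorem isCompact_ball (b : W X) (n : ℕ) : IsCompact {g : D.G | d b (g • b) ≤ n} := by
  refine (isEmb.isCompact_preimage ((isCompact_univ_pi fun v =>
    (finite_ball b (n + d b v)).isCompact).prod isCompact_univ)).of_isClosed_subset
    ((isClosed_discrete {w | d b w ≤ n}).preimage (cont_smul b)) fun g hg =>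
      ⟨fun v _ => ?_, trivial⟩
  have := d_tri b (g • b) (g • v)
  rw [d_smul] at this
  exact this.trans (Nat.add_le_add_right hg _)

omit [Finite X] [Finite H] in
theorem isOpen_stab (b : W X) : IsOpen (stabilizer D.G b : Set D.G) :=
  (isOpen_discrete {b}).preimage (cont_smul b)

theorem isCompact_stab (b : W X) : IsCompact (stabilizer D.G b : Set D.G) :=
  (isCompact_ball b 0).of_isClosed_subset (Subgroup.isClosed_of_isOpen _ (isOpen_stab b))
    fun g hg => by
      have : g • b = b := hg
      simp [this]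

theorem isTDLC : IsTDLC D.G :=
  ⟨inferInstance, isEmb.isEmbedding.t2Space,
    (isCompact_stab o).locallyCompactSpace_of_mem_nhds_of_group
      ((isOpen_stab o).mem_nhds (one_mem (stabilizer D.G o))),
    ⟨isEmb.isEmbedding.isTotallyDisconnected (isTotallyDisconnected_of_totallyDisconnectedSpace _)⟩⟩

theorem inP_inS [FaithfulSMul H X] [IsPretransitive H X]
    (hc : ∀ x : X, IsCoatom (stabilizer H x)) (hg : ⨆ x, D.L x = ⊤)
    (h3 : ∀ y y' : X, ∃ z, z ≠ y ∧ z ≠ y') [Nonempty X] (hd : ¬ DiscreteTopology D.G) :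
    InP D.G ∧ InS D.G := by
  obtain ⟨x₀⟩ := ‹Nonempty X›
  have : Nontrivial X := by
    obtain ⟨z, hz, -⟩ := h3 x₀ x₀
    exact ⟨z, x₀, hz⟩
  have hU := coatom (D := D) hc o
  refine ⟨⟨isTDLC, hd, _, hU, isCompact_stab o, isOpen_stab o, core_eq o⟩, isTDLC, hd, ?_,
    fun N hN _ => ?_⟩
  · obtain ⟨g, -, hg⟩ := SetLike.exists_of_lt hU.lt_top
    refine ⟨insert g (stabilizer D.G o), (isCompact_stab o).insert g, hU.2 _ (lt_of_le_of_ne
      (fun k hk => Subgroup.subset_closure (Or.inr hk)) fun e => hg ?_)⟩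
    exact e ▸ Subgroup.subset_closure (Or.inl rfl)
  · refine or_iff_not_imp_left.2 fun hne => ?_
    obtain ⟨⟨n, hn⟩, hn1⟩ := Subgroup.ne_bot_iff_exists_ne_one.1 hne
    obtain ⟨a, ha⟩ : ∃ a : W X, n • a ≠ a := by
      by_contra! h
      exact hn1 (Subtype.ext (ext h))
    have hr : ∀ w x, D.rist w x ≤ N := fun w x =>
      tits (fun _ _ => True) (P := ⊤) (fun _ _ _ => trivial)
        (fun _ _ _ y y' => by simpa using h3 y y') (fun v x w y _ _ => by
          obtain ⟨w', y', h1, h2⟩ : ∃ (w' : W X) (y' : X), (w'.par ↔ v.par) ∧ w'.h y' ⊆ w.h y := by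
            by_cases h : w.par ↔ v.par
            · exact ⟨w, y, h, le_rfl⟩
            · obtain ⟨z, hz, -⟩ := h3 y y
              exact ⟨w.s y, z, by rw [par_s]; tauto, h_s_subset hz⟩
          obtain ⟨r, hr⟩ := exists_smul_eq H x y'
          obtain ⟨k, k1, k2⟩ := exists_const (D := D) r h1
          exact ⟨k, trivial, fun u hu => h2 (by rw [← k1, ← hr, ← k2 v, smul_mem_h]; exact hu)⟩)
        (fun _ _ _ _ _ => trivial) (fun p _ n hn => hN.conj_mem n hn p) hn (x₀ := x₀) trivial ha
        trivial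
    have hle : stabilizer D.G o ≤ N := fun g hgo =>
      mem_of_loc (S := Set.univ) (fun z _ => hr _ z) (Set.mem_univ x₀) (hr _ _) hgo
        (by simp [hg])
    refine hU.2 N (lt_of_le_of_ne hle fun e => hne ?_)
    rw [← core_eq o, e, Subgroup.normalCore_eq_self]

end Loc

end Pool.Agent.Lib.MP_e7db20_al
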