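import Mathlib

/-! The regular tree whose edges are coloured by `X`, each colour occurring once at each vertex. -/

namespace Pool.Agent.Lib.MP_e7db20_al

/-- Vertices: words without two equal consecutive letters. -/
def W (X : Type) : Type := {l : List X // l.IsChain (· ≠ ·)}

namespace W

variable {X : Type}

instance [Countable X] : Countable (W X) := Subtype.countable

/-- The root. -/
def o : W X := ⟨[], List.isChain_nil⟩

open Classical in
/-- The neighbour along the edge of colour `x`. -/
noncomputable def s (v : W X) (x : X) : W X :=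
  if h : v.1.head? = some x then ⟨v.1.tail, v.2.tail⟩ else
    ⟨x :: v.1, List.isChain_cons.2 ⟨fun y hy e => h (e ▸ hy), v.2⟩⟩

theorem s_cons (l : List X) (x : X) (h : (x :: l).IsChain (· ≠ ·)) :
    s ⟨x :: l, h⟩ x = ⟨l, h.tail⟩ := by simp [s]

theorem s_ne (v : W X) (x : X) (h : v.1.head? ≠ some x) : (v.s x).1 = x :: v.1 := by
  simp [s, h]

theorem s_cases (v : W X) (x : X) : (v.1.head? ≠ some x ∧ (v.s x).1 = x :: v.1) ∨
    ((v.s x).1.head? ≠ some x ∧ v.1 = x :: (v.s x).1) := by
  by_cases h : v.1.head? = some x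
  · right
    obtain ⟨_ | ⟨y, l⟩, hl⟩ := v
    · simp at h
    · obtain rfl : y = x := by simpa using h
      rw [s_cons]
      exact ⟨fun e => (List.isChain_cons.1 hl).1 y e rfl, rfl⟩
  · exact Or.inl ⟨h, s_ne v x h⟩

@[simp] theorem s_s (v : W X) (x : X) : (v.s x).s x = v := by
  apply Subtype.ext
  rcases s_cases v x with h | h
  · rcases s_cases (v.s x) x with h' | h'
    · simp [h.2] at h'
    · simpa [h.2] using h'.2.symm
  · rw [s_ne _ _ h.1, ← h.2]

theorem ind_o {p : W X → Prop} (h0 : p o) (hs : ∀ v x, p v → p (v.s x)) (v : W X) : p v := by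
  obtain ⟨l, hl⟩ := v
  induction l with
  | nil => exact h0
  | cons x l ih =>
    have := hs _ x (ih hl.tail)
    rwa [← s_cons l x hl, s_s] at this

/-- Walking along a list of colours. -/
noncomputable def walk (v : W X) (l : List X) : W X := l.foldl s v

theorem walk_rev (l : List X) : ∀ v : W X, (v.walk l).walk l.reverse = v := by
  induction l with
  | nil => exact fun v => rfl
  | cons x l ih =>
    intro v
    have := ih (v.s x)
    simp only [walk, List.foldl_cons, List.reverse_cons, List.foldl_append, List.foldl_nil] at *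
    rw [this, s_s]

/-- Left translation. -/
noncomputable def tr (u w : W X) : W X := u.walk w.1.reverse

theorem tr_s (u w : W X) (x : X) : tr u (w.s x) = (tr u w).s x := by
  rcases s_cases w x with h | h <;> simp [tr, walk, h.2]

theorem tr_walk (u : W X) (l : List X) : ∀ w, tr u (w.walk l) = (tr u w).walk l := by
  induction l with
  | nil => exact fun v => rfl
  | cons x l ih => intro w; exact (ih (w.s x)).trans (by rw [tr_s]; rfl)

theorem tr_inv (v w : W X) : tr v (tr (o.walk v.1) w) = w := by
  induction w using ind_o with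
  | h0 =>
    have h1 : tr o v = v := by
      induction v using ind_o with
      | h0 => rfl
      | hs v x ih => rw [tr_s, ih]
    have := walk_rev v.1.reverse o
    rw [List.reverse_reverse] at this
    change tr v (o.walk v.1) = o
    rw [tr_walk]
    change (tr o v).walk v.1 = o at this
    rwa [h1] at this
  | hs w x ih => rw [tr_s, tr_s, ih]

/-- The distance. -/
noncomputable def d (v w : W X) : ℕ := (tr (o.walk v.1) w).1.length

@[simp] theorem d_self (v : W X) : d v v = 0 := by
  rw [d, tr, walk_rev]; rfl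

theorem eq_of_d {v w : W X} (h : d v w = 0) : v = w := by
  have h1 : tr (o.walk v.1) w = o := Subtype.ext (List.length_eq_zero_iff.1 h)
  rw [← tr_inv v w, h1]; rfl

theorem d_s' (v w : W X) (x : X) : d v (w.s x) = d v w + 1 ∨ d v (w.s x) + 1 = d v w := by
  unfold d
  rw [tr_s]
  rcases s_cases (tr (o.walk v.1) w) x with h | h
  · left; rw [h.2]; rfl
  · right; conv_rhs => rw [h.2]
    rfl

theorem exists_dir' {v w : W X} (h : v ≠ w) : ∃ x, d v (w.s x) < d v w := by
  have := mt eq_of_d h
  unfold d at *
  simp only [tr_s]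
  generalize tr (o.walk v.1) w = u at *
  obtain ⟨_ | ⟨x, l⟩, hl⟩ := u
  · simp at this
  · exact ⟨x, by simp [s_cons]⟩

theorem dir_unique' {v w : W X} {x y : X} (hx : d v (w.s x) < d v w) (hy : d v (w.s y) < d v w) :
    x = y := by
  unfold d at *
  rw [tr_s] at hx hy
  generalize tr (o.walk v.1) w = u at *
  rcases s_cases u x with h | h
  · simp [h.2] at hx
  rcases s_cases u y with h' | h'
  · simp [h'.2] at hy
  exact (List.cons.inj (h.2.symm.trans h'.2)).1

theorem d_walk (v : W X) (l : List X) : ∀ w, d v (w.walk l) ≤ d v w + l.length := by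
  induction l with
  | nil => exact fun v => le_rfl
  | cons x l ih =>
    intro w
    have := ih (w.s x)
    have := d_s' v w x
    change d v ((w.s x).walk l) ≤ _
    simp only [List.length_cons]
    omega

theorem exists_walk (v : W X) (n : ℕ) : ∀ w, d v w = n → ∃ l, w.walk l = v ∧ l.length = n := by
  induction n with
  | zero => exact fun w h => ⟨[], (eq_of_d h).symm, rfl⟩
  | succ n ih =>
    intro w h
    obtain ⟨x, hx⟩ := exists_dir' (v := v) (w := w) (by rintro rfl; simp at h)
    have := d_s' v w x
    obtain ⟨l, h1, h2⟩ := ih (w.s x) (by omega)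
    exact ⟨x :: l, h1, by simp [h2]⟩

theorem d_tri' (u v w : W X) : d u w ≤ d u v + d w v := by
  obtain ⟨l, h1, h2⟩ := exists_walk w _ v rfl
  have := d_walk u l v
  rwa [h1, h2] at this

theorem d_comm (v w : W X) : d v w = d w v :=
  le_antisymm (by simpa using d_tri' v v w) (by simpa using d_tri' w w v)

theorem d_tri (u v w : W X) : d u w ≤ d u v + d v w := d_comm v w ▸ d_tri' u v w

theorem d_s (v w : W X) (x : X) : d (v.s x) w = d v w + 1 ∨ d (v.s x) w + 1 = d v w := by
  rw [d_comm _ w, d_comm _ w]; exact d_s' w v x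

theorem ind (a : W X) {p : W X → Prop} (h0 : p a) (hs : ∀ v x, p v → p (v.s x)) (v : W X) :
    p v := by
  obtain ⟨l, rfl, -⟩ := exists_walk v _ a rfl
  induction l generalizing a with
  | nil => exact h0
  | cons x l ih => exact ih _ (hs a x h0)

/-- The half-tree behind the edge of colour `x` at `v`. -/
def h (v : W X) (x : X) : Set (W X) := {w | d (v.s x) w < d v w}

theorem mem_h {v w : W X} {x : X} : w ∈ v.h x ↔ d (v.s x) w < d v w := Iff.rfl

theorem exists_h {v w : W X} (hw : w ≠ v) : ∃ x, w ∈ v.h x := by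
  simpa only [d_comm w, mem_h] using exists_dir' hw

theorem h_unique {v w : W X} {x y : X} (hx : w ∈ v.h x) (hy : w ∈ v.h y) : x = y :=
  dir_unique' (v := w) (w := v) (by simpa only [d_comm w, mem_h] using hx)
    (by simpa only [d_comm w, mem_h] using hy)

@[simp] theorem self_not_mem (v : W X) (x : X) : v ∉ v.h x := by simp [h]

theorem mem_h_s {v w : W X} {x : X} : w ∈ (v.s x).h x ↔ w ∉ v.h x := by
  have := d_s v w x
  simp only [mem_h, s_s]
  omega

@[simp] theorem s_mem (v : W X) (x : X) : v.s x ∈ v.h x := by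
  by_contra hh
  exact self_not_mem _ _ (mem_h_s.2 hh)

@[simp] theorem self_mem (v : W X) (x : X) : v ∈ (v.s x).h x := mem_h_s.2 (self_not_mem _ _)

theorem s_inj {v : W X} {x y : X} (e : v.s x = v.s y) : x = y :=
  h_unique (s_mem v x) (e ▸ s_mem v y)

theorem h_s_subset {v : W X} {x y : X} (hxy : y ≠ x) : (v.s x).h y ⊆ v.h x := fun _ hw => by
  by_contra hh
  exact hxy (h_unique hw (mem_h_s.2 hh))

theorem exit {v w : W X} {x y : X} (hw : w ∈ v.h x) (hy : w.s y ∉ v.h x) :
    w = v.s x ∧ y = x := by
  have h1 := d_s v w x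
  have h2 := d_s v (w.s y) x
  have h3 := d_s' v w y
  have h4 := d_s' (v.s x) w y
  simp only [mem_h] at hw hy
  have e : w = v.s x := by
    by_contra hne
    obtain ⟨z, hz⟩ := exists_dir' (Ne.symm hne)
    have h5 := d_s v (w.s z) x
    have : z = y := dir_unique' (v := v) (w := w) (by omega) (by omega)
    subst this
    omega
  subst e
  refine ⟨rfl, s_inj (v := v.s x) ?_⟩
  rw [s_s]
  rw [d_self] at h1 h4
  exact (eq_of_d (by omega)).symm

theorem h_ind {v : W X} {x : X} {p : W X → Prop} (h0 : p (v.s x))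
    (hs : ∀ w y, w ∈ v.h x → w.s y ∈ v.h x → p w → p (w.s y)) {w : W X} (hw : w ∈ v.h x) :
    p w := by
  induction w using ind v with
  | h0 => simp at hw
  | hs w y ih =>
    by_cases h1 : w ∈ v.h x
    · exact hs w y h1 hw (ih h1)
    · rwa [(exit hw (y := y) (by simpa using h1)).1]

theorem nest {a w : W X} {y r : X} (hw : w ∈ a.h y) (ha : a ∉ w.h r) : w.h r ⊆ a.h y := by
  intro v hv
  refine h_ind (p := (· ∈ a.h y)) ?_ (fun u z _ h2 h3 => ?_) hv
  · by_contra hh
    obtain ⟨rfl, rfl⟩ := exit hw hh
    simp at ha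
  · by_contra hh
    obtain ⟨rfl, rfl⟩ := exit h3 hh
    exact ha (by simpa using h2)

theorem d_through {w v : W X} {r : X} (hv : v ∈ w.h r) (n : ℕ) :
    ∀ a, a ∉ w.h r → d a w = n → n < d a v := by
  induction n with
  | zero =>
    intro a ha _
    refine Nat.pos_of_ne_zero fun e => ha ?_
    rwa [eq_of_d e]
  | succ n ih =>
    intro a ha hn
    obtain ⟨y, hy⟩ := exists_h (v := a) (w := w) (by rintro rfl; simp at hn)
    have h1 : d (a.s y) v < d a v := nest hy ha hv
    have h2 := d_s a w y
    have h3 : d (a.s y) w < d a w := hy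
    have := ih (a.s y) (fun hh => ?_) (by omega)
    · omega
    · have := congrArg (s · y) (exit hh (y := y) (by simpa using ha)).1
      rw [← (exit hh (y := y) (by simpa using ha)).2] at this
      simp only [s_s] at this
      simp [this] at hn

theorem finite_ball [Finite X] (a : W X) (n : ℕ) : {w | d a w ≤ n}.Finite := by
  induction n with
  | zero => exact (Set.finite_singleton a).subset fun w hw => (eq_of_d (by simpa using hw)).symm
  | succ n ih =>
    refine ((ih.biUnion fun w _ => Set.finite_range w.s).insert a).subset fun w hw => ?_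
    by_cases e : a = w
    · exact Or.inl e.symm
    · obtain ⟨x, hx⟩ := exists_dir' e
      exact Or.inr (Set.mem_biUnion (x := w.s x) (Nat.lt_succ_iff.1 (hx.trans_le hw))
        ⟨x, s_s _ _⟩)

theorem exists_label {S : Type} (R : W X → S → X → S → Prop)
    (symm : ∀ v a x b, R v a x b → R (v.s x) b x a) (tot : ∀ v a x, ∃ b, R v a x b)
    (v₀ : W X) (a₀ : S) : ∃ f : W X → S, f v₀ = a₀ ∧ ∀ v x, R v (f v) x (f (v.s x)) := by
  choose nx hnx using tot
  let F : List X → S := fun l =>
    l.rec a₀ fun x l a => nx (v₀.walk l.reverse) a x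
  have key : ∀ (u : W X) x, R (tr v₀ u) (F u.1) x (F (u.s x).1) := by
    intro u x
    rcases s_cases u x with h | h
    · rw [h.2]; exact hnx _ _ _
    · have := symm _ _ _ _ (hnx (tr v₀ (u.s x)) (F (u.s x).1) x)
      rw [← tr_s, s_s] at this
      rw [h.2]
      exact this
  refine ⟨fun v => F (tr (o.walk v₀.1) v).1, ?_, fun v x => ?_⟩
  · simp only [tr, walk_rev]; rfl
  · simpa only [tr_inv, tr_s] using key (tr (o.walk v₀.1) v) x

theorem d_map {g : W X → W X} {σ : W X → X → X} (hσ : ∀ v, Function.Injective (σ v))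
    (hg : ∀ v x, g (v.s x) = (g v).s (σ v x)) (w : W X) (n : ℕ) :
    ∀ v, d v w = n → d (g v) (g w) = n := by
  induction n using Nat.strong_induction_on with
  | _ n ih =>
  intro v hv
  by_cases e : w = v
  · subst e; simpa using hv
  obtain ⟨x, hx⟩ := exists_h e
  have h1 := d_s v w x
  have hx' : d (v.s x) w < d v w := hx
  have h2 := ih _ (hv ▸ hx') (v.s x) rfl
  have h3 := d_s (g (v.s x)) (g w) (σ (v.s x) x)
  rw [← hg, s_s] at h3
  by_cases e' : w = v.s x
  · subst e'
    simp only [d_self] at *
    omega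
  obtain ⟨y, hy⟩ := exists_h e'
  have hy' : d ((v.s x).s y) w < d (v.s x) w := hy
  have h4 := ih _ (by omega) ((v.s x).s y) rfl
  by_contra hne
  have : σ (v.s x) x = σ (v.s x) y := h_unique (v := g (v.s x)) (w := g w)
    (by rw [mem_h, ← hg, s_s]; omega) (by rw [mem_h, ← hg]; omega)
  rw [← hσ _ this, s_s] at hy'
  omega

end W

end Pool.Agent.Lib.MP_e7db20_al
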